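import Pool.Agent.KBY.KOne

/-! Clifford: the characters under an irreducible character are conjugate. -/

set_option autoImplicit false

namespace Pool.Agent.KBY

open Pool.Agent.KB Pool.Agent.KB.ContrAux Pool.Agent.KBL Pool.Agent.KBZ Pool.Agent.KBU
  Pool.Agent.KBQ

private theorem clb_sum {A G : Type} [Group A] [Fintype A] [Group G] [Fintype G] {ι : A →* G}
    (h : Nrm ι) (χ : G → ℂ) (hχ : χ ∈ Irr G) (θ : A → ℂ) (g : G) :
    ∑ a : A, χ (ι a) * tw h g θ a⁻¹ = ∑ a : A, χ (ι a) * θ a⁻¹ := by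
  rw [← (h.cg g).toEquiv.sum_comp (fun a => χ (ι a) * θ a⁻¹)]
  refine Finset.sum_congr rfl fun a _ => ?_
  have h1 : χ (ι (h.cg g a)) = χ (ι a) := by
    rw [h.cg_spec]
    exact (Col_class hχ (isConj_iff.2 ⟨g, rfl⟩)).symm
  change χ (ι a) * θ (h.cg g a⁻¹) = χ (ι (h.cg g a)) * θ (h.cg g a)⁻¹
  rw [h1, map_inv]

/-- HINT: in `∑ a, χ (ι a) * θ (h.cg g a)⁻¹` substitute `a = h.cg g⁻¹ b`; `ι (h.cg g⁻¹ b) =
g⁻¹ * ι b * g` is conjugate to `ι b` (`Col_class hχ`). So the sums for `θ` and `tw h g θ` are equal,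
and `mlt` depends only on this sum (unfold; or use `ClA_spec` and cancel `|A|`). -/
theorem ClB_mlt {A G : Type} [Group A] [Fintype A] [Group G] [Fintype G] {ι : A →* G}
    (h : Nrm ι) (χ : G → ℂ) (hχ : χ ∈ Irr G) (θ : A → ℂ) (hθ : θ ∈ Irr A) (g : G) :
    mlt ι χ (tw h g θ) = mlt ι χ θ := by
  have hA : (Nat.card A : ℂ) ≠ 0 := by
    have : 0 < Nat.card A := Nat.card_pos
    exact_mod_cast this.ne'
  have h1 := ClA_spec ι h.inj χ hχ (tw h g θ) (tw_irr h g hθ)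
  rw [clb_sum h χ hχ θ g, ← ClA_spec ι h.inj χ hχ θ hθ] at h1
  have h2 := mul_right_cancel₀ hA h1
  exact_mod_cast h2

theorem ClB_tw {A G : Type} [Group A] [Fintype A] [Group G] [Fintype G] {ι : A →* G}
    (h : Nrm ι) (χ : G → ℂ) (hχ : χ ∈ Irr G) (θ : A → ℂ) (hθ : θ ∈ Irr A) (g : G) :
    Over ι χ (tw h g θ) ↔ Over ι χ θ := by
  unfold Over
  rw [clb_sum h χ hχ θ g]

/-- PROOF. Let `z` be the element of the group algebra with the coefficients
`z.coeff a = ∑ g : G, θ (h.cg g a⁻¹)` (an algebraic integer, `irr_integral`; build it as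
`∑ a, single a ⟨_, _⟩`). `Inv h z`: `h.cg g (h.cg k a) = h.cg (g * k) a`, reindex the sum over `g`. For
`φ ∈ Irr A`: `ev φ z = ∑ g ∑ a θ (h.cg g a⁻¹) φ a = ∑ g (if tw h g θ = φ then |A| else 0)` (`Col_row` for
`φ` and `tw h g θ`, `tw_irr`). So `ev θ z = |A| * #{g | tw h g θ = θ} ≠ 0` (`g = 1`), hence
`omg θ z ≠ 0`; by `KOne_main` (twice) `omg θ' z = omg χ (up ι z) = omg θ z ≠ 0`, so `ev θ' z ≠ 0` and there
is a `g` with `tw h g θ = θ'`. -/
theorem ClB_conj {A G : Type} [Group A] [Fintype A] [Group G] [Fintype G] {ι : A →* G}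
    (h : Nrm ι) (χ : G → ℂ) (hχ : χ ∈ Irr G) (θ θ' : A → ℂ) (hθ : θ ∈ Irr A) (hθ' : θ' ∈ Irr A)
    (h1 : Over ι χ θ) (h2 : Over ι χ θ') : ∃ g : G, tw h g θ = θ' := by
  classical
  set z : MonoidAlgebra AInt A := ∑ a : A, MonoidAlgebra.single a
    (∑ g : G, (⟨θ (h.cg g a⁻¹), irr_integral hθ _⟩ : AInt)) with hz
  have hzc : ∀ a, z.coeff a = ∑ g : G, (⟨θ (h.cg g a⁻¹), irr_integral hθ _⟩ : AInt) := by
    intro a
    rw [hz, MonoidAlgebra.coeff_sum, Finsupp.finsetSum_apply]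
    simp only [MonoidAlgebra.coeff_single, Finsupp.single_apply]
    rw [Finset.sum_ite_eq' Finset.univ a, if_pos (Finset.mem_univ _)]
  have hzc' : ∀ a, ((z.coeff a : AInt) : ℂ) = ∑ g : G, θ (h.cg g a⁻¹) := by
    intro a
    rw [hzc]
    push_cast
    rfl
  have hinv : Inv h z := by
    intro k a
    apply Subtype.ext
    rw [hzc', hzc', ← Equiv.sum_comp (Equiv.mulRight k) (fun g => θ (h.cg g a⁻¹))]
    refine Finset.sum_congr rfl fun g _ => ?_
    rw [Equiv.coe_mulRight, h.cg_mul, map_inv (h.cg k)]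
  have hev : ∀ φ ∈ Irr A, ev φ z = ∑ g : G, if φ = tw h g θ then (Nat.card A : ℂ) else 0 := by
    intro φ hφ
    unfold ev
    have e1 : ∀ a : A, ((z.coeff a : AInt) : ℂ) * φ a = ∑ g : G, φ a * tw h g θ a⁻¹ := by
      intro a
      rw [hzc', Finset.sum_mul]
      exact Finset.sum_congr rfl fun g _ => by rw [mul_comm]; rfl
    rw [Finset.sum_congr rfl fun a _ => e1 a, Finset.sum_comm]
    refine Finset.sum_congr rfl fun g _ => ?_
    obtain ⟨r1, r2⟩ := Col_row φ (tw h g θ) hφ (tw_irr h g hθ)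
    split_ifs with hh
    · exact r1 hh
    · exact r2 hh
  have hA : (Nat.card A : ℂ) ≠ 0 := by
    have : 0 < Nat.card A := Nat.card_pos
    exact_mod_cast this.ne'
  have hcnt : ∀ φ ∈ Irr A, ev φ z =
      ((Finset.univ.filter fun g : G => φ = tw h g θ).card : ℂ) * (Nat.card A : ℂ) := by
    intro φ hφ
    rw [hev φ hφ, ← Finset.sum_filter, Finset.sum_const, nsmul_eq_mul]
  have hne : ev θ z ≠ 0 := by
    rw [hcnt θ hθ]
    refine mul_ne_zero ?_ hA
    have : 0 < (Finset.univ.filter fun g : G => θ = tw h g θ).card :=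
      Finset.card_pos.2 ⟨1, by simp [tw_one]⟩
    exact_mod_cast this.ne'
  have h3 : omg θ' z = omg θ z := by
    rw [← KOne_main h χ hχ θ hθ h1 z hinv, ← KOne_main h χ hχ θ' hθ' h2 z hinv]
  have h4 : ev θ' z ≠ 0 := by
    intro h0
    have h5 : omg θ' z = 0 := by
      unfold omg
      rw [h0, zero_div]
    rw [h5] at h3
    unfold omg at h3
    exact div_ne_zero hne (Alg_ne hθ) h3.symm
  rw [hcnt θ' hθ'] at h4
  have h5 : (Finset.univ.filter fun g : G => θ' = tw h g θ).card ≠ 0 := by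
    intro h0
    apply h4
    rw [h0]
    simp
  obtain ⟨g, hg⟩ := Finset.card_pos.1 (Nat.pos_of_ne_zero h5)
  exact ⟨g, ((Finset.mem_filter.1 hg).2).symm⟩

end Pool.Agent.KBY
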