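import Mathlib

/-! Normal subgroups (written as injective homomorphisms with normal image), series of normal
subgroups, commuting pairs with fixed points. Only Mathlib is imported here. -/

set_option autoImplicit false

namespace Pool.Agent.KBY

/-- `ι` identifies `A` with a normal subgroup of `G`. -/
structure Nrm {A G : Type} [Group A] [Group G] (ι : A →* G) : Prop where
  inj : Function.Injective ι
  nrm : ∀ (g : G) (x : A), ∃ y : A, ι y = g * ι x * g⁻¹

section
variable {A G : Type} [Group A] [Group G] {ι : A →* G}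

/-- Conjugation by `g` on `A`. -/
noncomputable def Nrm.cg (h : Nrm ι) (g : G) : A ≃* A where
  toFun x := (h.nrm g x).choose
  invFun x := (h.nrm g⁻¹ x).choose
  left_inv x := by
    apply h.inj
    rw [(h.nrm g⁻¹ _).choose_spec, (h.nrm g x).choose_spec]
    group
  right_inv x := by
    apply h.inj
    rw [(h.nrm g _).choose_spec, (h.nrm g⁻¹ x).choose_spec]
    group
  map_mul' x y := by
    apply h.inj
    have e1 := (h.nrm g (x * y)).choose_spec
    have e2 := (h.nrm g x).choose_spec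
    have e3 := (h.nrm g y).choose_spec
    calc ι (h.nrm g (x * y)).choose = g * ι (x * y) * g⁻¹ := e1
      _ = (g * ι x * g⁻¹) * (g * ι y * g⁻¹) := by rw [map_mul]; group
      _ = ι (h.nrm g x).choose * ι (h.nrm g y).choose := by rw [e2, e3]
      _ = ι ((h.nrm g x).choose * (h.nrm g y).choose) := (map_mul _ _ _).symm

theorem Nrm.cg_spec (h : Nrm ι) (g : G) (x : A) : ι (h.cg g x) = g * ι x * g⁻¹ :=
  (h.nrm g x).choose_spec

theorem Nrm.cg_mul (h : Nrm ι) (g k : G) (x : A) : h.cg (g * k) x = h.cg g (h.cg k x) := by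
  apply h.inj
  rw [h.cg_spec, h.cg_spec, h.cg_spec]
  group

theorem Nrm.cg_one (h : Nrm ι) (x : A) : h.cg 1 x = x := by
  apply h.inj
  rw [h.cg_spec]
  group

theorem Nrm.cg_in (h : Nrm ι) (a x : A) : h.cg (ι a) x = a * x * a⁻¹ := by
  apply h.inj
  rw [h.cg_spec, map_mul, map_mul, map_inv]

theorem Nrm.cg_inv (h : Nrm ι) (g : G) (x : A) : h.cg g⁻¹ (h.cg g x) = x := by
  rw [← h.cg_mul, inv_mul_cancel, h.cg_one]

theorem Nrm.cg_inv' (h : Nrm ι) (g : G) (x : A) : h.cg g (h.cg g⁻¹ x) = x := by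
  rw [← h.cg_mul, mul_inv_cancel, h.cg_one]

theorem Nrm.normal (h : Nrm ι) : ι.range.Normal := by
  constructor
  rintro _ ⟨x, rfl⟩ g
  obtain ⟨y, hy⟩ := h.nrm g x
  exact ⟨y, hy⟩

theorem Nrm.of_range (hi : Function.Injective ι) (hn : ι.range.Normal) : Nrm ι where
  inj := hi
  nrm g x := by
    obtain ⟨y, hy⟩ := hn.conj_mem (ι x) ⟨x, rfl⟩ g
    exact ⟨y, hy⟩

theorem Nrm.subtype (C : Subgroup G) [hC : C.Normal] : Nrm C.subtype :=
  Nrm.of_range (Subgroup.subtype_injective C) (by rw [Subgroup.range_subtype]; exact hC)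

end

/-- There is a series of normal subgroups of `G` from `N` to `G` whose factors are of order prime
to `p` or elementary abelian `p`-groups of order at most `p ^ r`, with at most `n` factors of the
second kind. -/
def Ser {G : Type} [Group G] (p r n : ℕ) (N : Subgroup G) : Prop :=
  ∃ (K : ℕ → Subgroup G) (m : ℕ) (F : Finset ℕ), K 0 = N ∧ K m = ⊤ ∧ F.card ≤ n ∧
    ∀ i < m, (K i).Normal ∧ K i ≤ K (i + 1) ∧
      (i ∉ F → ¬ p ∣ (K i).relIndex (K (i + 1))) ∧
      (i ∈ F → (∀ x ∈ K (i + 1), x ^ p ∈ K i) ∧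
        (∀ x ∈ K (i + 1), ∀ y ∈ K (i + 1), x * y * x⁻¹ * y⁻¹ ∈ K i) ∧
        (K i).relIndex (K (i + 1)) ≤ p ^ r)

/-- The set of the triples `(s, t, v)` with commuting `s`, `t` which fix `v`. -/
def Trp (S X : Type) [Group S] [MulAction S X] : Type :=
  {y : S × S × X // y.1 * y.2.1 = y.2.1 * y.1 ∧ y.1 • y.2.2 = y.2.2 ∧ y.2.1 • y.2.2 = y.2.2}

/-- The pairs `(s, x)` such that `s` fixes `x`. -/
def Prs (S X : Type) [Group S] [MulAction S X] : Type := {w : S × X // w.1 • w.2 = w.2}

instance Prs_action (S X : Type) [Group S] [MulAction S X] : MulAction S (Prs S X) where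
  smul t w := ⟨(t * w.1.1 * t⁻¹, t • w.1.2), by
    change (t * w.1.1 * t⁻¹) • t • w.1.2 = t • w.1.2
    rw [smul_smul, inv_mul_cancel_right, mul_smul, w.2]⟩
  one_smul w := by
    apply Subtype.ext
    change (1 * w.1.1 * 1⁻¹, (1 : S) • w.1.2) = w.1
    rw [one_mul, inv_one, mul_one, one_smul]
  mul_smul s t w := by
    apply Subtype.ext
    change (s * t * w.1.1 * (s * t)⁻¹, (s * t) • w.1.2) =
      (s * (t * w.1.1 * t⁻¹) * s⁻¹, s • t • w.1.2)
    rw [mul_smul, mul_inv_rev]
    simp only [mul_assoc]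

theorem Prs_smul {S X : Type} [Group S] [MulAction S X] (t : S) (w : Prs S X) :
    (t • w).1 = (t * w.1.1 * t⁻¹, t • w.1.2) := rfl

/-- The `k(GV)`-bound with the factor `C`, for elementary abelian groups of order at most `p ^ r`
and faithful groups of automorphisms of order prime to `p`: `k(SV) ≤ C |V|`. -/
def KVB (p r C : ℕ) : Prop :=
  ∀ (V S : Type) [CommGroup V] [Finite V] [Group S] [Finite S] [MulDistribMulAction S V]
    [FaithfulSMul S V], (∀ v : V, v ^ p = 1) → Nat.card V ≤ p ^ r → ¬ p ∣ Nat.card S →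
    Nat.card (Trp S V) ≤ C * Nat.card S * Nat.card V

end Pool.Agent.KBY
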