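import Pool.Agent.KBQ.Defs
import Pool.Agent.KBU.Inf
import Pool.Agent.KBY.DefsG

/-! Characters over a character of a normal subgroup, conjugate characters, stabilizers of blocks,
induced class functions, the embedding of the group algebra of a normal subgroup. -/

set_option autoImplicit false

namespace Pool.Agent.KBY

open Pool.Agent.KB Pool.Agent.KB.ContrAux Pool.Agent.KBL Pool.Agent.KBZ Pool.Agent.KBU
  Pool.Agent.KBQ

/-- The finite set of the irreducible characters. -/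
noncomputable def irrF (A : Type) [Group A] [Fintype A] : Finset (A → ℂ) :=
  (@Set.toFinite _ (Irr A) (Col_finite A)).toFinset

theorem mem_irrF {A : Type} [Group A] [Fintype A] {θ : A → ℂ} : θ ∈ irrF A ↔ θ ∈ Irr A := by
  unfold irrF
  rw [Set.Finite.mem_toFinset]

/-- `χ` lies over `θ` (`θ` is a constituent of the restriction of `χ`). -/
def Over {A G : Type} [Group A] [Fintype A] [Group G] (ι : A →* G) (χ : G → ℂ) (θ : A → ℂ) :
    Prop := ∑ a : A, χ (ι a) * θ a⁻¹ ≠ 0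

section
variable {A G : Type} [Group A] [Group G] {ι : A →* G}

/-- The conjugate character `θ^g : x ↦ θ (g x g⁻¹)`. -/
noncomputable def tw (h : Nrm ι) (g : G) (θ : A → ℂ) : A → ℂ := fun x => θ (h.cg g x)

theorem tw_apply (h : Nrm ι) (g : G) (θ : A → ℂ) (x : A) : tw h g θ x = θ (h.cg g x) := rfl

theorem tw_irr (h : Nrm ι) (g : G) {θ : A → ℂ} (hθ : θ ∈ Irr A) : tw h g θ ∈ Irr A :=
  Inf_irr (h.cg g).toMonoidHom (h.cg g).surjective θ hθ

theorem tw_mul (h : Nrm ι) (g k : G) (θ : A → ℂ) : tw h k (tw h g θ) = tw h (g * k) θ := by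
  funext x
  unfold tw
  rw [h.cg_mul]

theorem tw_one (h : Nrm ι) (θ : A → ℂ) : tw h 1 θ = θ := by
  funext x
  unfold tw
  rw [h.cg_one]

theorem tw_inv (h : Nrm ι) (g : G) (θ : A → ℂ) : tw h g⁻¹ (tw h g θ) = θ := by
  rw [tw_mul, mul_inv_cancel, tw_one]

theorem tw_inv' (h : Nrm ι) (g : G) (θ : A → ℂ) : tw h g (tw h g⁻¹ θ) = θ := by
  rw [tw_mul, inv_mul_cancel, tw_one]

theorem tw_in (h : Nrm ι) (a : A) {θ : A → ℂ} (hθ : θ ∈ Irr A) : tw h (ι a) θ = θ := by
  funext x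
  unfold tw
  rw [h.cg_in]
  exact (Col_class hθ (isConj_iff.2 ⟨a, rfl⟩)).symm

theorem tw_deg (h : Nrm ι) (g : G) (θ : A → ℂ) : tw h g θ 1 = θ 1 := by
  rw [tw_apply, map_one]

theorem cg_card (h : Nrm ι) (g : G) (x : A) :
    Nat.card {y : A // IsConj (h.cg g x) y} = Nat.card {y : A // IsConj x y} := by
  have h1 : ∀ y : {y : A // IsConj x y}, IsConj (h.cg g x) (h.cg g y.1) :=
    fun y => (h.cg g).toMonoidHom.map_isConj y.2
  have h2 : ∀ y : {y : A // IsConj (h.cg g x) y}, IsConj x ((h.cg g).symm y.1) := by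
    intro y
    have := (h.cg g).symm.toMonoidHom.map_isConj y.2
    simpa using this
  exact (Nat.card_congr ⟨fun y => ⟨h.cg g y.1, h1 y⟩, fun y => ⟨(h.cg g).symm y.1, h2 y⟩,
    fun y => by simp, fun y => by simp⟩).symm

theorem tw_omega (h : Nrm ι) (g : G) (θ : A → ℂ) (x : A) :
    omega (tw h g θ) x = omega θ (h.cg g x) := by
  unfold omega tw
  rw [cg_card, map_one]

theorem tw_same (h : Nrm ι) (𝔪 : Ideal AInt) (g : G) {θ θ' : A → ℂ} (hs : SameBlock 𝔪 θ θ') :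
    SameBlock 𝔪 (tw h g θ) (tw h g θ') := by
  intro x
  obtain ⟨c, hc, hc'⟩ := hs (h.cg g x)
  exact ⟨c, hc, by rw [hc', tw_omega, tw_omega]⟩

theorem same_symm {H : Type} [Group H] {𝔪 : Ideal AInt} {θ θ' : H → ℂ} (hs : SameBlock 𝔪 θ θ') :
    SameBlock 𝔪 θ' θ := by
  intro x
  obtain ⟨c, hc, hc'⟩ := hs x
  exact ⟨-c, 𝔪.neg_mem hc, by push_cast; rw [hc']; ring⟩

theorem same_refl {H : Type} [Group H] (𝔪 : Ideal AInt) (θ : H → ℂ) : SameBlock 𝔪 θ θ :=
  fun _ => ⟨0, 𝔪.zero_mem, by simp⟩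

theorem same_trans {H : Type} [Group H] {𝔪 : Ideal AInt} {θ θ' θ'' : H → ℂ}
    (h : SameBlock 𝔪 θ θ') (h' : SameBlock 𝔪 θ' θ'') : SameBlock 𝔪 θ θ'' :=
  Gam_same 𝔪 _ _ _ h h'

theorem same_iff {H : Type} [Group H] {𝔪 : Ideal AInt} {θ θ' : H → ℂ} :
    SameBlock 𝔪 θ θ' ↔ ∀ x, InM 𝔪 (omega θ x - omega θ' x) := Iff.rfl

theorem block_eq {H : Type} [Group H] {𝔪 : Ideal AInt} {θ θ' : H → ℂ} (h : SameBlock 𝔪 θ θ') :
    block 𝔪 θ = block 𝔪 θ' := by
  ext η
  exact ⟨fun hη => ⟨hη.1, same_trans (same_symm h) hη.2⟩, fun hη => ⟨hη.1, same_trans h hη.2⟩⟩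

/-- The stabilizer in `G` of the block of `θ`. -/
noncomputable def StB (𝔪 : Ideal AInt) (h : Nrm ι) (θ : A → ℂ) : Subgroup G where
  carrier := {g | SameBlock 𝔪 θ (tw h g θ)}
  mul_mem' := by
    intro a b ha hb
    have h1 := tw_same h 𝔪 b ha
    rw [tw_mul] at h1
    exact Gam_same 𝔪 _ _ _ hb h1
  one_mem' := by
    change SameBlock 𝔪 θ (tw h 1 θ)
    rw [tw_one]
    exact same_refl 𝔪 θ
  inv_mem' := by
    intro a ha
    have h1 := tw_same h 𝔪 a⁻¹ ha
    rw [tw_mul, mul_inv_cancel, tw_one] at h1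
    exact same_symm h1

theorem StB_mem (𝔪 : Ideal AInt) (h : Nrm ι) (θ : A → ℂ) (g : G) :
    g ∈ StB 𝔪 h θ ↔ SameBlock 𝔪 θ (tw h g θ) := Iff.rfl

theorem StB_in (𝔪 : Ideal AInt) (h : Nrm ι) {θ : A → ℂ} (hθ : θ ∈ Irr A) (a : A) :
    ι a ∈ StB 𝔪 h θ := by
  rw [StB_mem, tw_in h a hθ]
  exact same_refl 𝔪 θ

/-- The coefficients of `z` are invariant under conjugation by `G`. -/
def Inv (h : Nrm ι) (z : MonoidAlgebra AInt A) : Prop :=
  ∀ (g : G) (a : A), z.coeff (h.cg g a) = z.coeff a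

end

open Classical in
/-- The multiplicity of `θ` in the restriction of `χ`. -/
noncomputable def mlt {A G : Type} [Group A] [Fintype A] [Group G] (ι : A →* G) (χ : G → ℂ)
    (θ : A → ℂ) : ℕ :=
  if h : ∃ n : ℕ, (n : ℂ) * (Nat.card A : ℂ) = ∑ a : A, χ (ι a) * θ a⁻¹ then h.choose else 0

/-- The image of an element of the group algebra of `A` in the group algebra of `G`. -/
noncomputable def up {A G : Type} [Group A] [Fintype A] [Group G] (ι : A →* G)
    (z : MonoidAlgebra AInt A) : MonoidAlgebra AInt G :=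
  ∑ a : A, MonoidAlgebra.single (ι a) (z.coeff a)

open Classical in
/-- The induced class function. -/
noncomputable def indc {G : Type} [Group G] [Fintype G] (T : Subgroup G) (ψ : T → ℂ) (g : G) : ℂ :=
  (∑ x : G, if hx : x * g * x⁻¹ ∈ T then ψ ⟨x * g * x⁻¹, hx⟩ else 0) / (Nat.card T : ℂ)

/-- The `x`-part of the function `φ` on `G`, for a character `x` of `B`:
`y ↦ x(1)/|B| ∑_b φ(y b) x(b⁻¹)`. -/
noncomputable def pr {B G : Type} [Group B] [Fintype B] [Group G] (ι : B →* G) (x : B → ℂ)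
    (φ : G → ℂ) (y : G) : ℂ := x 1 / (Nat.card B : ℂ) * ∑ b : B, φ (y * ι b) * x b⁻¹

/-- The linear characters of `B` which are trivial on `A`. -/
def Wgp {A B : Type} [Group A] [Group B] (ι : A →* B) : Subgroup (B →* ℂˣ) where
  carrier := {f | ∀ a : A, f (ι a) = 1}
  mul_mem' := by
    intro f g hf hg a
    rw [MonoidHom.mul_apply, hf a, hg a, one_mul]
  one_mem' := fun _ => rfl
  inv_mem' := by
    intro f hf a
    rw [MonoidHom.inv_apply, hf a, inv_one]

theorem Wgp_mem {A B : Type} [Group A] [Group B] (ι : A →* B) (f : B →* ℂˣ) :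
    f ∈ Wgp ι ↔ ∀ a : A, f (ι a) = 1 := Iff.rfl

/-- The set of the irreducible characters of `G` which lie over a character in `X`. -/
def Abv {B G : Type} [Group B] [Fintype B] [Group G] (ι : B →* G) (X : Set (B → ℂ)) :
    Set (G → ℂ) := {χ | χ ∈ Irr G ∧ ∃ x ∈ X, Over ι χ x}

/-- `T` contains the normal subgroup `A`; `Y` is a set of irreducible characters of `A` which is
mapped to itself by the elements of `T` and to a disjoint set by the other elements of `G`. -/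
structure Ctx {A G : Type} [Group A] [Group G] {ι : A →* G} (h : Nrm ι) (T : Subgroup G)
    (κ : A →* T) (Y : Set (A → ℂ)) : Prop where
  nk : Nrm κ
  kap : ∀ a, (κ a : G) = ι a
  irr : ∀ φ ∈ Y, φ ∈ Irr A
  sta : ∀ t : T, ∀ φ ∈ Y, tw h (t : G) φ ∈ Y
  dis : ∀ g : G, g ∉ T → ∀ φ ∈ Y, tw h g φ ∉ Y

theorem Ctx.tw_eq {A G : Type} [Group A] [Group G] {ι : A →* G} {h : Nrm ι} {T : Subgroup G}
    {κ : A →* T} {Y : Set (A → ℂ)} (c : Ctx h T κ Y) (t : T) (φ : A → ℂ) :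
    tw c.nk t φ = tw h (t : G) φ := by
  funext x
  rw [tw_apply, tw_apply]
  congr 1
  apply h.inj
  rw [h.cg_spec, ← c.kap, c.nk.cg_spec, ← c.kap]
  rfl

/-- The set of the elements of `G` which normalize `D` and fix the block of `ζ`, for a subgroup `D`
of `N` and a character `ζ` of its centralizer `H` in `N` (with the injective homomorphisms
`H → N → G`). -/
def ExS {H N G : Type} [Group H] [Group N] [Group G] (𝔪 : Ideal AInt) (ι : N →* G)
    (D : Subgroup N) (ι₀ : H →* N) (ζ : H → ℂ) : Set G :=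
  {g | (∀ x : G, x ∈ D.map ι ↔ g * x * g⁻¹ ∈ D.map ι) ∧ Cj 𝔪 g (ι.comp ι₀) ζ (ι.comp ι₀) ζ}

end Pool.Agent.KBY
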