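import Pool.Agent.KBY.Defs
import Pool.Agent.KBZ.Res
import Pool.Agent.KBZ.UOne

/-! Multiplicities of the restriction of a character along an injective homomorphism. -/

set_option autoImplicit false

namespace Pool.Agent.KBY

open Pool.Agent.KB Pool.Agent.KB.ContrAux Pool.Agent.KBL Pool.Agent.KBZ Pool.Agent.KBU
  Pool.Agent.KBQ

private theorem ClA_cardne (A : Type) [Group A] [Fintype A] : (Nat.card A : ℂ) ≠ 0 := by
  have : Nat.card A ≠ 0 := Nat.card_pos.ne'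
  exact_mod_cast this

/-- `mlt ι χ θ` is the multiplicity. PROOF. The number `n` exists: let `C = ι.range` and
`e : A ≃* C` (`MonoidHom.ofInjective hι`). By `UOne_irr` (for `e.symm`) the function
`y ↦ θ (e.symm y)` is in `Irr C`, and `Res_mult C χ hχ` gives `n * |C| = ∑ y : C, χ y * θ (e.symm y⁻¹)`;
transport the sum along `e`. Then `mlt` is `h.choose` for this existence statement. -/
theorem ClA_spec {A G : Type} [Group A] [Fintype A] [Group G] [Fintype G] (ι : A →* G)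
    (hι : Function.Injective ι) (χ : G → ℂ) (hχ : χ ∈ Irr G) (θ : A → ℂ) (hθ : θ ∈ Irr A) :
    (mlt ι χ θ : ℂ) * (Nat.card A : ℂ) = ∑ a : A, χ (ι a) * θ a⁻¹ := by
  have hex : ∃ n : ℕ, (n : ℂ) * (Nat.card A : ℂ) = ∑ a : A, χ (ι a) * θ a⁻¹ := by
    have hf : Fintype ι.range := Fintype.ofFinite _
    let e : A ≃* ι.range := MonoidHom.ofInjective hι
    have hi : (fun y => θ (e.symm y)) ∈ Irr ι.range := UOne_irr e.symm hθ
    obtain ⟨n, hn⟩ := Res_mult ι.range χ hχ _ hi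
    refine ⟨n, ?_⟩
    rw [Nat.card_congr e.toEquiv, hn, ← e.toEquiv.sum_comp]
    refine Finset.sum_congr rfl fun a _ => ?_
    have h1 : ((e.toEquiv a : ι.range) : G) = ι a := rfl
    have h2 : e.symm (e.toEquiv a)⁻¹ = a⁻¹ := by
      rw [map_inv]
      congr 1
      exact e.symm_apply_apply a
    rw [h1, h2]
  unfold mlt
  rw [dif_pos hex]
  exact hex.choose_spec

theorem ClA_over {A G : Type} [Group A] [Fintype A] [Group G] [Fintype G] (ι : A →* G)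
    (hι : Function.Injective ι) (χ : G → ℂ) (hχ : χ ∈ Irr G) (θ : A → ℂ) (hθ : θ ∈ Irr A) :
    Over ι χ θ ↔ mlt ι χ θ ≠ 0 := by
  unfold Over
  rw [← ClA_spec ι hι χ hχ θ hθ, mul_ne_zero_iff]
  constructor
  · rintro ⟨h, -⟩ h0
    exact h (by rw [h0]; simp)
  · intro h
    exact ⟨by exact_mod_cast h, ClA_cardne A⟩

private theorem ClA_sum_irrF {A : Type} [Group A] [Fintype A] {K : ℕ} (X : Fin K → A → ℂ)
    (hX : Function.Injective X) (hr : Set.range X = Irr A) (F : (A → ℂ) → ℂ) :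
    ∑ i, F (X i) = ∑ θ ∈ irrF A, F θ := by
  refine Finset.sum_bij (fun i _ => X i) ?_ ?_ ?_ ?_
  · intro i _
    rw [mem_irrF, ← hr]
    exact ⟨i, rfl⟩
  · intro i _ j _ h
    exact hX h
  · intro θ hθ
    rw [mem_irrF, ← hr] at hθ
    obtain ⟨i, hi⟩ := hθ
    exact ⟨i, Finset.mem_univ _, hi⟩
  · intro i _
    rfl

/-- PROOF. `Col_main A` gives `X : Fin K → A → ℂ`, injective with range `Irr A`, with the column
relations; `Res_expand` for the class function `a ↦ χ (ι a)` gives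
`|A| χ (ι a) = ∑ i, (∑ z, χ (ι z) * X i z⁻¹) * X i a = ∑ i, mlt ι χ (X i) |A| X i a`. Reindex the sum over
`Fin K` to `irrF A` (`Finset.sum_bij`, `mem_irrF`) and divide by `|A|`. -/
theorem ClA_sum {A G : Type} [Group A] [Fintype A] [Group G] [Fintype G] (ι : A →* G)
    (hι : Function.Injective ι) (χ : G → ℂ) (hχ : χ ∈ Irr G) (a : A) :
    χ (ι a) = ∑ θ ∈ irrF A, (mlt ι χ θ : ℂ) * θ a := by
  obtain ⟨K, X, hX, hr, h1, h2⟩ := Col_main A
  have hXI : ∀ i, X i ∈ Irr A := fun i => hr ▸ Set.mem_range_self i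
  have h3 := Res_expand (fun a => χ (ι a)) (fun y z h => by
    obtain ⟨c, hc⟩ := isConj_iff.1 h
    exact irr_conj hχ (isConj_iff.2 ⟨ι c, by rw [← hc, map_mul, map_mul, map_inv]⟩)) X h1 h2 a
  rw [← ClA_sum_irrF X hX hr (fun θ => (mlt ι χ θ : ℂ) * θ a)]
  have h4 : ∑ i, (∑ z : A, χ (ι z) * X i z⁻¹) * X i a =
      (Nat.card A : ℂ) * ∑ i, (mlt ι χ (X i) : ℂ) * X i a := by
    rw [Finset.mul_sum]
    refine Finset.sum_congr rfl fun i _ => ?_
    rw [← ClA_spec ι hι χ hχ (X i) (hXI i)]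
    ring
  rw [h4] at h3
  exact mul_left_cancel₀ (ClA_cardne A) h3

/-- HINT: otherwise all `mlt` are zero and `χ (ι 1) = 0` by `ClA_sum`; but `χ 1 ≠ 0` (`Alg_ne`). -/
theorem ClA_ex {A G : Type} [Group A] [Fintype A] [Group G] [Fintype G] (ι : A →* G)
    (hι : Function.Injective ι) (χ : G → ℂ) (hχ : χ ∈ Irr G) : ∃ θ ∈ Irr A, Over ι χ θ := by
  by_contra hc
  push Not at hc
  have h1 := ClA_sum ι hι χ hχ 1
  rw [map_one] at h1
  apply Alg_ne hχ
  rw [h1]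
  refine Finset.sum_eq_zero fun θ hθ => ?_
  have h2 := hc θ (mem_irrF.1 hθ)
  rw [ClA_over ι hι χ hχ θ (mem_irrF.1 hθ), not_not] at h2
  rw [h2]
  simp

/-- PROOF. `|B| mlt (ι ∘ κ) χ η = ∑ b, χ (ι (κ b)) η b⁻¹ = ∑ b ∑ θ mlt ι χ θ * θ (κ b) * η b⁻¹
= ∑ θ mlt ι χ θ * (mlt κ θ η * |B|)` by `ClA_sum` and `ClA_spec`; cancel `|B|` and cast. -/
theorem ClA_comp {B A G : Type} [Group B] [Fintype B] [Group A] [Fintype A] [Group G] [Fintype G]
    (κ : B →* A) (hκ : Function.Injective κ) (ι : A →* G) (hι : Function.Injective ι)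
    (χ : G → ℂ) (hχ : χ ∈ Irr G) (η : B → ℂ) (hη : η ∈ Irr B) :
    mlt (ι.comp κ) χ η = ∑ θ ∈ irrF A, mlt ι χ θ * mlt κ θ η := by
  have h1 := ClA_spec (ι.comp κ) (hι.comp hκ) χ hχ η hη
  have h2 : ∑ b : B, χ (ι.comp κ b) * η b⁻¹ =
      (((∑ θ ∈ irrF A, mlt ι χ θ * mlt κ θ η : ℕ)) : ℂ) * (Nat.card B : ℂ) := by
    have h3 : ∀ b : B, χ (ι.comp κ b) * η b⁻¹ =
        ∑ θ ∈ irrF A, (mlt ι χ θ : ℂ) * (θ (κ b) * η b⁻¹) := by
      intro b
      rw [MonoidHom.comp_apply, ClA_sum ι hι χ hχ (κ b), Finset.sum_mul]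
      exact Finset.sum_congr rfl fun θ _ => by ring
    rw [Finset.sum_congr rfl fun b _ => h3 b, Finset.sum_comm, Nat.cast_sum, Finset.sum_mul]
    refine Finset.sum_congr rfl fun θ hθ => ?_
    rw [← Finset.mul_sum, ← ClA_spec κ hκ θ (mem_irrF.1 hθ) η hη]
    push_cast
    ring
  rw [h2] at h1
  exact_mod_cast mul_right_cancel₀ (ClA_cardne B) h1

/-- HINT: `ClA_over` and `ClA_comp` (a sum of natural numbers is not zero iff a term is not zero). -/
theorem ClA_trans {B A G : Type} [Group B] [Fintype B] [Group A] [Fintype A] [Group G] [Fintype G]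
    (κ : B →* A) (hκ : Function.Injective κ) (ι : A →* G) (hι : Function.Injective ι)
    (χ : G → ℂ) (hχ : χ ∈ Irr G) (η : B → ℂ) (hη : η ∈ Irr B) :
    Over (ι.comp κ) χ η ↔ ∃ θ ∈ Irr A, Over ι χ θ ∧ Over κ θ η := by
  rw [ClA_over (ι.comp κ) (hι.comp hκ) χ hχ η hη, ClA_comp κ hκ ι hι χ hχ η hη, Ne,
    Finset.sum_eq_zero_iff]
  push Not
  constructor
  · rintro ⟨θ, hθ, h⟩
    have hθ' := mem_irrF.1 hθ
    refine ⟨θ, hθ', (ClA_over ι hι χ hχ θ hθ').2 fun h0 => h ?_,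
      (ClA_over κ hκ θ hθ' η hη).2 fun h0 => h ?_⟩
    · rw [h0, zero_mul]
    · rw [h0, mul_zero]
  · rintro ⟨θ, hθ, h1, h2⟩
    refine ⟨θ, mem_irrF.2 hθ, mul_ne_zero ?_ ?_⟩
    · exact (ClA_over ι hι χ hχ θ hθ).1 h1
    · exact (ClA_over κ hκ θ hθ η hη).1 h2

end Pool.Agent.KBY
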