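import Pool.Agent.KBY.Defs

/-! The embedding of the group algebra of a normal subgroup. -/

set_option autoImplicit false

namespace Pool.Agent.KBY

open Pool.Agent.KB Pool.Agent.KB.ContrAux Pool.Agent.KBL Pool.Agent.KBZ Pool.Agent.KBU
  Pool.Agent.KBQ

/-- HINT: `up ι z = ∑ a, single (ι a) (z.coeff a)`; compute the coefficient as in `Br_coeff`
(`MonoidAlgebra.coeff_sum`, `Finsupp.finsetSum_apply`, `Finsupp.single_apply`); `ι` is injective. -/
theorem Up_coeff {A G : Type} [Group A] [Fintype A] [Group G] (ι : A →* G)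
    (hι : Function.Injective ι) (z : MonoidAlgebra AInt A) (a : A) :
    (up ι z).coeff (ι a) = z.coeff a := by
  classical
  unfold up
  rw [MonoidAlgebra.coeff_sum, Finsupp.finsetSum_apply]
  simp only [MonoidAlgebra.coeff_single, Finsupp.single_apply]
  rw [Finset.sum_eq_single a]
  · rw [if_pos rfl]
  · intro b _ hb
    exact if_neg fun h => hb (hι h)
  · intro h
    exact absurd (Finset.mem_univ a) h

theorem Up_off {A G : Type} [Group A] [Fintype A] [Group G] (ι : A →* G)
    (z : MonoidAlgebra AInt A) (g : G) (hg : ∀ a, ι a ≠ g) : (up ι z).coeff g = 0 := by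
  classical
  unfold up
  rw [MonoidAlgebra.coeff_sum, Finsupp.finsetSum_apply]
  simp only [MonoidAlgebra.coeff_single, Finsupp.single_apply]
  exact Finset.sum_eq_zero fun a _ => if_neg (hg a)

/-- HINT: `ev` is additive (`Alg_ev_sum`); or: `ev χ (up ι z) = ∑ g, coeff g * χ g`, exchange the
sums. No injectivity is needed. -/
theorem Up_ev {A G : Type} [Group A] [Fintype A] [Group G] [Fintype G] (ι : A →* G) (χ : G → ℂ)
    (z : MonoidAlgebra AInt A) : ev χ (up ι z) = ev (fun a => χ (ι a)) z := by
  classical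
  unfold up
  rw [Alg_ev_sum]
  unfold ev
  refine Finset.sum_congr rfl fun a _ => ?_
  rw [Finset.sum_eq_single (ι a)]
  · rw [MonoidAlgebra.coeff_single, Finsupp.single_apply, if_pos rfl]
  · intro b _ hb
    rw [MonoidAlgebra.coeff_single, Finsupp.single_apply, if_neg (Ne.symm hb)]
    simp
  · intro h
    exact absurd (Finset.mem_univ _) h

private theorem upa_map {A G : Type} [Group A] [Fintype A] [Group G] (ι : A →* G)
    (z : MonoidAlgebra AInt A) :
    up ι z = MonoidAlgebra.mapDomainRingHom AInt ι z := by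
  classical
  have h1 : z = ∑ a : A, MonoidAlgebra.single a (z.coeff a) := by
    apply MonoidAlgebra.coeff_injective
    ext x
    rw [MonoidAlgebra.coeff_sum, Finsupp.finsetSum_apply]
    simp only [MonoidAlgebra.coeff_single, Finsupp.single_apply]
    rw [Finset.sum_ite_eq' Finset.univ x (fun y => z.coeff y), if_pos (Finset.mem_univ _)]
  conv_rhs => rw [h1, map_sum]
  unfold up
  refine Finset.sum_congr rfl fun a _ => ?_
  simp

/-- HINT: both sides are additive in `z` and `w`; `single (ι a) x * single (ι b) y =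
single (ι (a * b)) (x * y)` (`MonoidAlgebra.single_mul_single`). `z = ∑ a, single a (z.coeff a)`. -/
theorem Up_mul {A G : Type} [Group A] [Fintype A] [Group G] (ι : A →* G)
    (z w : MonoidAlgebra AInt A) : up ι (z * w) = up ι z * up ι w := by
  rw [upa_map, upa_map, upa_map, map_mul]

theorem Up_of {A G : Type} [Group A] [Fintype A] [Group G] (ι : A →* G) (a : A) :
    up ι (MonoidAlgebra.of AInt A a) = MonoidAlgebra.of AInt G (ι a) := by
  rw [upa_map]
  simp

/-- An invariant element is central in the group algebra of `A`. HINT: `Nrm.cg_in`. -/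
theorem Up_ctrA {A G : Type} [Group A] [Group G] {ι : A →* G} (h : Nrm ι)
    (z : MonoidAlgebra AInt A) (hz : Inv h z) : Ctr z := by
  intro g x
  rw [← h.cg_in, hz]

/-- The image of an invariant element is central in the group algebra of `G`. HINT: for `x = ι a`:
`g * ι a * g⁻¹ = ι (h.cg g a)`; if `x` is not in the range of `ι` then `g * x * g⁻¹` is not in it. -/
theorem Up_ctr {A G : Type} [Group A] [Fintype A] [Group G] {ι : A →* G} (h : Nrm ι)
    (z : MonoidAlgebra AInt A) (hz : Inv h z) : Ctr (up ι z) := by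
  intro g x
  by_cases hx : ∃ a, ι a = x
  · obtain ⟨a, rfl⟩ := hx
    rw [← h.cg_spec, Up_coeff ι h.inj, Up_coeff ι h.inj, hz]
  · have h1 : ∀ a, ι a ≠ x := fun a ha => hx ⟨a, ha⟩
    rw [Up_off ι z x h1, Up_off]
    intro a ha
    apply hx
    refine ⟨h.cg g⁻¹ a, ?_⟩
    rw [h.cg_spec, ha]
    group

/-- HINT: `h` and `h'` have the same `cg` on `A` up to the map: for `κ : A →* T`, `T ≤ G`, every
`G`-invariant element is `T`-invariant (`Nrm.cg_spec`, injectivity of `ι`). -/
theorem Up_inv_mono {A G K : Type} [Group A] [Group G] [Group K] {ι : A →* G} (h : Nrm ι)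
    {κ : A →* K} (h' : Nrm κ) (j : K →* G) (hj : ∀ a, j (κ a) = ι a)
    (z : MonoidAlgebra AInt A) (hz : Inv h z) : Inv h' z := by
  intro k a
  have h1 : h'.cg k a = h.cg (j k) a := by
    apply h.inj
    rw [h.cg_spec, ← hj, h'.cg_spec, map_mul, map_mul, map_inv, hj]
  rw [h1, hz]

end Pool.Agent.KBY
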