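import Pool.Agent.KBY.BsA
import Pool.Agent.KBY.FRe

/-! The base of the induction from a bound for abelian defect groups. -/

set_option autoImplicit false

namespace Pool.Agent.KBY

open Pool.Agent.KB Pool.Agent.KB.ContrAux Pool.Agent.KBL Pool.Agent.KBZ Pool.Agent.KBU
  Pool.Agent.KBQ

/-- HINT: `D.map κ ≃* D` (`Subgroup.equivMapOfInjective`), and `x ^ p = 1` is preserved. -/
theorem BsB_rank {N K : Type} [Group N] [Group K] (κ : N →* K) (hκ : Function.Injective κ)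
    (D : Subgroup N) (p : ℕ) :
    Nat.card {x : D.map κ // x ^ p = 1} = Nat.card {x : D // x ^ p = 1} := by
  have e := D.equivMapOfInjective κ hκ
  refine (Nat.card_congr (e.toEquiv.subtypeEquiv fun x => ?_)).symm
  constructor
  · intro hx
    have : e x ^ p = 1 := by rw [← map_pow, hx, map_one]
    exact this
  · intro hx
    apply e.injective
    rw [map_pow, map_one]
    exact hx

/-- PROOF. `FRe_main` with `T = StB 𝔪 h θ` gives `κ' : N →* T`, `ψ ∈ Irr T` over `θ` with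
`k(block χ) ≤ k(block ψ)`, `defect ψ ≤ defect χ`. The block of `θ` is `T`-stable (`tw h' t θ = tw h t θ`,
by injectivity, as in `Ctx.tw_eq`; `StB_mem`), and `κ'.range.index` divides `κ.range.index`
(`|K| = |T| * T.index`). `BsA_main` for `T` and `ADB` give `k(block ψ) ≤ C * |D.map κ'| =
C * p ^ defect ψ` (`AbD.card`). -/
theorem BsB_main {N K H : Type} [Group N] [Fintype N] [Group K] [Fintype K] [Group H] [Fintype H]
    {κ : N →* K} (h : Nrm κ) (p : ℕ) (hp : p.Prime) (𝔪 : Ideal AInt) (h𝔪 : 𝔪.IsMaximal)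
    (hp𝔪 : (p : AInt) ∈ 𝔪) (r C : ℕ) (hC : ADB p 𝔪 r C) (χ : K → ℂ) (hχ : χ ∈ Irr K) (θ : N → ℂ)
    (hθ : θ ∈ Irr N) (hov : Over κ χ θ) (hidx : ¬ p ∣ κ.range.index)
    (D : Subgroup N) (ι₀ : H →* N) (ζ : H → ℂ) (hA : AbD p 𝔪 θ D ι₀ ζ)
    (hr : Nat.card {x : D // x ^ p = 1} ≤ p ^ r) :
    (block 𝔪 χ).ncard ≤ C * p ^ defect p (block 𝔪 χ) := by
  obtain ⟨κ', ψ, hκ, hn, hψ, hov', hk, hdef⟩ := FRe_main h p hp 𝔪 h𝔪 hp𝔪 χ hχ θ hθ hov
  letI : Fintype (StB 𝔪 h θ) := Fintype.ofFinite _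
  have htw : ∀ t : StB 𝔪 h θ, tw hn t θ = tw h (t : K) θ := by
    intro t
    funext x
    rw [tw_apply, tw_apply]
    congr 1
    apply h.inj
    rw [h.cg_spec, ← hκ, hn.cg_spec, ← hκ]
    rfl
  have hst : ∀ t : StB 𝔪 h θ, SameBlock 𝔪 θ (tw hn t θ) := by
    intro t
    rw [htw t]
    exact (StB_mem 𝔪 h θ t).1 t.2
  have hidx' : ¬ p ∣ κ'.range.index := by
    intro hdvd
    apply hidx
    have h1 := Subgroup.card_mul_index κ'.range
    have h2 := Subgroup.card_mul_index κ.range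
    have h3 := Subgroup.card_mul_index (StB 𝔪 h θ)
    have h4 : Nat.card κ'.range = Nat.card N :=
      Nat.card_congr (MonoidHom.ofInjective hn.inj).symm.toEquiv
    have h5 : Nat.card κ.range = Nat.card N :=
      Nat.card_congr (MonoidHom.ofInjective h.inj).symm.toEquiv
    have h6 : Nat.card N * κ.range.index = Nat.card N * (κ'.range.index * (StB 𝔪 h θ).index) := by
      rw [← mul_assoc, ← h4, h1, h3, ← h2, h5, h4]
    have h7 : κ.range.index = κ'.range.index * (StB 𝔪 h θ).index :=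
      Nat.eq_of_mul_eq_mul_left Nat.card_pos h6
    rw [h7]
    exact hdvd.trans (dvd_mul_right _ _)
  obtain ⟨H', iG, iF, ι', η, hA'⟩ := BsA_main hn p hp 𝔪 h𝔪 hp𝔪 ψ hψ θ hθ hov' hst hidx' D ι₀ ζ hA
  have h1 := hC (StB 𝔪 h θ) H' ψ (D.map κ') ι' η hψ hA' (by
    rw [BsB_rank κ' hn.inj D p]
    exact hr)
  rw [hA'.card] at h1
  calc (block 𝔪 χ).ncard ≤ (block 𝔪 ψ).ncard := hk
    _ ≤ C * p ^ defect p (block 𝔪 ψ) := h1
    _ ≤ C * p ^ defect p (block 𝔪 χ) :=
      Nat.mul_le_mul_left _ (Nat.pow_le_pow_right hp.pos hdef)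

end Pool.Agent.KBY
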