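import Pool.Agent.KBY.ClB

/-! Clifford: the restriction is a multiple of the sum of an orbit. -/

set_option autoImplicit false

namespace Pool.Agent.KBY

open Pool.Agent.KB Pool.Agent.KB.ContrAux Pool.Agent.KBL Pool.Agent.KBZ Pool.Agent.KBU
  Pool.Agent.KBQ

/-- Orbit and stabilizer. HINT: the fibres of the map `G → O`, `g ↦ tw h g θ` are in bijection with
`{g | tw h g θ = θ}`: if `tw h k θ = θ'` then `tw h g θ = θ'` iff `tw h (g * k⁻¹) θ = θ` (`tw_mul`).
`Nat.card G` is the sum over `θ' ∈ O` of the cardinalities of the fibres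
(`Finset.card_eq_sum_card_fiberwise`). -/
theorem ClC_card {A G : Type} [Group A] [Group G] [Fintype G] {ι : A →* G} (h : Nrm ι)
    (θ : A → ℂ) (O : Finset (A → ℂ)) (hO : ∀ θ', θ' ∈ O ↔ ∃ g, tw h g θ = θ') :
    O.card * Nat.card {g : G // tw h g θ = θ} = Nat.card G := by
  classical
  have h1 : Nat.card G = ∑ θ' ∈ O, (Finset.univ.filter fun g : G => tw h g θ = θ').card := by
    rw [Nat.card_eq_fintype_card, ← Finset.card_univ]
    exact Finset.card_eq_sum_card_fiberwise fun g _ => (hO _).2 ⟨g, rfl⟩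
  have h2 : ∀ θ' ∈ O, (Finset.univ.filter fun g : G => tw h g θ = θ').card =
      Nat.card {g : G // tw h g θ = θ} := by
    intro θ' hθ'
    obtain ⟨k, rfl⟩ := (hO θ').1 hθ'
    rw [Nat.card_eq_fintype_card, Fintype.card_subtype]
    refine Finset.card_bij (fun g _ => g * k⁻¹) ?_ ?_ ?_
    · intro g hg
      rw [Finset.mem_filter] at hg ⊢
      refine ⟨Finset.mem_univ _, ?_⟩
      rw [← tw_mul, hg.2, tw_inv]
    · intro a _ b _ hab
      exact mul_right_cancel hab
    · intro b hb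
      rw [Finset.mem_filter] at hb
      refine ⟨b * k, ?_, mul_inv_cancel_right b k⟩
      rw [Finset.mem_filter]
      exact ⟨Finset.mem_univ _, by rw [← tw_mul, hb.2]⟩
  rw [h1, Finset.sum_congr rfl h2, Finset.sum_const, smul_eq_mul]

/-- HINT: `{g | tw h g θ = θ}` is a subgroup `S` of `G` which contains `ι.range` (`tw_in`). So
`|S| = |ι.range| * (ι.range.relIndex S)` and `|G| = |ι.range| * ι.range.index`; cancel `|ι.range|` in
`ClC_card`. -/
theorem ClC_dvd {A G : Type} [Group A] [Group G] [Fintype G] {ι : A →* G} (h : Nrm ι)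
    (θ : A → ℂ) (hθ : θ ∈ Irr A) (O : Finset (A → ℂ)) (hO : ∀ θ', θ' ∈ O ↔ ∃ g, tw h g θ = θ') :
    O.card ∣ ι.range.index := by
  let S : Subgroup G :=
    { carrier := {g | tw h g θ = θ}
      mul_mem' := by
        intro a b ha hb
        change tw h (a * b) θ = θ
        rw [← tw_mul, show tw h a θ = θ from ha, show tw h b θ = θ from hb]
      one_mem' := tw_one h θ
      inv_mem' := by
        intro a ha
        change tw h a⁻¹ θ = θ
        conv_lhs => rw [← show tw h a θ = θ from ha]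
        exact tw_inv h a θ }
  have hS : Nat.card S = Nat.card {g : G // tw h g θ = θ} := rfl
  have hle : ι.range ≤ S := by
    rintro _ ⟨a, rfl⟩
    exact tw_in h a hθ
  have h1 := ClC_card h θ O hO
  rw [← hS, ← S.index_mul_card] at h1
  have h2 : O.card = S.index := Nat.eq_of_mul_eq_mul_right Nat.card_pos h1
  rw [h2]
  exact Subgroup.index_dvd_of_le hle

/-- HINT: `O` is the image of `Finset.univ` under `g ↦ tw h g θ`. By `ClA_sum`,
`χ (ι a) = ∑ φ ∈ irrF A, mlt ι χ φ * φ a`; for `φ ∉ O` one has `mlt ι χ φ = 0` (`ClB_conj`, `ClA_over`), for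
`φ ∈ O` `mlt ι χ φ = mlt ι χ θ` (`ClB_mlt`). The last statement: `a = 1`, `tw_deg`. -/
theorem ClC_main {A G : Type} [Group A] [Fintype A] [Group G] [Fintype G] {ι : A →* G}
    (h : Nrm ι) (χ : G → ℂ) (hχ : χ ∈ Irr G) (θ : A → ℂ) (hθ : θ ∈ Irr A) (hov : Over ι χ θ) :
    ∃ O : Finset (A → ℂ), (∀ θ', θ' ∈ O ↔ ∃ g, tw h g θ = θ') ∧
      (∀ a, χ (ι a) = (mlt ι χ θ : ℂ) * ∑ θ' ∈ O, θ' a) ∧
      χ 1 = (mlt ι χ θ : ℂ) * (O.card : ℂ) * θ 1 := by
  classical
  refine ⟨Finset.univ.image fun g : G => tw h g θ, ?_, ?_⟩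
  · intro θ'
    simp
  · have key : ∀ a, χ (ι a) = (mlt ι χ θ : ℂ) *
        ∑ θ' ∈ Finset.univ.image (fun g : G => tw h g θ), θ' a := by
      intro a
      rw [ClA_sum ι h.inj χ hχ a, Finset.mul_sum]
      symm
      have hsub : Finset.univ.image (fun g : G => tw h g θ) ⊆ irrF A := by
        intro φ hφ
        obtain ⟨g, -, rfl⟩ := Finset.mem_image.1 hφ
        exact mem_irrF.2 (tw_irr h g hθ)
      rw [← Finset.sum_subset hsub]
      · refine Finset.sum_congr rfl fun φ hφ => ?_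
        obtain ⟨g, -, rfl⟩ := Finset.mem_image.1 hφ
        rw [ClB_mlt h χ hχ θ hθ g]
      · intro φ hφ hφ'
        have hφI := mem_irrF.1 hφ
        have h0 : mlt ι χ φ = 0 := by
          by_contra hcon
          have h1 := (ClA_over ι h.inj χ hχ φ hφI).2 hcon
          obtain ⟨g, hg⟩ := ClB_conj h χ hχ θ φ hθ hφI hov h1
          exact hφ' (Finset.mem_image.2 ⟨g, Finset.mem_univ _, hg⟩)
        rw [h0]
        simp
    refine ⟨key, ?_⟩
    have h1 := key 1
    rw [map_one] at h1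
    rw [h1, mul_assoc]
    congr 1
    rw [← nsmul_eq_mul, ← Finset.sum_const]
    refine Finset.sum_congr rfl fun φ hφ => ?_
    obtain ⟨g, -, rfl⟩ := Finset.mem_image.1 hφ
    exact tw_deg h g θ

end Pool.Agent.KBY
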