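import Pool.Agent.KBY.KeA
import Pool.Agent.KBY.KeB

/-! The bound for abelian defect groups implies the bound for semidirect products. -/

set_option autoImplicit false

namespace Pool.Agent.KBY

open Pool.Agent.KB Pool.Agent.KB.ContrAux Pool.Agent.KBL Pool.Agent.KBZ Pool.Agent.KBU
  Pool.Agent.KBQ

/-- PROOF. Let `G = V ⋊ S`, `ι = SemidirectProduct.inl : V →* G`: normal, `ι.range.index = |S|`, and it is
self-centralizing since the action is faithful. Take any `χ ∈ Irr G` (exists: `Col_main`, or the
trivial character). `KeB_abd`: `AbD p 𝔪 χ ι.range ι' η`; the rank hypothesis of `ADB` holds as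
`|ι.range| = |V| ≤ p ^ r`. So `(block 𝔪 χ).ncard ≤ C |V|`, and the block is `Irr G` (`KeB_one`). By
`KeA_main`, `KeA_cls`, `KeB_cls`: `|V| |Trp S V| = #commuting pairs = |G| #classes ≤ |G| |Irr G| ≤
|V| |S| C |V|`; cancel `|V|`. -/
theorem KeC_main (p : ℕ) (hp : p.Prime) (𝔪 : Ideal AInt) (h𝔪 : 𝔪.IsMaximal)
    (hp𝔪 : (p : AInt) ∈ 𝔪) (r C : ℕ) (hC : ADB p 𝔪 r C) : KVB p r C := by
  classical
  intro V S _ _ _ _ _ _ hV hVr hS
  haveI : Fintype V := Fintype.ofFinite V
  haveI : Fintype S := Fintype.ofFinite S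
  let G : Type := V ⋊[MulDistribMulAction.toMulAut S V] S
  have hcG : Nat.card G = Nat.card V * Nat.card S := by
    rw [← Nat.card_prod]
    exact Nat.card_congr SemidirectProduct.equivProd
  haveI : Finite G := Finite.of_equiv _ (SemidirectProduct.equivProd (φ := MulDistribMulAction.toMulAut S V)).symm
  haveI : Fintype G := Fintype.ofFinite G
  let ι : V →* G := SemidirectProduct.inl
  have hinj : Function.Injective ι := SemidirectProduct.inl_injective
  have hker : ι.range = (SemidirectProduct.rightHom : G →* S).ker :=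
    SemidirectProduct.range_inl_eq_ker_rightHom
  have h : Nrm ι := Nrm.of_range hinj (by rw [hker]; infer_instance)
  have hidx : ι.range.index = Nat.card S := by
    rw [hker, Subgroup.index_ker, MonoidHom.range_eq_top.2 SemidirectProduct.rightHom_surjective]
    exact Nat.card_congr (Equiv.Set.univ S)
  have hself : ∀ g : G, (∀ v, g * ι v = ι v * g) → ∃ v, ι v = g := by
    intro g hg
    have h1 : g.right = 1 := by
      apply FaithfulSMul.eq_of_smul_eq_smul (α := V)
      intro v
      have h2 := congrArg SemidirectProduct.left (hg v)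
      have h3 : g.left * (g.right • v) = v * g.left := by
        have e1 : (g * ι v).left = g.left * (g.right • v) := rfl
        have e2 : (ι v * g).left = v * ((1 : S) • g.left) := rfl
        rw [← e1]
        rw [one_smul] at e2
        rw [← e2, h2]
      rw [one_smul]
      rw [mul_comm v] at h3
      exact mul_left_cancel h3
    refine ⟨g.left, ?_⟩
    apply SemidirectProduct.ext
    · rfl
    · exact h1.symm
  have hne : (Irr G).Nonempty := by
    have h1 := KeB_cls G
    have h2 : 0 < Nat.card (ConjClasses G) := Nat.card_pos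
    by_contra hcon
    rw [Set.not_nonempty_iff_eq_empty] at hcon
    rw [hcon, Set.ncard_empty] at h1
    omega
  obtain ⟨χ, hχ⟩ := hne
  have hidx' : ¬ p ∣ ι.range.index := by
    rw [hidx]
    exact hS
  obtain ⟨H, _, _, ι', η, hA⟩ := KeB_abd h p hp 𝔪 h𝔪 hp𝔪 hV hidx' χ hχ
  have hcr : Nat.card ι.range = Nat.card V :=
    Nat.card_congr (MonoidHom.ofInjective hinj).toEquiv.symm
  have h1 : (block 𝔪 χ).ncard ≤ C * Nat.card V := by
    rw [← hcr]
    refine hC G H χ ι.range ι' η hχ hA (le_trans ?_ hVr)
    rw [← hcr]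
    exact Nat.card_le_card_of_injective _ Subtype.val_injective
  have h2 : block 𝔪 χ = Irr G := by
    ext χ'
    exact ⟨fun hx => hx.1, fun hx => KeB_one h p hp 𝔪 h𝔪 hp𝔪 hV hidx' hself χ χ' hχ hx⟩
  rw [h2] at h1
  have h3 := KeB_cls G
  have h4 : Nat.card {x : G × G // x.1 * x.2 = x.2 * x.1} = Nat.card V * Nat.card (Trp S V) :=
    KeA_main p hp V S hV hS
  have h5 : Nat.card {x : G × G // x.1 * x.2 = x.2 * x.1} = Nat.card (ConjClasses G) * Nat.card G :=
    KeA_cls G
  have h6 : Nat.card V * Nat.card (Trp S V) ≤ Nat.card V * (C * Nat.card S * Nat.card V) := by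
    rw [← h4, h5, hcG]
    calc Nat.card (ConjClasses G) * (Nat.card V * Nat.card S)
        ≤ (C * Nat.card V) * (Nat.card V * Nat.card S) := Nat.mul_le_mul_right _ (h3.trans h1)
      _ = Nat.card V * (C * Nat.card S * Nat.card V) := by ring
  exact Nat.le_of_mul_le_mul_left h6 Nat.card_pos

end Pool.Agent.KBY
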