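import Pool.Agent.KBY.DefsB
import Pool.Agent.KBY.DfL
import Pool.Agent.KBY.DfT
import Pool.Agent.KBQ.Sup
import Pool.Agent.KBQ.Abl

/-! Blocks over a stable block with an abelian defect group, of a normal subgroup of index prime to `p`. -/

set_option autoImplicit false

namespace Pool.Agent.KBY

open Pool.Agent.KB Pool.Agent.KB.ContrAux Pool.Agent.KBL Pool.Agent.KBZ Pool.Agent.KBU
  Pool.Agent.KBQ

/-- PROOF. `defect χ = defect θ =: d` (`DfL_main`, `DfT_main`), `|D| = p ^ d`. Let `P` be from `Dgp_main`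
for `χ`: `|P| = p ^ d` and every `x` with `¬ InM (omega χ x)` is conjugate to an element which commutes
with `P`. `Sup_syl` for `hA` gives `x₀ : H` with `¬ InM (omega θ (ι₀ x₀))` and `v|C_N(ι₀ x₀)| = d`; put
`y = ι₀ x₀`. By `DfL_omega`: `¬ InM (omega χ (κ y))` and `v|C_K(κ y)| = d`. So there is `c` with
`c * κ y * c⁻¹` commuting with `P`; let `Q = c⁻¹ P c` (a subgroup of order `p ^ d`), which commutes with
`κ y`. `D' = D.map κ` is a `p`-subgroup of order `p ^ d` which commutes with `κ y` (`hA.cen.com`).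
`Sup_sylow` with `P := D'`, `S := Q`, `x := κ y` gives `e` with `e s e⁻¹ ∈ D'` for all `s ∈ Q`: so
`e Q e⁻¹ = D'` (same order). Hence every `x` with `¬ InM (omega χ x)` is conjugate to an element which
commutes with `D'`. -/
theorem BsA_dgp {N K H : Type} [Group N] [Fintype N] [Group K] [Fintype K] [Group H] [Fintype H]
    {κ : N →* K} (h : Nrm κ) (p : ℕ) (hp : p.Prime) (𝔪 : Ideal AInt) (h𝔪 : 𝔪.IsMaximal)
    (hp𝔪 : (p : AInt) ∈ 𝔪) (χ : K → ℂ) (hχ : χ ∈ Irr K) (θ : N → ℂ) (hθ : θ ∈ Irr N)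
    (hov : Over κ χ θ) (hst : ∀ g : K, SameBlock 𝔪 θ (tw h g θ)) (hidx : ¬ p ∣ κ.range.index)
    (D : Subgroup N) (ι₀ : H →* N) (ζ : H → ℂ) (hA : AbD p 𝔪 θ D ι₀ ζ) :
    ∀ x : K, ¬ InM 𝔪 (omega χ x) → ∃ a : K, IsConj x a ∧ ∀ u ∈ D.map κ, u * a = a * u := by
  have hd : defect p (block 𝔪 χ) = defect p (block 𝔪 θ) :=
    le_antisymm (DfL_main h p hp 𝔪 h𝔪 hp𝔪 χ hχ θ hθ hov hst hidx)
      (DfT_main h p hp 𝔪 h𝔪 hp𝔪 χ hχ θ hθ hov hst hidx)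
  obtain ⟨P, hPg, hPc, hPx⟩ := Dgp_main p hp 𝔪 h𝔪 hp𝔪 χ hχ
  obtain ⟨x₀, hx1, -, hx3⟩ := Sup_syl p hp 𝔪 h𝔪 hp𝔪 ι₀ ζ θ hA.irr hθ hA.ind D hA.pg
    (fun g hg y => hA.cen.com y hg) hA.card
  obtain ⟨hy1, hy2⟩ := DfL_omega h p hp 𝔪 h𝔪 hp𝔪 χ hχ θ hθ hov hst hidx (ι₀ x₀) hx1
  obtain ⟨a, ha, haP⟩ := hPx _ hy1
  obtain ⟨c, hc⟩ := isConj_iff.1 ha
  -- `Q = c⁻¹ P c`
  obtain ⟨Q, hQm⟩ : ∃ Q : Subgroup K, Q = P.comap (MulAut.conj c).toMonoidHom := ⟨_, rfl⟩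
  have hQ : ∀ s, s ∈ Q ↔ c * s * c⁻¹ ∈ P := by
    intro s
    rw [hQm, Subgroup.mem_comap]
    simp
  have hQp : IsPGroup p Q := by
    rw [hQm]
    exact hPg.comap_of_injective _ (MulAut.conj c).injective
  have hQy : ∀ g ∈ Q, g * κ (ι₀ x₀) = κ (ι₀ x₀) * g := by
    intro g hg
    have h1 := haP _ ((hQ g).1 hg)
    rw [← hc] at h1
    have e1 : c * g * c⁻¹ * (c * κ (ι₀ x₀) * c⁻¹) = c * (g * κ (ι₀ x₀)) * c⁻¹ := by group
    have e2 : c * κ (ι₀ x₀) * c⁻¹ * (c * g * c⁻¹) = c * (κ (ι₀ x₀) * g) * c⁻¹ := by group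
    rw [e1, e2] at h1
    exact mul_left_cancel (mul_right_cancel h1)
  have hDp : IsPGroup p (D.map κ) := hA.pg.map κ
  have hDc : Nat.card (D.map κ) = Nat.card D :=
    Nat.card_congr (D.equivMapOfInjective κ h.inj).symm.toEquiv
  have hDy : ∀ g ∈ D.map κ, g * κ (ι₀ x₀) = κ (ι₀ x₀) * g := by
    rintro _ ⟨u, hu, rfl⟩
    rw [← map_mul, hA.cen.com x₀ hu, map_mul]
  have hDcard : Nat.card (D.map κ) =
      p ^ padicValNat p (Nat.card (Subgroup.centralizer {κ (ι₀ x₀)} : Subgroup K)) := by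
    rw [hDc, hA.card, hy2, hx3]
  obtain ⟨e, -, he⟩ := Sup_sylow p hp (D.map κ) hDp (κ (ι₀ x₀)) hDy hDcard Q hQp hQy
  have hQcard : Nat.card Q = Nat.card P := by
    refine Nat.card_congr ⟨fun s => ⟨c * s * c⁻¹, (hQ s).1 s.2⟩,
      fun t => ⟨c⁻¹ * t * c, (hQ _).2 ?_⟩, fun s => ?_, fun t => ?_⟩
    · have : c * (c⁻¹ * (t : K) * c) * c⁻¹ = t := by group
      rw [this]
      exact t.2
    · apply Subtype.ext
      simp only
      group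
    · apply Subtype.ext
      simp only
      group
  have hsurj : ∀ u ∈ D.map κ, ∃ s ∈ Q, e * s * e⁻¹ = u := by
    let F : Q → (D.map κ : Subgroup K) := fun s => ⟨e * s * e⁻¹, he s s.2⟩
    have hF : Function.Injective F := by
      intro s t hst
      have h1 : e * (s : K) * e⁻¹ = e * t * e⁻¹ := congrArg Subtype.val hst
      exact Subtype.ext (mul_left_cancel (mul_right_cancel h1))
    have hcards : Nat.card Q = Nat.card (D.map κ) := by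
      rw [hQcard, hPc, hDc, hA.card, hd]
    have hb : Function.Bijective F := by
      rw [Nat.bijective_iff_injective_and_card]
      exact ⟨hF, hcards⟩
    intro u hu
    obtain ⟨s, hs⟩ := hb.2 ⟨u, hu⟩
    exact ⟨s, s.2, congrArg Subtype.val hs⟩
  intro x hx
  obtain ⟨b, hb, hbP⟩ := hPx x hx
  refine ⟨e * (c⁻¹ * b * c) * e⁻¹, ?_, ?_⟩
  · refine hb.trans (isConj_iff.2 ⟨e * c⁻¹, ?_⟩)
    group
  · intro u hu
    obtain ⟨s, hs, rfl⟩ := hsurj u hu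
    have h1 := hbP _ ((hQ s).1 hs)
    have e1 : e * s * e⁻¹ * (e * (c⁻¹ * b * c) * e⁻¹) =
        e * c⁻¹ * (c * s * c⁻¹ * b) * (c * e⁻¹) := by group
    have e2 : e * (c⁻¹ * b * c) * e⁻¹ * (e * s * e⁻¹) =
        e * c⁻¹ * (b * (c * s * c⁻¹)) * (c * e⁻¹) := by group
    rw [e1, e2, h1]

/-- HINT: `Ext_main` with `D := D.map κ`, `ι` the inclusion of the centralizer `C` of `D.map κ` in `K`
(`Fintype.ofFinite`), and `BsA_dgp`, gives `η ∈ Irr C` with `Ind 𝔪 C.subtype η χ`. The order: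
`|D.map κ| = |D| = p ^ defect θ = p ^ defect χ`. -/
theorem BsA_main {N K H : Type} [Group N] [Fintype N] [Group K] [Fintype K] [Group H] [Fintype H]
    {κ : N →* K} (h : Nrm κ) (p : ℕ) (hp : p.Prime) (𝔪 : Ideal AInt) (h𝔪 : 𝔪.IsMaximal)
    (hp𝔪 : (p : AInt) ∈ 𝔪) (χ : K → ℂ) (hχ : χ ∈ Irr K) (θ : N → ℂ) (hθ : θ ∈ Irr N)
    (hov : Over κ χ θ) (hst : ∀ g : K, SameBlock 𝔪 θ (tw h g θ)) (hidx : ¬ p ∣ κ.range.index)
    (D : Subgroup N) (ι₀ : H →* N) (ζ : H → ℂ) (hA : AbD p 𝔪 θ D ι₀ ζ) :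
    ∃ (H' : Type) (_ : Group H') (_ : Fintype H') (ι' : H' →* K) (η : H' → ℂ),
      AbD p 𝔪 χ (D.map κ) ι' η := by
  have hd : defect p (block 𝔪 χ) = defect p (block 𝔪 θ) :=
    le_antisymm (DfL_main h p hp 𝔪 h𝔪 hp𝔪 χ hχ θ hθ hov hst hidx)
      (DfT_main h p hp 𝔪 h𝔪 hp𝔪 χ hχ θ hθ hov hst hidx)
  have hDc : Nat.card (D.map κ) = Nat.card D :=
    Nat.card_congr (D.equivMapOfInjective κ h.inj).symm.toEquiv
  let C : Subgroup K := Subgroup.centralizer (D.map κ : Set K)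
  letI : Fintype C := Fintype.ofFinite C
  have hr : ∀ x : K, (∃ y : C, C.subtype y = x) ↔ ∀ g ∈ D.map κ, g * x = x * g := by
    intro x
    constructor
    · rintro ⟨y, rfl⟩ g hg
      exact Subgroup.mem_centralizer_iff.1 y.2 g hg
    · intro hx
      exact ⟨⟨x, Subgroup.mem_centralizer_iff.2 hx⟩, rfl⟩
  obtain ⟨η, hη, hind⟩ := Ext_main p hp 𝔪 h𝔪 hp𝔪 (D.map κ) (hA.pg.map κ) C.subtype
    (Subgroup.subtype_injective C) hr χ hχ
    (BsA_dgp h p hp 𝔪 h𝔪 hp𝔪 χ hχ θ hθ hov hst hidx D ι₀ ζ hA)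
  refine ⟨C, inferInstance, inferInstance, C.subtype, η, ?_⟩
  constructor
  · exact hA.pg.map κ
  · rw [hDc, hA.card, hd]
  · rintro _ ⟨a, ha, rfl⟩ _ ⟨b, hb, rfl⟩
    rw [← map_mul, hA.com a ha b hb, map_mul]
  · exact ⟨Subgroup.subtype_injective C, hr⟩
  · exact hη
  · exact hind

end Pool.Agent.KBY
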