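import Pool.Agent.KBY.Defs

/-! Counting in the stabilizers. -/

set_option autoImplicit false

namespace Pool.Agent.KBY

open Pool.Agent.KB Pool.Agent.KB.ContrAux Pool.Agent.KBL Pool.Agent.KBZ Pool.Agent.KBU
  Pool.Agent.KBQ

/-- `ExS` is a subgroup. HINT: as for `Stb`; `D.map ι` and the homomorphism `ι.comp ι₀`; for the product
one needs that `g * ι (ι₀ x) * g⁻¹` is in the range of `ι.comp ι₀` for `g` normalizing `D.map ι`, which
holds as the range of `ι` is normal and `ι₀` is onto the centralizer of `D`. -/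
theorem UCnt_sub {H N G : Type} [Group H] [Group N] [Group G] (𝔪 : Ideal AInt) {ι : N →* G}
    (h : Nrm ι) (D : Subgroup N) (ι₀ : H →* N) (h₀ : CenOf ι₀ D) (ζ : H → ℂ) :
    ∃ S : Subgroup G, ∀ g, g ∈ S ↔ g ∈ ExS 𝔪 ι D ι₀ ζ := by
  have hinj : Function.Injective (ι.comp ι₀) := h.inj.comp h₀.inj
  have hex : ∀ b : G, (∀ x : G, x ∈ D.map ι ↔ b * x * b⁻¹ ∈ D.map ι) → ∀ x₁ : H,
      ∃ y, ι.comp ι₀ y = b * ι.comp ι₀ x₁ * b⁻¹ := by
    intro b hb x₁
    have h1 : ∃ y, ι₀ y = h.cg b (ι₀ x₁) := by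
      refine (h₀.ran _).2 fun g hg => ?_
      have h2 : b⁻¹ * ι g * b ∈ D.map ι := by
        rw [hb]
        have e1 : b * (b⁻¹ * ι g * b) * b⁻¹ = ι g := by group
        rw [e1]
        exact ⟨g, hg, rfl⟩
      obtain ⟨d, hd, hd'⟩ := h2
      have h3 : ι d * ι (ι₀ x₁) = ι (ι₀ x₁) * ι d := by
        rw [← map_mul, ← map_mul, h₀.com x₁ hd]
      apply h.inj
      rw [map_mul, map_mul, h.cg_spec]
      rw [hd'] at h3
      have e2 : ι g * (b * ι (ι₀ x₁) * b⁻¹) = b * ((b⁻¹ * ι g * b) * ι (ι₀ x₁)) * b⁻¹ := by group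
      rw [e2, h3]
      group
    obtain ⟨y, hy⟩ := h1
    refine ⟨y, ?_⟩
    rw [MonoidHom.comp_apply, hy, h.cg_spec]
    rfl
  refine ⟨{ carrier := ExS 𝔪 ι D ι₀ ζ, mul_mem' := ?_, one_mem' := ?_, inv_mem' := ?_ },
    fun g => Iff.rfl⟩
  · rintro a b ⟨ha, ha'⟩ ⟨hb, hb'⟩
    refine ⟨fun x => ?_, fun x₁ x₂ hx => ?_⟩
    · rw [hb x, ha (b * x * b⁻¹)]
      have : a * (b * x * b⁻¹) * a⁻¹ = a * b * x * (a * b)⁻¹ := by group
      rw [this]
    · obtain ⟨y, hy⟩ := hex b hb x₁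
      have h1 := hb' x₁ y hy.symm
      have h2 := ha' y x₂ (by rw [hy, ← hx]; group)
      have h3 := InM_add h1 h2
      rwa [sub_add_sub_cancel] at h3
  · refine ⟨fun x => by simp, fun x₁ x₂ hx => ?_⟩
    have : x₁ = x₂ := hinj (by simpa using hx)
    rw [this, sub_self]
    exact InM_zero 𝔪
  · rintro a ⟨ha, ha'⟩
    refine ⟨fun x => ?_, fun x₁ x₂ hx => ?_⟩
    · rw [ha (a⁻¹ * x * a⁻¹⁻¹)]
      have : a * (a⁻¹ * x * a⁻¹⁻¹) * a⁻¹ = x := by group
      rw [this]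
    · have h1 := ha' x₂ x₁ (by rw [← hx]; group)
      have h2 := InM_sub (InM_zero 𝔪) h1
      rwa [zero_sub, neg_sub] at h2

/-- Pure group theory. `C`, `R` are subgroups of `K`, all elements of `C` commute with `u`; every
element of `S` is in `C R`. PROOF. Let `Q` be the set of the elements of `C` in `R` and
`P` the subgroup of the elements of `R` which commute with `u` (`Q ⊆ P`). The map
`C × P → C P` is onto the set of the elements of `C R` which commute with `u` (if `c r` commutes with `u`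
then `r` does), with fibres of order `|Q|` (`(c q, q⁻¹ r)`), so `|{k ∈ S, k u = u k}| * |Q| ≤ |C| |P|`. -/
theorem UCnt_prod {K : Type} [Group K] [Finite K] (C R S : Subgroup K) (u : K)
    (hCu : ∀ c ∈ C, c * u = u * c) (hS : ∀ k ∈ S, ∃ c ∈ C, c * k ∈ R) :
    Nat.card {k : K // k ∈ S ∧ k * u = u * k} * Nat.card {k : K // k ∈ C ∧ k ∈ R} ≤
      Nat.card C * Nat.card {k : K // k ∈ R ∧ k * u = u * k} := by
  classical
  choose! c hcC hcR using hS
  have hf : Function.Injective (fun y : {k : K // k ∈ S ∧ k * u = u * k} ×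
      {k : K // k ∈ C ∧ k ∈ R} =>
      ((⟨(c y.1.1)⁻¹ * y.2.1, C.mul_mem (C.inv_mem (hcC _ y.1.2.1)) y.2.2.1⟩,
        ⟨y.2.1⁻¹ * (c y.1.1 * y.1.1), R.mul_mem (R.inv_mem y.2.2.2) (hcR _ y.1.2.1), by
          have h1 : Commute y.2.1 u := hCu _ y.2.2.1
          have h2 : Commute (c y.1.1) u := hCu _ (hcC _ y.1.2.1)
          have h3 : Commute y.1.1 u := y.1.2.2
          exact h1.inv_left.mul_left (h2.mul_left h3)⟩) :
        C × {k : K // k ∈ R ∧ k * u = u * k})) := by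
    intro y z hyz
    have e1 : (c y.1.1)⁻¹ * y.2.1 = (c z.1.1)⁻¹ * z.2.1 :=
      congrArg (fun w : C × {k : K // k ∈ R ∧ k * u = u * k} => (w.1 : K)) hyz
    have e2 : y.2.1⁻¹ * (c y.1.1 * y.1.1) = z.2.1⁻¹ * (c z.1.1 * z.1.1) :=
      congrArg (fun w : C × {k : K // k ∈ R ∧ k * u = u * k} => (w.2 : K)) hyz
    have e3 : y.1.1 = z.1.1 := by
      calc y.1.1 = ((c y.1.1)⁻¹ * y.2.1) * (y.2.1⁻¹ * (c y.1.1 * y.1.1)) := by group
        _ = ((c z.1.1)⁻¹ * z.2.1) * (z.2.1⁻¹ * (c z.1.1 * z.1.1)) := by rw [e1, e2]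
        _ = z.1.1 := by group
    have e4 : y.2.1 = z.2.1 := by
      rw [e3] at e1
      exact mul_left_cancel e1
    exact Prod.ext (Subtype.ext e3) (Subtype.ext e4)
  have h1 := Nat.card_le_card_of_injective _ hf
  rwa [Nat.card_prod, Nat.card_prod] at h1

/-- Pure group theory. PROOF. `f` maps `P` into `P'` and `Q = P ∩ f⁻¹ Q'`, so `P / Q` embeds in `P' / Q'`
(cosets): `|P| / |Q| ≤ |P'| / |Q'|`. -/
theorem UCnt_quot {K G : Type} [Group K] [Finite K] [Group G] [Finite G] (f : K →* G)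
    (P Q : Subgroup K) (P' Q' : Subgroup G) (hQP : Q ≤ P) (hQP' : Q' ≤ P')
    (hP : ∀ k ∈ P, f k ∈ P') (hQ : ∀ k ∈ P, k ∈ Q ↔ f k ∈ Q') :
    Nat.card P * Nat.card Q' ≤ Nat.card P' * Nat.card Q := by
  have h1 : Q.relIndex P = (Q'.comap f).relIndex P := by
    rw [Subgroup.relIndex, Subgroup.relIndex]
    congr 1
    ext x
    rw [Subgroup.mem_subgroupOf, Subgroup.mem_subgroupOf, Subgroup.mem_comap]
    exact hQ x.1 x.2
  have h2 : (Q'.comap f).relIndex P ≤ Q'.relIndex P' := by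
    rw [Subgroup.relIndex_comap]
    refine Subgroup.relIndex_le_of_le_right ?_ ?_
    · rintro _ ⟨x, hx, rfl⟩
      exact hP x hx
    · exact Subgroup.index_ne_zero_of_finite
  have h3 : Nat.card Q * Q.relIndex P = Nat.card P := by
    rw [Subgroup.relIndex, ← Nat.card_congr (Subgroup.subgroupOfEquivOfLe hQP).toEquiv]
    exact Subgroup.card_mul_index _
  have h4 : Nat.card Q' * Q'.relIndex P' = Nat.card P' := by
    rw [Subgroup.relIndex, ← Nat.card_congr (Subgroup.subgroupOfEquivOfLe hQP').toEquiv]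
    exact Subgroup.card_mul_index _
  calc Nat.card P * Nat.card Q' = Nat.card Q * Nat.card Q' * Q.relIndex P := by rw [← h3]; ring
    _ ≤ Nat.card Q * Nat.card Q' * Q'.relIndex P' := Nat.mul_le_mul_left _ (h1.trans_le h2)
    _ = Nat.card P' * Nat.card Q := by rw [← h4]; ring

end Pool.Agent.KBY
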