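import Pool.Agent.KBY.UFra
import Pool.Agent.KBY.UCnt
import Pool.Agent.KBY.BsA
import Pool.Agent.KBY.BsB
import Pool.Agent.KBY.FRe
import Pool.Agent.KBQ.KY

/-! The base of the induction with an element of the defect group with small centralizer. -/

set_option autoImplicit false

namespace Pool.Agent.KBY

open Pool.Agent.KB Pool.Agent.KB.ContrAux Pool.Agent.KBL Pool.Agent.KBZ Pool.Agent.KBU
  Pool.Agent.KBQ

/-- The case of a stable block. Here `j : K →* G` is injective, `j ∘ κ = ι`.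
PROOF. `BsA_main`: `H'`, `ι'`, `η` with `AbD p 𝔪 χ (D.map κ) ι' η`; `UCov_nrm`: `l`. `ClA_ex l` for `η`: `ζ₁ ∈ Irr H`
under `η`. `UCov_main`: `Ind 𝔪 ι₀ ζ₁ θ`. `Pcj_same` (for `N`, `D`, `ι₀`, `ζ`, `ζ₁`): `n : N` normalizing `D` with
`Cj 𝔪 n ι₀ ζ ι₀ ζ₁`. Put `u₁ = n * u * n⁻¹ ∈ D`. We want to apply `KY_main` to `χ`, `D.map κ`, `ι'`, `η` with the
element `κ u₁` and `e`: need `#{k ∈ Stb 𝔪 _ η, k (κ u₁) = (κ u₁) k} ≤ e * |H'|`.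
Let `C = ι'.range` (the centralizer of `D.map κ`), `R` the subgroup `ExS 𝔪 κ D ι₀ ζ₁` of `K` (`UCnt_sub`),
`S = Stb 𝔪 _ η`. `UFra_main` gives the hypothesis of `UCnt_prod`; so
`#{k ∈ S, k u₁ = u₁ k} * |C ∩ R| ≤ |H'| * |P|`, `P = {k ∈ R, k (κ u₁) = (κ u₁) k}`, `Q = C ∩ R ≤ P`.
`f : K →* G`, `f k = ι(n)⁻¹ * j k * ι(n)`. `P'` = `{g ∈ ExS 𝔪 ι D ι₀ ζ, g (ι u) = (ι u) g}`,
`Q'` = `{g ∈ ExS 𝔪 ι D ι₀ ζ, g commutes with D.map ι}`. For `k ∈ R`: `f k ∈ ExS 𝔪 ι D ι₀ ζ`: it normalizes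
`D.map ι` (`n` normalizes `D`), and `f k` carries `ι (ι₀ x₁)` to `ι (ι₀ x₂)` iff `k` carries `κ (ι₀ x₁')` to
`κ (ι₀ x₂')` with `ι₀ x_i' = n (ι₀ x_i) n⁻¹`, and `omega ζ x_i ≡ omega ζ₁ x_i'` by the choice of `n`. `k` commutes
with `κ u₁` iff `f k` commutes with `ι u`; `k ∈ C` iff `f k` commutes with `D.map ι` (`n` normalizes `D`).
`UCnt_quot`: `|P| * |Q'| ≤ |P'| * |Q|`, with `hu`: `|P'| ≤ e * |Q'|` so `|P| ≤ e * |Q|` (cancel `|Q'| > 0`).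
So `#{...} * |Q| ≤ |H'| * e * |Q|`; cancel `|Q| > 0`. -/
theorem UFin_stable {N K G H : Type} [Group N] [Fintype N] [Group K] [Fintype K] [Group G]
    [Fintype G] [Group H] [Fintype H] {κ : N →* K} (h : Nrm κ) {ι : N →* G} (hG : Nrm ι)
    (j : K →* G) (hj : Function.Injective j) (hjκ : ∀ x, j (κ x) = ι x) (p : ℕ) (hp : p.Prime)
    (𝔪 : Ideal AInt) (h𝔪 : 𝔪.IsMaximal) (hp𝔪 : (p : AInt) ∈ 𝔪) (χ : K → ℂ) (hχ : χ ∈ Irr K)
    (θ : N → ℂ) (hθ : θ ∈ Irr N) (hov : Over κ χ θ) (hst : ∀ g : K, SameBlock 𝔪 θ (tw h g θ))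
    (hidx : ¬ p ∣ κ.range.index) (D : Subgroup N) (ι₀ : H →* N) (ζ : H → ℂ)
    (hA : AbD p 𝔪 θ D ι₀ ζ) (u : N) (hu : u ∈ D) (e : ℕ)
    (he : Nat.card {g : G // g ∈ ExS 𝔪 ι D ι₀ ζ ∧ g * ι u = ι u * g} ≤
      e * Nat.card {g : G // g ∈ ExS 𝔪 ι D ι₀ ζ ∧ ∀ x ∈ D, g * ι x = ι x * g})
    (hpe : 12 * e ≤ p + 1) :
    (block 𝔪 χ).ncard ≤ p ^ defect p (block 𝔪 χ) := by
  classical
  obtain ⟨H', i1, i2, ι', η, hB⟩ := BsA_main h p hp 𝔪 h𝔪 hp𝔪 χ hχ θ hθ hov hst hidx D ι₀ ζ hA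
  obtain ⟨l, hll, hl⟩ := UCov_nrm h D ι₀ hA.cen ι' hB.cen
  obtain ⟨ζ₁, hζ₁, hov1⟩ := ClA_ex l hl.inj η hB.irr
  have hI := UCov_main h p hp 𝔪 h𝔪 hp𝔪 χ hχ θ hθ hov hst D hA.pg ι₀ hA.cen ι' η hB l hl hll ζ₁
    hζ₁ hov1
  obtain ⟨n, hn1, hn2⟩ := Pcj_same p hp 𝔪 h𝔪 hp𝔪 θ hθ D hA.pg hA.card ι₀ hA.cen ζ ζ₁ hA.irr hζ₁
    hA.ind hI
  have hu1 : n * u * n⁻¹ ∈ D := (hn1 u).1 hu
  obtain ⟨R, hR⟩ := UCnt_sub 𝔪 h D ι₀ hA.cen ζ₁
  obtain ⟨R', hR'⟩ := UCnt_sub 𝔪 hG D ι₀ hA.cen ζ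
  obtain ⟨f, hf⟩ : ∃ f : K →* G, ∀ k, f k = (ι n)⁻¹ * j k * ι n :=
    ⟨(MulAut.conj (ι n)⁻¹).toMonoidHom.comp j, fun k => by simp⟩
  have hιn : ∀ y : N, ι (n * y * n⁻¹) = ι n * ι y * (ι n)⁻¹ := fun y => by
    rw [map_mul, map_mul, map_inv]
  -- the action on `D.map ι`
  have hA1 : ∀ k : K, (∀ x : K, x ∈ D.map κ → k * x * k⁻¹ ∈ D.map κ) →
      ∀ x ∈ D.map ι, f k * x * (f k)⁻¹ ∈ D.map ι := by
    rintro k hk _ ⟨d, hd, rfl⟩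
    obtain ⟨d', hd', hd''⟩ := hk (κ (n * d * n⁻¹)) (Subgroup.mem_map_of_mem κ ((hn1 d).1 hd))
    have h1 : n⁻¹ * d' * n ∈ D := by
      rw [hn1]
      have : n * (n⁻¹ * d' * n) * n⁻¹ = d' := by group
      rw [this]
      exact hd'
    refine ⟨n⁻¹ * d' * n, h1, ?_⟩
    have h2 : ι d' = j k * (ι n * ι d * (ι n)⁻¹) * (j k)⁻¹ := by
      rw [← hjκ, hd'', map_mul, map_mul, map_inv, hjκ, hιn]
    rw [map_mul, map_mul, map_inv, h2, hf]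
    group
  have hA2 : ∀ k : K, (∀ x : K, x ∈ D.map κ ↔ k * x * k⁻¹ ∈ D.map κ) →
      ∀ x : G, x ∈ D.map ι ↔ f k * x * (f k)⁻¹ ∈ D.map ι := by
    intro k hk x
    constructor
    · exact hA1 k (fun x hx => (hk x).1 hx) x
    · intro hx
      have h1 := hA1 k⁻¹ (fun y hy => by
        rw [hk]
        have : k * (k⁻¹ * y * k⁻¹⁻¹) * k⁻¹ = y := by group
        rwa [this]) _ hx
      have h2 : f k⁻¹ * (f k * x * (f k)⁻¹) * (f k⁻¹)⁻¹ = x := by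
        rw [map_inv]
        group
      rwa [h2] at h1
  have hmem : ∀ k ∈ R, f k ∈ R' := by
    intro k hk
    rw [hR] at hk
    rw [hR']
    refine ⟨hA2 k hk.1, ?_⟩
    intro x₁ x₂ hx
    obtain ⟨y₁, hy₁⟩ := hA.cen.nrm hn1 x₁
    obtain ⟨y₂, hy₂⟩ := hA.cen.nrm hn1 x₂
    have h1 : k * (κ.comp ι₀) y₁ * k⁻¹ = (κ.comp ι₀) y₂ := by
      apply hj
      rw [MonoidHom.comp_apply, MonoidHom.comp_apply, map_mul, map_mul, map_inv, hjκ, hjκ, hy₁, hy₂,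
        hιn, hιn]
      rw [MonoidHom.comp_apply, MonoidHom.comp_apply, hf] at hx
      rw [← hx]
      group
    have h2 := hk.2 y₁ y₂ h1
    have h3 := hn2 x₁ y₁ hy₁.symm
    have h4 := hn2 x₂ y₂ hy₂.symm
    have h5 := InM_sub (InM_add h3 h2) h4
    have h6 : omega ζ x₁ - omega ζ₁ y₁ + (omega ζ₁ y₁ - omega ζ₁ y₂) - (omega ζ x₂ - omega ζ₁ y₂) =
        omega ζ x₁ - omega ζ x₂ := by ring
    rwa [h6] at h5
  -- commuting
  have hcomm : ∀ (k : K) (y : N), (f k * ι y = ι y * f k ↔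
      k * κ (n * y * n⁻¹) = κ (n * y * n⁻¹) * k) := by
    intro k y
    have h1 : k * κ (n * y * n⁻¹) = κ (n * y * n⁻¹) * k ↔
        j k * (ι n * ι y * (ι n)⁻¹) = (ι n * ι y * (ι n)⁻¹) * j k := by
      constructor
      · intro h2
        have h3 := congrArg j h2
        rwa [map_mul j, map_mul j, hjκ, hιn] at h3
      · intro h2
        apply hj
        rw [map_mul j, map_mul j, hjκ, hιn]
        exact h2
    rw [h1, hf]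
    constructor
    · intro h2
      calc j k * (ι n * ι y * (ι n)⁻¹) =
            ι n * ((ι n)⁻¹ * j k * ι n * ι y) * (ι n)⁻¹ := by group
        _ = ι n * (ι y * ((ι n)⁻¹ * j k * ι n)) * (ι n)⁻¹ := by rw [h2]
        _ = (ι n * ι y * (ι n)⁻¹) * j k := by group
    · intro h2
      calc (ι n)⁻¹ * j k * ι n * ι y =
            (ι n)⁻¹ * (j k * (ι n * ι y * (ι n)⁻¹)) * ι n := by group
        _ = (ι n)⁻¹ * ((ι n * ι y * (ι n)⁻¹) * j k) * ι n := by rw [h2]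
        _ = ι y * ((ι n)⁻¹ * j k * ι n) := by group
  obtain ⟨P, hP⟩ : ∃ P : Subgroup K, ∀ k, k ∈ P ↔ k ∈ R ∧ k * κ (n * u * n⁻¹) =
      κ (n * u * n⁻¹) * k :=
    ⟨R ⊓ Subgroup.centralizer {κ (n * u * n⁻¹)}, fun k => by
      rw [Subgroup.mem_inf, Subgroup.mem_centralizer_singleton_iff]⟩
  obtain ⟨Q, hQ⟩ : ∃ Q : Subgroup K, ∀ k, k ∈ Q ↔ k ∈ ι'.range ∧ k ∈ R :=
    ⟨ι'.range ⊓ R, fun k => Subgroup.mem_inf⟩
  obtain ⟨P', hP'⟩ : ∃ P' : Subgroup G, ∀ g, g ∈ P' ↔ g ∈ ExS 𝔪 ι D ι₀ ζ ∧ g * ι u = ι u * g :=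
    ⟨R' ⊓ Subgroup.centralizer {ι u}, fun g => by
      rw [Subgroup.mem_inf, Subgroup.mem_centralizer_singleton_iff, hR']⟩
  obtain ⟨Q', hQ'⟩ : ∃ Q' : Subgroup G, ∀ g, g ∈ Q' ↔
      g ∈ ExS 𝔪 ι D ι₀ ζ ∧ ∀ x ∈ D, g * ι x = ι x * g :=
    ⟨R' ⊓ Subgroup.centralizer (D.map ι : Set G), fun g => by
      rw [Subgroup.mem_inf, Subgroup.mem_centralizer_iff, hR']
      constructor
      · rintro ⟨h1, h2⟩
        exact ⟨h1, fun x hx => (h2 _ (Subgroup.mem_map_of_mem ι hx)).symm⟩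
      · rintro ⟨h1, h2⟩
        refine ⟨h1, ?_⟩
        rintro _ ⟨x, hx, rfl⟩
        exact (h2 x hx).symm⟩
  have hrange : ∀ k : K, k ∈ ι'.range ↔ ∀ g ∈ D.map κ, g * k = k * g := by
    intro k
    rw [← hB.cen.ran k]
    rfl
  have hQP : Q ≤ P := by
    intro k hk
    rw [hQ] at hk
    rw [hP]
    exact ⟨hk.2, ((hrange k).1 hk.1 _ (Subgroup.mem_map_of_mem κ hu1)).symm⟩
  have hQP' : Q' ≤ P' := by
    intro g hg
    rw [hQ'] at hg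
    rw [hP']
    exact ⟨hg.1, hg.2 u hu⟩
  have hPf : ∀ k ∈ P, f k ∈ P' := by
    intro k hk
    rw [hP] at hk
    rw [hP', ← hR']
    exact ⟨hmem k hk.1, (hcomm k u).2 hk.2⟩
  have hQf : ∀ k ∈ P, k ∈ Q ↔ f k ∈ Q' := by
    intro k hk
    rw [hP] at hk
    rw [hQ, hQ', ← hR', hrange]
    constructor
    · rintro ⟨h1, -⟩
      refine ⟨hmem k hk.1, fun x hx => ?_⟩
      rw [hcomm]
      exact (h1 _ (Subgroup.mem_map_of_mem κ ((hn1 x).1 hx))).symm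
    · rintro ⟨-, h2⟩
      refine ⟨?_, hk.1⟩
      rintro _ ⟨d, hd, rfl⟩
      have h1 : n⁻¹ * d * n ∈ D := by
        rw [hn1]
        have : n * (n⁻¹ * d * n) * n⁻¹ = d := by group
        rw [this]
        exact hd
      have h3 := (hcomm k (n⁻¹ * d * n)).1 (h2 _ h1)
      have h4 : n * (n⁻¹ * d * n) * n⁻¹ = d := by group
      rw [h4] at h3
      exact h3.symm
  have hq := UCnt_quot f P Q P' Q' hQP hQP' hPf hQf
  have hprod := UCnt_prod ι'.range R (Stb 𝔪 hB.cen η) (κ (n * u * n⁻¹))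
    (fun c hc => ((hrange c).1 hc _ (Subgroup.mem_map_of_mem κ hu1)).symm)
    (fun k hk => by
      obtain ⟨c, hc⟩ := UFra_main h 𝔪 h𝔪 D ι₀ hA.cen ι' hB.cen η hB.irr l hl hll ζ₁ hζ₁ hov1 k hk
      exact ⟨ι' c, ⟨c, rfl⟩, (hR _).2 hc⟩)
  have hc1 : Nat.card P' = Nat.card {g : G // g ∈ ExS 𝔪 ι D ι₀ ζ ∧ g * ι u = ι u * g} :=
    Nat.card_congr (Equiv.subtypeEquivRight hP')
  have hc2 : Nat.card Q' = Nat.card {g : G // g ∈ ExS 𝔪 ι D ι₀ ζ ∧ ∀ x ∈ D, g * ι x = ι x * g} :=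
    Nat.card_congr (Equiv.subtypeEquivRight hQ')
  have hc3 : Nat.card P = Nat.card {k : K // k ∈ R ∧ k * κ (n * u * n⁻¹) = κ (n * u * n⁻¹) * k} :=
    Nat.card_congr (Equiv.subtypeEquivRight hP)
  have hc4 : Nat.card Q = Nat.card {k : K // k ∈ ι'.range ∧ k ∈ R} :=
    Nat.card_congr (Equiv.subtypeEquivRight hQ)
  have hc5 : Nat.card ι'.range = Nat.card H' :=
    Nat.card_congr (MonoidHom.ofInjective hB.cen.inj).symm.toEquiv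
  rw [← hc1, ← hc2] at he
  rw [← hc3, ← hc4, hc5] at hprod
  have hQpos : 0 < Nat.card Q := Nat.card_pos
  have hQ'pos : 0 < Nat.card Q' := Nat.card_pos
  have h1 : Nat.card P ≤ e * Nat.card Q := by
    have h2 : Nat.card P * Nat.card Q' ≤ (e * Nat.card Q) * Nat.card Q' := by
      calc Nat.card P * Nat.card Q' ≤ Nat.card P' * Nat.card Q := hq
        _ ≤ (e * Nat.card Q') * Nat.card Q := Nat.mul_le_mul_right _ he
        _ = (e * Nat.card Q) * Nat.card Q' := by ring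
    exact Nat.le_of_mul_le_mul_right h2 hQ'pos
  have h2 : Nat.card {k : K // k ∈ Stb 𝔪 hB.cen η ∧ k * κ (n * u * n⁻¹) = κ (n * u * n⁻¹) * k} ≤
      e * Nat.card H' := by
    refine Nat.le_of_mul_le_mul_right (?_ : _ * Nat.card Q ≤ _ * Nat.card Q) hQpos
    calc _ ≤ Nat.card H' * Nat.card P := hprod
      _ ≤ Nat.card H' * (e * Nat.card Q) := Nat.mul_le_mul_left _ h1
      _ = e * Nat.card H' * Nat.card Q := by ring
  exact (KY_main p hp 𝔪 h𝔪 hp𝔪 χ hχ (D.map κ) ι' η hB (κ (n * u * n⁻¹))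
    (Subgroup.mem_map_of_mem κ hu1) e h2 hpe).2

/-- HINT: as `BsB_main`: `FRe_main` with `T = StB 𝔪 h θ` and `UFin_stable` for `T` and
`j ∘ T.subtype`. -/
theorem UFin_main {N K G H : Type} [Group N] [Fintype N] [Group K] [Fintype K] [Group G]
    [Fintype G] [Group H] [Fintype H] {κ : N →* K} (h : Nrm κ) {ι : N →* G} (hG : Nrm ι)
    (j : K →* G) (hj : Function.Injective j) (hjκ : ∀ x, j (κ x) = ι x) (p : ℕ) (hp : p.Prime)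
    (𝔪 : Ideal AInt) (h𝔪 : 𝔪.IsMaximal) (hp𝔪 : (p : AInt) ∈ 𝔪) (χ : K → ℂ) (hχ : χ ∈ Irr K)
    (θ : N → ℂ) (hθ : θ ∈ Irr N) (hov : Over κ χ θ)
    (hidx : ¬ p ∣ κ.range.index) (D : Subgroup N) (ι₀ : H →* N) (ζ : H → ℂ)
    (hA : AbD p 𝔪 θ D ι₀ ζ) (u : N) (hu : u ∈ D) (e : ℕ)
    (he : Nat.card {g : G // g ∈ ExS 𝔪 ι D ι₀ ζ ∧ g * ι u = ι u * g} ≤
      e * Nat.card {g : G // g ∈ ExS 𝔪 ι D ι₀ ζ ∧ ∀ x ∈ D, g * ι x = ι x * g})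
    (hpe : 12 * e ≤ p + 1) :
    (block 𝔪 χ).ncard ≤ p ^ defect p (block 𝔪 χ) := by
  classical
  obtain ⟨κ', ψ, hκ', h', hψ, hov', hk, hd⟩ := FRe_main h p hp 𝔪 h𝔪 hp𝔪 χ hχ θ hθ hov
  have : Fintype (StB 𝔪 h θ) := Fintype.ofFinite _
  have htw : ∀ t : StB 𝔪 h θ, tw h' t θ = tw h (t : K) θ := by
    intro t
    funext x
    rw [tw_apply, tw_apply]
    congr 1
    apply h.inj
    rw [h.cg_spec, ← hκ', h'.cg_spec, ← hκ']
    rfl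
  have hst : ∀ t : StB 𝔪 h θ, SameBlock 𝔪 θ (tw h' t θ) := by
    intro t
    rw [htw]
    exact (StB_mem 𝔪 h θ t).1 t.2
  have hidx' : ¬ p ∣ κ'.range.index := by
    intro hdvd
    apply hidx
    have e1 := κ.range.card_mul_index
    have e2 := κ'.range.card_mul_index
    have e3 := (StB 𝔪 h θ).card_mul_index
    have e4 : Nat.card κ.range = Nat.card N :=
      Nat.card_congr (MonoidHom.ofInjective h.inj).symm.toEquiv
    have e5 : Nat.card κ'.range = Nat.card N :=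
      Nat.card_congr (MonoidHom.ofInjective h'.inj).symm.toEquiv
    rw [e4] at e1
    rw [e5] at e2
    rw [← e2, ← e1, mul_assoc] at e3
    have e6 := Nat.eq_of_mul_eq_mul_left (Nat.card_pos : 0 < Nat.card N) e3
    rw [← e6]
    exact hdvd.mul_right _
  have h1 := UFin_stable h' hG (j.comp (StB 𝔪 h θ).subtype)
    (hj.comp (Subgroup.subtype_injective _)) (fun x => by
      rw [MonoidHom.comp_apply, Subgroup.coe_subtype, hκ', hjκ])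
    p hp 𝔪 h𝔪 hp𝔪 ψ hψ θ hθ hov' hst hidx' D ι₀ ζ hA u hu e he hpe
  exact hk.trans (h1.trans (Nat.pow_le_pow_right hp.pos hd))

end Pool.Agent.KBY
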