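import Pool.Agent.KBY.FinB
import Pool.Agent.KBY.KeC
import Pool.Agent.KBY.BsB
import Pool.Agent.KBY.UFin
import Pool.Agent.KBQ.KY

/-! The theorems for groups with a normal subgroup. -/

set_option autoImplicit false

namespace Pool.Agent.KBY

open Pool.Agent.KB Pool.Agent.KB.ContrAux Pool.Agent.KBL Pool.Agent.KBZ Pool.Agent.KBU
  Pool.Agent.KBQ

private theorem FinC_nrm {N K G : Type} [Group N] [Group K] [Group G] {ι : N →* G} (h : Nrm ι)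
    (j : K →* G) (hj : Function.Injective j) (κ : N →* K) (hjκ : ∀ x, j (κ x) = ι x) : Nrm κ where
  inj := by
    intro a b hab
    apply h.inj
    rw [← hjκ, ← hjκ, hab]
  nrm k x := by
    obtain ⟨y, hy⟩ := h.nrm (j k) x
    refine ⟨y, hj ?_⟩
    rw [hjκ, hy, ← hjκ, map_mul, map_mul, map_inv]

/-- HINT: `FinB_main` with `M = C`, `KeC_main` and `BsB_main`; `κ` is normal in `K` because
`j (κ x) = ι x`, `ι` is normal in `G` and `j` is injective. If `C = 0` then `ADB` says that there is no such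
block; `θ` itself is one: `(block 𝔪 θ).ncard ≤ 0 * |D|` but `θ ∈ block 𝔪 θ`, so `1 ≤ C`. -/
theorem FinC_adb (p : ℕ) (hp : p.Prime) (𝔪 : Ideal AInt) (h𝔪 : 𝔪.IsMaximal)
    (hp𝔪 : (p : AInt) ∈ 𝔪) (r C : ℕ) (hC : ADB p 𝔪 r C) {N H G : Type} [Group N] [Fintype N]
    [Group H] [Fintype H] [Group G] [Fintype G] (θ : N → ℂ) (hθ : θ ∈ Irr N) (D : Subgroup N)
    (ι₀ : H →* N) (ζ : H → ℂ) (hA : AbD p 𝔪 θ D ι₀ ζ)
    (hr : Nat.card {x : D // x ^ p = 1} ≤ p ^ r) (n : ℕ) {ι : N →* G} (h : Nrm ι)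
    (hser : Ser p r n ι.range) (χ : G → ℂ) (hχ : χ ∈ Irr G) (hov : Over ι χ θ) :
    (block 𝔪 χ).ncard ≤ C ^ (n + 1) * p ^ defect p (block 𝔪 χ) := by
  have hC1 : 1 ≤ C := by
    rcases Nat.eq_zero_or_pos C with h0 | h0
    · exfalso
      have h1 := hC N H θ D ι₀ ζ hθ hA hr
      rw [h0, zero_mul] at h1
      have h2 : (block 𝔪 θ).ncard = 0 := by omega
      rw [Set.ncard_eq_zero (Gam_fin 𝔪 θ)] at h2
      have h3 : θ ∈ block 𝔪 θ := ⟨hθ, same_refl 𝔪 θ⟩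
      rw [h2] at h3
      exact h3
    · exact h0
  have h1 := FinB_main p hp 𝔪 h𝔪 hp𝔪 r C C hC1 (KeC_main p hp 𝔪 h𝔪 hp𝔪 r C hC) θ hθ n h hser
    (fun K _ _ j κ hj hjκ hidx ψ hψ hov' =>
      BsB_main (FinC_nrm h j hj κ hjκ) p hp 𝔪 h𝔪 hp𝔪 r C hC ψ hψ θ hθ hov' hidx D ι₀ ζ hA hr)
    χ hχ hov
  rw [pow_succ, mul_comm (C ^ n) C]
  exact h1

/-- HINT: `KY_rank` (`12 * 25 ^ (r ^ 2) ≤ p + 1`) and `AbD.card`. -/
theorem FinC_one (p : ℕ) (hp : p.Prime) (𝔪 : Ideal AInt) (h𝔪 : 𝔪.IsMaximal)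
    (hp𝔪 : (p : AInt) ∈ 𝔪) (r : ℕ) (hpr : 12 * 25 ^ (r ^ 2) ≤ p + 1) : ADB p 𝔪 r 1 := by
  intro G H _ _ _ _ χ D ι ζ hχ hA hr
  rw [one_mul, hA.card]
  exact (KY_rank p hp 𝔪 h𝔪 hp𝔪 χ hχ D ι ζ hA r hr hpr).2

/-- HINT: `KY_all`. -/
theorem FinC_all (p : ℕ) (hp : p.Prime) (𝔪 : Ideal AInt) (h𝔪 : 𝔪.IsMaximal)
    (hp𝔪 : (p : AInt) ∈ 𝔪) (r : ℕ) : ADB p 𝔪 r ((12 * 25 ^ (r ^ 2)) ^ (r ^ 2)) := by
  intro G H _ _ _ _ χ D ι ζ hχ hA hr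
  exact KY_all p hp 𝔪 h𝔪 hp𝔪 χ hχ D ι ζ hA r hr

/-- The version with an element `u` of `D`. HINT: `n = 0`: `FinB_zero` with `M = 1`; otherwise `FinB_main`
with `M = C = 1` and `KeC_main` for `FinC_one`. `hB` is `UFin_main`. -/
theorem FinC_u (p : ℕ) (hp : p.Prime) (𝔪 : Ideal AInt) (h𝔪 : 𝔪.IsMaximal)
    (hp𝔪 : (p : AInt) ∈ 𝔪) {N H G : Type} [Group N] [Fintype N]
    [Group H] [Fintype H] [Group G] [Fintype G] (θ : N → ℂ) (hθ : θ ∈ Irr N) (D : Subgroup N)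
    (ι₀ : H →* N) (ζ : H → ℂ) (hA : AbD p 𝔪 θ D ι₀ ζ) (r n : ℕ) {ι : N →* G} (h : Nrm ι)
    (hser : Ser p r n ι.range) (hn : n = 0 ∨ 12 * 25 ^ (r ^ 2) ≤ p + 1) (u : N) (hu : u ∈ D)
    (e : ℕ) (he : Nat.card {g : G // g ∈ ExS 𝔪 ι D ι₀ ζ ∧ g * ι u = ι u * g} ≤
      e * Nat.card {g : G // g ∈ ExS 𝔪 ι D ι₀ ζ ∧ ∀ x ∈ D, g * ι x = ι x * g})
    (hpe : 12 * e ≤ p + 1) (χ : G → ℂ) (hχ : χ ∈ Irr G) (hov : Over ι χ θ) :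
    (block 𝔪 χ).ncard ≤ p ^ defect p (block 𝔪 χ) := by
  have hB : ∀ (K : Type) [Group K] [Fintype K] (j : K →* G) (κ : N →* K), Function.Injective j →
      (∀ x, j (κ x) = ι x) → ¬ p ∣ κ.range.index → ∀ ψ ∈ Irr K, Over κ ψ θ →
      (block 𝔪 ψ).ncard ≤ 1 * p ^ defect p (block 𝔪 ψ) := by
    intro K _ _ j κ hj hjκ hidx ψ hψ hov'
    rw [one_mul]
    exact UFin_main (FinC_nrm h j hj κ hjκ) h j hj hjκ p hp 𝔪 h𝔪 hp𝔪 ψ hψ θ hθ hov' hidx D ι₀ ζ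
      hA u hu e he hpe
  rcases hn with hn | hn
  · subst hn
    have h1 := FinB_zero p hp 𝔪 r 1 θ h hser hB χ hχ hov
    rwa [one_mul] at h1
  · have h1 := FinB_main p hp 𝔪 h𝔪 hp𝔪 r 1 1 le_rfl
      (KeC_main p hp 𝔪 h𝔪 hp𝔪 r 1 (FinC_one p hp 𝔪 h𝔪 hp𝔪 r hn)) θ hθ n h hser hB χ hχ hov
    rwa [one_pow, one_mul, one_mul] at h1

end Pool.Agent.KBY
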