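import Pool.Agent.KBY.DefsG

/-! Pure group theory: fixed points of coprime groups of operators. -/

set_option autoImplicit false

namespace Pool.Agent.KBY

/-- Averaging. PROOF. Let `m = |H|`, prime to `p`. For `h : H` let `c h = (h • w) * w⁻¹ ∈ U`. Let
`u = ∏ h : H, (h • w)`; it is fixed by `H` (reindex), and `u = w ^ m * ∏ h, c h ∈ w ^ m * U`. Choose `n` with
`n * m ≡ 1` modulo `p` (`Nat.exists_mul_emod_eq_one_of_coprime` or `Nat.chineseRemainder`): `u ^ n` is
fixed, and `w⁻¹ * u ^ n ∈ U` since `w ^ (m * n) = w`. -/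
theorem CpA_avg (p : ℕ) (hp : p.Prime) (H W : Type) [Group H] [Finite H] [CommGroup W]
    [MulDistribMulAction H W] (hH : ¬ p ∣ Nat.card H) (hW : ∀ w : W, w ^ p = 1) (U : Subgroup W)
    (w : W) (hw : ∀ h : H, (h • w) * w⁻¹ ∈ U) :
    ∃ c : W, (∀ h : H, h • c = c) ∧ w⁻¹ * c ∈ U := by
  classical
  have hFin : Fintype H := Fintype.ofFinite H
  have hcop : Nat.Coprime (Nat.card H) p := ((Nat.Prime.coprime_iff_not_dvd hp).2 hH).symm
  obtain ⟨n, -, hn⟩ := Nat.exists_mul_mod_eq_one_of_coprime hcop hp.one_lt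
  have hu : ∀ h : H, h • (∏ g : H, (g • w)) = ∏ g : H, (g • w) := by
    intro h
    rw [Finset.smul_prod']
    exact Fintype.prod_equiv (Equiv.mulLeft h) _ _ (fun g => by
      rw [smul_smul]
      rfl)
  have h1 : ∏ g : H, (g • w) = w ^ Nat.card H * ∏ g : H, ((g • w) * w⁻¹) := by
    rw [Nat.card_eq_fintype_card, ← Finset.card_univ, ← Finset.prod_const,
      ← Finset.prod_mul_distrib]
    refine Finset.prod_congr rfl fun g _ => ?_
    rw [mul_comm (g • w) w⁻¹, mul_inv_cancel_left]
  have hU : ∏ g : H, ((g • w) * w⁻¹) ∈ U := Subgroup.prod_mem _ fun h _ => hw h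
  refine ⟨(∏ g : H, (g • w)) ^ n, fun h => by rw [smul_pow', hu], ?_⟩
  have h2 : w ^ (Nat.card H * n) = w := by
    have h3 := Nat.div_add_mod (Nat.card H * n) p
    rw [hn] at h3
    rw [← h3, pow_succ, pow_mul, hW, one_pow, one_mul]
  rw [h1, mul_pow, ← pow_mul, h2, inv_mul_cancel_left]
  exact U.pow_mem hU n

/-- PROOF. Let `H` be the subgroup of `S` generated by `s` and `t` (`Subgroup.closure {s, t}`); its order
is prime to `p`, and an element is fixed by `s` and `t` iff it is fixed by `H`. If there is no fixed point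
in the orbit the left side is `0`. Otherwise let `x₀` be one and `U` the stabilizer of `x₀` in `W`. Every
`x` in the orbit is `w • x₀`; if it is fixed by `s` and `t` then for `h ∈ H`:
`(h • w) • x₀ = h • (w • x₀) = w • x₀`, so `(h • w) * w⁻¹ ∈ U` (`W` is commutative); by `CpA_avg` there
is a fixed `c : W` with `w⁻¹ * c ∈ U`, so `x = c • x₀`. So the map `c ↦ c • x₀` from the fixed points in `W`
is onto the set of fixed points in the orbit. -/
theorem CpA_orb (p : ℕ) (hp : p.Prime) (S W X : Type) [Group S] [Finite S] [CommGroup W]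
    [Finite W] [Finite X] [MulDistribMulAction S W] [MulAction S X] [MulAction W X]
    (hc : ∀ (s : S) (w : W) (x : X), s • (w • x) = (s • w) • (s • x)) (hS : ¬ p ∣ Nat.card S)
    (hW : ∀ w : W, w ^ p = 1) (s t : S) (o : MulAction.orbitRel.Quotient W X) :
    Nat.card {x : X // (Quotient.mk'' x : MulAction.orbitRel.Quotient W X) = o ∧ s • x = x ∧
      t • x = x} ≤ Nat.card {w : W // s • w = w ∧ t • w = w} := by
  rcases isEmpty_or_nonempty {x : X // (Quotient.mk'' x : MulAction.orbitRel.Quotient W X) = o ∧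
      s • x = x ∧ t • x = x} with he | ⟨⟨x₀, hx₀o, hx₀s, hx₀t⟩⟩
  · rw [Nat.card_of_isEmpty]
    exact Nat.zero_le _
  · let f : {w : W // s • w = w ∧ t • w = w} →
        {x : X // (Quotient.mk'' x : MulAction.orbitRel.Quotient W X) = o ∧ s • x = x ∧
          t • x = x} := fun c => ⟨c.1 • x₀, by
      refine ⟨?_, ?_, ?_⟩
      · rw [← hx₀o]
        exact Quotient.sound' ⟨c.1, rfl⟩
      · rw [hc, c.2.1, hx₀s]
      · rw [hc, c.2.2, hx₀t]⟩
    refine Nat.card_le_card_of_surjective f ?_
    rintro ⟨x, hxo, hxs, hxt⟩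
    have h1 : (Quotient.mk'' x : MulAction.orbitRel.Quotient W X) = Quotient.mk'' x₀ := by
      rw [hxo, hx₀o]
    obtain ⟨w, hw⟩ : x ∈ MulAction.orbit W x₀ := Quotient.exact' h1
    have hw' : w • x₀ = x := hw
    let H : Subgroup S := Subgroup.closure {s, t}
    have hHx : ∀ y : X, s • y = y → t • y = y → ∀ h ∈ H, h • y = y := by
      intro y h2 h3 h hh
      have h4 : H ≤ MulAction.stabilizer S y := by
        rw [Subgroup.closure_le]
        rintro g (rfl | hg)
        · exact h2
        · rw [Set.mem_singleton_iff] at hg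
          rw [hg]
          exact h3
      exact h4 hh
    have hcard : ¬ p ∣ Nat.card H := fun h => hS (h.trans (Subgroup.card_subgroup_dvd_card H))
    obtain ⟨c, hc1, hc2⟩ := CpA_avg p hp H W hcard hW (MulAction.stabilizer W x₀) w (by
      intro h
      rw [MulAction.mem_stabilizer_iff, mul_comm, mul_smul]
      have h2 : (h • w) • x₀ = x := by
        have h3 := hc h.1 w x₀
        rw [hHx x₀ hx₀s hx₀t h.1 h.2, hw', hHx x hxs hxt h.1 h.2] at h3
        exact h3.symm
      rw [h2, ← hw', inv_smul_smul])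
    have hsH : s ∈ H := Subgroup.subset_closure (Or.inl rfl)
    have htH : t ∈ H := Subgroup.subset_closure (Or.inr rfl)
    refine ⟨⟨c, hc1 ⟨s, hsH⟩, hc1 ⟨t, htH⟩⟩, ?_⟩
    apply Subtype.ext
    change c • x₀ = x
    rw [MulAction.mem_stabilizer_iff, mul_smul, inv_smul_eq_iff] at hc2
    rw [hc2, hw']

/-- The decomposition of `Trp`. -/
private def CpA_sig (S X : Type) [Group S] [MulAction S X] :
    Trp S X ≃ Σ st : {y : S × S // y.1 * y.2 = y.2 * y.1},
      {x : X // st.1.1 • x = x ∧ st.1.2 • x = x} where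
  toFun y := ⟨⟨(y.1.1, y.1.2.1), y.2.1⟩, ⟨y.1.2.2, y.2.2⟩⟩
  invFun z := ⟨(z.1.1.1, z.1.1.2, z.2.1), z.1.2, z.2.2⟩
  left_inv _ := rfl
  right_inv _ := rfl

/-- PROOF. `Trp S X` is the disjoint union over the commuting pairs `(s, t)` and the orbits `o` of `W` of
the sets in `CpA_orb`, and `Trp S W` is the disjoint union over the commuting pairs of
`{w // s • w = w ∧ t • w = w}`. -/
theorem CpA_main (p : ℕ) (hp : p.Prime) (S W X : Type) [Group S] [Finite S] [CommGroup W]
    [Finite W] [Finite X] [MulDistribMulAction S W] [MulAction S X] [MulAction W X]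
    (hc : ∀ (s : S) (w : W) (x : X), s • (w • x) = (s • w) • (s • x)) (hS : ¬ p ∣ Nat.card S)
    (hW : ∀ w : W, w ^ p = 1) :
    Nat.card (Trp S X) ≤ Nat.card (MulAction.orbitRel.Quotient W X) * Nat.card (Trp S W) := by
  classical
  have : Fintype {y : S × S // y.1 * y.2 = y.2 * y.1} := Fintype.ofFinite _
  have : Fintype (MulAction.orbitRel.Quotient W X) := Fintype.ofFinite _
  rw [Nat.card_congr (CpA_sig S X), Nat.card_congr (CpA_sig S W), Nat.card_sigma, Nat.card_sigma,
    Finset.mul_sum]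
  refine Finset.sum_le_sum fun st _ => ?_
  let e : {x : X // st.1.1 • x = x ∧ st.1.2 • x = x} ≃
      Σ o : MulAction.orbitRel.Quotient W X,
        {x : X // (Quotient.mk'' x : MulAction.orbitRel.Quotient W X) = o ∧ st.1.1 • x = x ∧
          st.1.2 • x = x} :=
    { toFun := fun x => ⟨Quotient.mk'' x.1, ⟨x.1, rfl, x.2⟩⟩
      invFun := fun z => ⟨z.2.1, z.2.2.2⟩
      left_inv := fun _ => rfl
      right_inv := by
        rintro ⟨o, x, rfl, h⟩
        rfl }
  rw [Nat.card_congr e, Nat.card_sigma]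
  refine (Finset.sum_le_sum fun o _ => CpA_orb p hp S W X hc hS hW st.1.1 st.1.2 o).trans ?_
  rw [Finset.sum_const, Finset.card_univ, smul_eq_mul, Nat.card_eq_fintype_card (α := MulAction.orbitRel.Quotient W X)]

end Pool.Agent.KBY
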