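import Pool.Agent.KBY.OmN
import Pool.Agent.KBU.Reg

/-! Blocks over a block of a normal subgroup whose index is a power of `p`. -/

set_option autoImplicit false

namespace Pool.Agent.KBY

open Pool.Agent.KB Pool.Agent.KB.ContrAux Pool.Agent.KBL Pool.Agent.KBZ Pool.Agent.KBU
  Pool.Agent.KBQ

/-- HINT: the image of `g` in `G ⧸ ι.range` has order dividing `p ^ k` and dividing `orderOf g`, which
is prime to `p`. -/
theorem DfC_reg {A G : Type} [Group A] [Group G] [Fintype G] {ι : A →* G} (h : Nrm ι) (p : ℕ)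
    (hp : p.Prime) (k : ℕ) (hk : ι.range.index = p ^ k) (g : G) (hg : ¬ p ∣ orderOf g) :
    ∃ y : A, ι y = g := by
  haveI := h.normal
  have h1 : g ^ (p ^ k) ∈ ι.range := by
    rw [← hk]
    exact Subgroup.pow_index_mem ι.range g
  have h2 : g ^ orderOf g ∈ ι.range := by
    rw [pow_orderOf_eq_one]
    exact ι.range.one_mem
  have hco : Nat.Coprime (p ^ k) (orderOf g) :=
    Nat.Coprime.pow_left k ((Nat.Prime.coprime_iff_not_dvd hp).2 hg)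
  have h3 : g ∈ ι.range := by
    have e : (1 : ℤ) = (p ^ k : ℕ) * Nat.gcdA (p ^ k) (orderOf g) +
        (orderOf g : ℕ) * Nat.gcdB (p ^ k) (orderOf g) := by
      have := Nat.gcd_eq_gcd_ab (p ^ k) (orderOf g)
      rw [hco] at this
      exact_mod_cast this
    have e2 : g = (g ^ (p ^ k)) ^ (Nat.gcdA (p ^ k) (orderOf g)) *
        (g ^ orderOf g) ^ (Nat.gcdB (p ^ k) (orderOf g)) := by
      conv_lhs => rw [← zpow_one g, e]
      rw [zpow_add, zpow_mul, zpow_mul, zpow_natCast, zpow_natCast]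
    rw [e2]
    exact ι.range.mul_mem (ι.range.zpow_mem h1 _) (ι.range.zpow_mem h2 _)
  exact h3

/-- PROOF. `Dfc_ex` for `χ`: a regular `x : G` with `¬ InM (omega χ x)`, `v|C_G(x)| ≤ defect χ`; `x = ι y`
(`DfC_reg`). `OmN_main`: `omega χ (ι y) ≡ n * omega θ y`, `n ∣ p ^ k`. So `n = 1` (otherwise `p ∣ n` and
`n * omega θ y ∈ 𝔪`, `InM_p`) and `¬ InM (omega θ y)`. `Dfc_le` for `θ`: `defect θ ≤ v|C_A(y)|`. By `OmN_num`
with `n = 1`: `|C_G(ι y)| = p ^ k |C_A(y)|`, so `v|C_G(ι y)| = k + v|C_A(y)|`. -/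
theorem DfC_main {A G : Type} [Group A] [Fintype A] [Group G] [Fintype G] {ι : A →* G}
    (h : Nrm ι) (p : ℕ) (hp : p.Prime) (𝔪 : Ideal AInt) (h𝔪 : 𝔪.IsMaximal)
    (hp𝔪 : (p : AInt) ∈ 𝔪) (χ : G → ℂ) (hχ : χ ∈ Irr G) (θ : A → ℂ) (hθ : θ ∈ Irr A)
    (hov : Over ι χ θ) (hst : ∀ g : G, SameBlock 𝔪 θ (tw h g θ)) (k : ℕ)
    (hk : ι.range.index = p ^ k) :
    defect p (block 𝔪 θ) + k ≤ defect p (block 𝔪 χ) := by
  haveI : Fact p.Prime := ⟨hp⟩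
  obtain ⟨x, hx, hxM, hxd⟩ := Dfc_ex p hp 𝔪 h𝔪 hp𝔪 χ hχ
  obtain ⟨y, rfl⟩ := DfC_reg h p hp k hk x hx
  obtain ⟨n, hn, hm⟩ := OmN_main h 𝔪 χ hχ θ hθ hov hst y
  obtain ⟨hc, hd⟩ := OmN_num ι h.inj y n hn
  have hn1 : n = 1 := by
    rw [hk] at hd
    obtain ⟨j, -, hj⟩ := (Nat.dvd_prime_pow hp).1 hd
    rcases Nat.eq_zero_or_pos j with h0 | h0
    · rw [hj, h0, pow_zero]
    · exfalso
      apply hxM
      have hpn : (p : ℤ) ∣ (n : ℤ) := by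
        rw [hj]
        exact_mod_cast dvd_pow_self p h0.ne'
      have h1 := Pool.Agent.KBL.CDAux.InM_p hp𝔪 hpn (irr_omega hθ y)
      have h2 := InM_add hm h1
      simpa using h2
  subst hn1
  have hyM : ¬ InM 𝔪 (omega θ y) := by
    intro h1
    apply hxM
    have h2 := InM_add hm h1
    simpa using h2
  have h3 := Dfc_le p hp 𝔪 h𝔪 hp𝔪 θ hθ y hyM
  rw [one_mul, hk] at hc
  have h4 : padicValNat p (Nat.card (Subgroup.centralizer {ι y} : Subgroup G)) =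
      k + padicValNat p (Nat.card (Subgroup.centralizer {y} : Subgroup A)) := by
    rw [hc, padicValNat.mul (pow_ne_zero _ hp.ne_zero) Nat.card_pos.ne', padicValNat.prime_pow]
  rw [h4] at hxd
  omega

/-- Uniqueness of the block of `G` over the block of `θ`. PROOF. `Reg_main`: let `g` be regular, `g = ι y`
(`DfC_reg`). By `OmN_z`: `omega χ (ι y) = omg θ z`, `omega χ' (ι y) = omg θ' z` with the same
`z = trc ι (clsum (ι y))` (central: `Br_ctr`, `Alg_ctr_clsum`), and `omg θ z ≡ omg θ' z` by `IndA_omg`. -/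
theorem DfC_uniq {A G : Type} [Group A] [Fintype A] [Group G] [Fintype G] {ι : A →* G}
    (h : Nrm ι) (p : ℕ) (hp : p.Prime) (𝔪 : Ideal AInt) (h𝔪 : 𝔪.IsMaximal)
    (hp𝔪 : (p : AInt) ∈ 𝔪) (χ χ' : G → ℂ) (hχ : χ ∈ Irr G) (hχ' : χ' ∈ Irr G) (θ θ' : A → ℂ)
    (hθ : θ ∈ Irr A) (hθ' : θ' ∈ block 𝔪 θ) (h1 : Over ι χ θ) (h2 : Over ι χ' θ') (k : ℕ)
    (hk : ι.range.index = p ^ k) : χ' ∈ block 𝔪 χ := by
  refine Reg_main p hp 𝔪 h𝔪 hp𝔪 χ χ' hχ hχ' fun g hg => ?_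
  obtain ⟨y, rfl⟩ := DfC_reg h p hp k hk g hg
  rw [OmN_z h χ hχ θ hθ h1 y, OmN_z h χ' hχ' θ' hθ'.1 h2 y]
  exact IndA_omg 𝔪 θ θ' hθ hθ'.1 (same_iff.1 hθ'.2) _ (Br_ctr ι _ (Alg_ctr_clsum _))

end Pool.Agent.KBY
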