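import Pool.Agent.KBY.DefsG

/-! Pure group theory: the centralizer of an elementary abelian factor at the top. -/

set_option autoImplicit false

namespace Pool.Agent.KBY

/-- The power map of exponent divisible by the index of a central subgroup is a homomorphism. -/
private theorem Gl_pow {Q : Type} [Group Q] [Finite Q] (V : Subgroup Q)
    (hV : V ≤ Subgroup.center Q) (m : ℕ) (hm : V.index ∣ m) (a b : Q) :
    (a * b) ^ m = a ^ m * b ^ m := by
  obtain ⟨k, hk⟩ := (Subgroup.index_dvd_of_le hV).trans hm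
  have h1 : ∀ x : Q, x ^ m = (((MonoidHom.transferCenterPow Q x) ^ k : Subgroup.center Q) : Q) := by
    intro x
    rw [Subgroup.coe_pow, MonoidHom.transferCenterPow_apply, ← pow_mul, ← hk]
  have h2 : Commute (MonoidHom.transferCenterPow Q a) (MonoidHom.transferCenterPow Q b) :=
    Subtype.ext ((Subgroup.mem_center_iff.1 (MonoidHom.transferCenterPow Q b).2) _)
  rw [h1, h1, h1, map_mul, h2.mul_pow, Subgroup.coe_mul]

/-- The case of the trivial subgroup `L₁`. -/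
private theorem Gl_bot {G : Type} [Group G] [Finite G] (p : ℕ) (hp : p.Prime) (V : Subgroup G)
    (hn : V.Normal) (hpow : ∀ x ∈ V, x ^ p = 1)
    (hcom : ∀ x ∈ V, ∀ y ∈ V, x * y = y * x) (hidx : ¬ p ∣ V.index) :
    ∃ K Q : Subgroup G, K.Normal ∧ Q.Normal ∧ K ≤ Q ∧ V ≤ Q ∧
      K.relIndex Q = Nat.card V ∧ ¬ p ∣ Nat.card K ∧ ¬ p ∣ Q.index ∧
      (∀ x ∈ Q, x ^ p ∈ K) ∧ (∀ x ∈ Q, ∀ y ∈ Q, x * y * x⁻¹ * y⁻¹ ∈ K) ∧
      (∀ g : G, (∀ x ∈ Q, g * x * g⁻¹ * x⁻¹ ∈ K) → g ∈ Q) := by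
  classical
  let Q : Subgroup G := Subgroup.centralizer (V : Set G)
  have hVQ : V ≤ Q := by
    intro x hx
    rw [Subgroup.mem_centralizer_iff]
    intro y hy
    exact hcom y hy x hx
  have hQn : Q.Normal := by
    constructor
    intro x hx g
    rw [Subgroup.mem_centralizer_iff] at hx ⊢
    intro y hy
    have h1 : g⁻¹ * y * g ∈ V := by
      have := hn.conj_mem y hy g⁻¹
      rwa [inv_inv] at this
    have h2 := hx _ h1
    calc y * (g * x * g⁻¹) = g * ((g⁻¹ * y * g) * x) * g⁻¹ := by group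
      _ = g * (x * (g⁻¹ * y * g)) * g⁻¹ := by rw [h2]
      _ = g * x * g⁻¹ * y := by group
  set m := V.index with hmdef
  have hmV : ∀ x : G, x ^ m ∈ V := by
    intro x
    exact Subgroup.pow_index_mem V x
  have hcop : Nat.Coprime m p := ((Nat.Prime.coprime_iff_not_dvd hp).2 hidx).symm
  have hm1 : ∀ x : G, x ^ m = 1 → x ^ p = 1 → x = 1 := by
    intro x h1 h2
    have h3 := Nat.gcd_eq_gcd_ab m p
    rw [hcop] at h3
    have h4 : x = (x ^ m) ^ (Nat.gcdA m p) * (x ^ p) ^ (Nat.gcdB m p) := by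
      rw [← zpow_natCast, ← zpow_natCast, ← zpow_mul, ← zpow_mul, ← zpow_add, ← h3]
      simp
    rw [h4, h1, h2, one_zpow, one_zpow, mul_one]
  -- the power map on `Q`
  have hmul : ∀ a ∈ Q, ∀ b ∈ Q, (a * b) ^ m = a ^ m * b ^ m := by
    intro a ha b hb
    have hc : V.subgroupOf Q ≤ Subgroup.center Q := by
      intro x hx
      rw [Subgroup.mem_center_iff]
      intro y
      apply Subtype.ext
      exact ((Subgroup.mem_centralizer_iff.1 y.2) x.1 hx).symm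
    have hd : (V.subgroupOf Q).index ∣ m := Subgroup.relIndex_dvd_index_of_normal V Q
    have h1 := Gl_pow (V.subgroupOf Q) hc m hd ⟨a, ha⟩ ⟨b, hb⟩
    exact congrArg Subtype.val h1
  let K : Subgroup G :=
    { carrier := {x | x ∈ Q ∧ x ^ m = 1}
      mul_mem' := by
        rintro a b ⟨ha, ha1⟩ ⟨hb, hb1⟩
        exact ⟨Q.mul_mem ha hb, by rw [hmul a ha b hb, ha1, hb1, mul_one]⟩
      one_mem' := ⟨Q.one_mem, one_pow _⟩
      inv_mem' := by
        rintro a ⟨ha, ha1⟩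
        exact ⟨Q.inv_mem ha, by rw [inv_pow, ha1, inv_one]⟩ }
  have hK : ∀ x, x ∈ K ↔ x ∈ Q ∧ x ^ m = 1 := fun x => Iff.rfl
  have hKQ : K ≤ Q := fun x hx => hx.1
  have hKn : K.Normal := by
    constructor
    rintro x ⟨hx, hx1⟩ g
    exact ⟨hQn.conj_mem x hx g, by rw [conj_pow, hx1, mul_one, mul_inv_cancel]⟩
  have hVK : V ⊔ K = Q := by
    apply le_antisymm (sup_le hVQ hKQ)
    intro q hq
    obtain ⟨n, -, hn'⟩ := Nat.exists_mul_mod_eq_one_of_coprime hcop hp.one_lt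
    have hv : (q ^ m) ^ n ∈ V := V.pow_mem (hmV q) n
    have hv1 : ((q ^ m) ^ n) ^ m = q ^ m := by
      have h3 := Nat.div_add_mod (m * n) p
      rw [hn'] at h3
      rw [← pow_mul (q ^ m), mul_comm n m, ← h3, pow_succ, pow_mul, hpow _ (hmV q), one_pow,
        one_mul]
    have h1 : ((q ^ m) ^ n)⁻¹ * q ∈ K := by
      refine ⟨Q.mul_mem (Q.inv_mem (hVQ hv)) hq, ?_⟩
      rw [hmul _ (Q.inv_mem (hVQ hv)) _ hq, inv_pow, hv1, inv_mul_cancel]
    have h2 : q = (q ^ m) ^ n * (((q ^ m) ^ n)⁻¹ * q) := by rw [mul_inv_cancel_left]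
    rw [h2]
    exact Subgroup.mul_mem_sup hv h1
  have hVKb : K ⊓ V = ⊥ := by
    rw [eq_bot_iff]
    rintro x ⟨⟨-, hx1⟩, hx2⟩
    exact Subgroup.mem_bot.2 (hm1 x hx1 (hpow x hx2))
  refine ⟨K, Q, hKn, hQn, hKQ, hVQ, ?_, ?_, ?_, ?_, ?_, ?_⟩
  · rw [← hVK, Subgroup.relIndex_sup_right, ← Subgroup.inf_relIndex_right, hVKb,
      Subgroup.relIndex_bot_left]
  · intro hpd
    have : Fact p.Prime := ⟨hp⟩
    obtain ⟨x, hx⟩ := exists_prime_orderOf_dvd_card' (G := K) p hpd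
    have h1 : (x : G) ^ p = 1 := by
      have h2 : x ^ p = 1 := by rw [← hx, pow_orderOf_eq_one]
      have h3 := congrArg Subtype.val h2
      simpa using h3
    have h2 := hm1 x x.2.2 h1
    have h3 : x = 1 := Subtype.ext h2
    rw [h3, orderOf_one] at hx
    exact hp.one_lt.ne hx
  · intro h
    exact hidx (h.trans (Subgroup.index_dvd_of_le hVQ))
  · intro x hx
    refine ⟨Q.pow_mem hx p, ?_⟩
    rw [← pow_mul, mul_comm, pow_mul, hpow _ (hmV x)]
  · intro x hx y hy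
    refine ⟨Q.mul_mem (Q.mul_mem (Q.mul_mem hx hy) (Q.inv_mem hx)) (Q.inv_mem hy), ?_⟩
    rw [hmul _ (Q.mul_mem (Q.mul_mem hx hy) (Q.inv_mem hx)) _ (Q.inv_mem hy),
      hmul _ (Q.mul_mem hx hy) _ (Q.inv_mem hx), hmul _ hx _ hy, hcom _ (hmV x) _ (hmV y), inv_pow,
      inv_pow, mul_inv_cancel_right, mul_inv_cancel]
  · intro g hg
    rw [Subgroup.mem_centralizer_iff]
    intro y hy
    have h1 := hg y (hVQ hy)
    have h2 : g * y * g⁻¹ * y⁻¹ ∈ V := V.mul_mem (hn.conj_mem y hy g) (V.inv_mem hy)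
    have h3 : g * y * g⁻¹ * y⁻¹ = 1 := hm1 _ h1.2 (hpow _ h2)
    have h4 : g * y * g⁻¹ = y := mul_inv_eq_one.1 h3
    have h5 : g * y = y * g := by
      rw [mul_inv_eq_iff_eq_mul] at h4
      exact h4
    exact h5.symm

/-- PROOF. `C₂ = {g | ∀ l ∈ L, g l g⁻¹ l⁻¹ ∈ L₁}`, a normal subgroup which contains `L` (`hcom`). In
`Q = C₂ / L₁` the image `V` of `L` is a central `p`-group of exponent `p`, and `m = |Q : V|` is prime to
`p` (it divides `|G : L|`). `q ↦ q ^ m` is a homomorphism from `Q` to `V`: the transfer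
(`MonoidHom.transferCenterPow` for the centre `Z` of `Q`: `q ↦ q ^ |Q : Z|` is a homomorphism into `Z`, and
`|Q : Z|` divides `m`); or use Schur-Zassenhaus (`Subgroup.exists_right_complement'_of_coprime`): a
complement of the central subgroup `V` is normal and consists of the elements of order prime to `p`.
Let `C₁ = {g ∈ C₂ | g ^ m ∈ L₁}`: the kernel. It is normal in `G`, it contains `L₁`; `L ∩ C₁ = L₁` (for
`v ∈ V`, `v ^ m = 1` implies `v = 1`). `C₂ = L C₁`: for `g ∈ C₂`, the image of `g ^ m` is in `V` and there is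
`v ∈ V` with `v ^ m = g ^ m` in `Q` (`m` is invertible modulo `p`), so `v⁻¹ g` is in the kernel. So
`|C₂ : C₁| = |L : L₁|`, and `|C₁ : L₁| = m`. Last point: if `[g, C₂] ⊆ C₁` then for `l ∈ L`
`g l g⁻¹ l⁻¹ ∈ C₁ ∩ L = L₁`, so `g ∈ C₂`. -/
theorem Gl_main {G : Type} [Group G] [Finite G] (p : ℕ) (hp : p.Prime) (L₁ L : Subgroup G)
    (hn₁ : L₁.Normal) (hn : L.Normal) (hle : L₁ ≤ L) (hpow : ∀ x ∈ L, x ^ p ∈ L₁)
    (hcom : ∀ x ∈ L, ∀ y ∈ L, x * y * x⁻¹ * y⁻¹ ∈ L₁) (hidx : ¬ p ∣ L.index) :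
    ∃ C₁ C₂ : Subgroup G, C₁.Normal ∧ C₂.Normal ∧ L₁ ≤ C₁ ∧ C₁ ≤ C₂ ∧ L ≤ C₂ ∧
      C₁.relIndex C₂ = L₁.relIndex L ∧ ¬ p ∣ L₁.relIndex C₁ ∧ ¬ p ∣ C₂.index ∧
      (∀ x ∈ C₂, x ^ p ∈ C₁) ∧ (∀ x ∈ C₂, ∀ y ∈ C₂, x * y * x⁻¹ * y⁻¹ ∈ C₁) ∧
      (∀ g : G, (∀ x ∈ C₂, g * x * g⁻¹ * x⁻¹ ∈ C₁) → g ∈ C₂) := by
  let f : G →* G ⧸ L₁ := QuotientGroup.mk' L₁
  have hf : Function.Surjective f := QuotientGroup.mk'_surjective L₁
  have hker : f.ker = L₁ := QuotientGroup.ker_mk' L₁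
  have hf1 : ∀ x, f x = 1 ↔ x ∈ L₁ := by
    intro x
    rw [← MonoidHom.mem_ker, hker]
  let V : Subgroup (G ⧸ L₁) := L.map f
  have hVc : V.comap f = L := by
    rw [Subgroup.comap_map_eq, hker]
    exact sup_eq_left.2 hle
  have hVn : V.Normal := Subgroup.Normal.map hn f hf
  obtain ⟨K, Q, h1, h2, h3, h4, h5, h6, h7, h8, h9, h10⟩ := Gl_bot p hp V hVn (by
      rintro _ ⟨x, hx, rfl⟩
      rw [← map_pow]
      exact (hf1 _).2 (hpow x hx)) (by
      rintro _ ⟨x, hx, rfl⟩ _ ⟨y, hy, rfl⟩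
      have h1 := (hf1 _).2 (hcom x hx y hy)
      rw [map_mul, map_mul, map_mul, map_inv, map_inv, mul_inv_eq_one, mul_inv_eq_iff_eq_mul] at h1
      exact h1) (by
      rw [← Subgroup.index_comap_of_surjective V hf, hVc]
      exact hidx)
  have hrel : ∀ A : Subgroup G, L₁.relIndex A = Nat.card (A.map f) := by
    intro A
    have e1 := Subgroup.relIndex_ker A f
    rwa [hker] at e1
  have hmap : ∀ A : Subgroup (G ⧸ L₁), (A.comap f).map f = A := fun A =>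
    Subgroup.map_comap_eq_self_of_surjective hf A
  refine ⟨K.comap f, Q.comap f, h1.comap f, h2.comap f, ?_, Subgroup.comap_mono h3, ?_, ?_, ?_, ?_,
    ?_, ?_, ?_⟩
  · intro x hx
    change f x ∈ K
    rw [(hf1 x).2 hx]
    exact K.one_mem
  · rw [← hVc]
    exact Subgroup.comap_mono h4
  · rw [Subgroup.relIndex_comap, hmap, h5, hrel]
  · rw [hrel, hmap]
    exact h6
  · rw [Subgroup.index_comap_of_surjective _ hf]
    exact h7
  · intro x hx
    change f (x ^ p) ∈ K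
    rw [map_pow]
    exact h8 _ hx
  · intro x hx y hy
    change f (x * y * x⁻¹ * y⁻¹) ∈ K
    rw [map_mul, map_mul, map_mul, map_inv, map_inv]
    exact h9 _ hx _ hy
  · intro g hg
    refine h10 (f g) ?_
    intro x hx
    obtain ⟨y, rfl⟩ := hf x
    have h11 := hg y hx
    change f (g * y * g⁻¹ * y⁻¹) ∈ K at h11
    rwa [map_mul, map_mul, map_mul, map_inv, map_inv] at h11

end Pool.Agent.KBY
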