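import Pool.Agent.KBY.DefsG

/-! Pure group theory: series of normal subgroups. -/

set_option autoImplicit false

namespace Pool.Agent.KBY

private theorem SerR_dvd {G : Type} [Group G] {H M K : Subgroup G} (hH : H.Normal)
    (hMK : M ≤ K) : H.relIndex M ∣ H.relIndex K := by
  have h1 : (H.subgroupOf K).relIndex (M.subgroupOf K) = H.relIndex M :=
    Subgroup.relIndex_subgroupOf hMK
  have h2 : (H.subgroupOf K).Normal := inferInstance
  rw [← h1]
  exact Subgroup.relIndex_dvd_index_of_normal _ _

private theorem SerR_ne {G : Type} [Group G] [Finite G] (H K : Subgroup G) :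
    0 < H.relIndex K :=
  Nat.pos_of_ne_zero (Subgroup.index_ne_zero_of_finite (H := H.subgroupOf K))

/-- PROOF. Intersect the series with `T` (in `T`: `(K i).subgroupOf T`). The factor
`(K (i+1) ∩ T) / (K i ∩ T)` is isomorphic to a subgroup of `K (i+1) / K i` (`K i` is normal), so its order
divides the order of this factor (`Subgroup.relIndex` computations: `(K i ∩ T).relIndex (K (i+1) ∩ T)`
divides `(K i).relIndex (K (i+1))`, e.g. `Subgroup.relIndex_dvd_of_le_left`-like lemmas or through the
quotient `G ⧸ K i`). -/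
theorem SerR_sub {G : Type} [Group G] [Finite G] (p : ℕ) (hp : p.Prime) (r n : ℕ)
    (N T : Subgroup G) (hNT : N ≤ T) (hN : Ser p r n N) : Ser p r n (N.subgroupOf T) := by
  obtain ⟨K, m, F, h0, hm, hF, hK⟩ := hN
  refine ⟨fun i => (K i).subgroupOf T, m, F, ?_, ?_, hF, ?_⟩
  · beta_reduce
    rw [h0]
  · beta_reduce
    rw [hm]
    exact Subgroup.comap_top _
  · intro i hi
    obtain ⟨h1, h2, h3, h4⟩ := hK i hi
    have hd : ((K i).subgroupOf T).relIndex ((K (i + 1)).subgroupOf T) ∣
        (K i).relIndex (K (i + 1)) := by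
      have e1 : ((K i).subgroupOf T).relIndex ((K (i + 1)).subgroupOf T) =
          (K i).relIndex (K (i + 1) ⊓ T) := by
        rw [← Subgroup.inf_subgroupOf_right (K (i + 1)) T]
        exact Subgroup.relIndex_subgroupOf inf_le_right
      rw [e1]
      exact SerR_dvd h1 inf_le_left
    refine ⟨inferInstance, Subgroup.comap_mono h2, ?_, ?_⟩
    · intro hiF hpd
      exact h3 hiF (hpd.trans hd)
    · intro hiF
      obtain ⟨h5, h6, h7⟩ := h4 hiF
      refine ⟨?_, ?_, ?_⟩
      · intro x hx
        exact h5 x hx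
      · intro x hx y hy
        exact h6 x hx y hy
      · exact (Nat.le_of_dvd (SerR_ne _ _) hd).trans h7

private theorem SerR_chain {G : Type} [Group G] (p : ℕ) (hp : p.Prime) (K : ℕ → Subgroup G)
    (m : ℕ) (hle : ∀ i < m, K i ≤ K (i + 1)) (a : ℕ) :
    ∀ b, a ≤ b → b ≤ m → K a ≤ K b ∧
      ((∀ i, a ≤ i → i < b → ¬ p ∣ (K i).relIndex (K (i + 1))) →
        ¬ p ∣ (K a).relIndex (K b)) := by
  intro b hab
  induction b, hab using Nat.le_induction with
  | base =>
    intro _
    refine ⟨le_rfl, fun _ => ?_⟩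
    rw [Subgroup.relIndex_self]
    exact fun h => hp.one_lt.ne' (Nat.dvd_one.1 h)
  | succ b hab ih =>
    intro hb
    obtain ⟨h1, h2⟩ := ih (by omega)
    have h3 := hle b (by omega)
    refine ⟨h1.trans h3, fun h => ?_⟩
    rw [← Subgroup.relIndex_mul_relIndex (K a) (K b) (K (b + 1)) h1 h3]
    rw [hp.dvd_mul, not_or]
    exact ⟨h2 fun i hi hib => h i hi (by omega), h b hab (by omega)⟩

/-- The splitting at the last factor which is a nontrivial elementary abelian `p`-group. PROOF. Given
the series `K 0, ..., K m` with `F`. If `K i = K (i + 1)` for all `i ∈ F` with `i < m` then all indices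
`(K i).relIndex (K (i+1))` are prime to `p` and `N.index`, their product, is prime to `p`. Otherwise let
`i` be the largest element of `F` with `i < m`, `K i ≠ K (i+1)`; `L₁ = K i`, `L = K (i + 1)`. `L.index` is
the product of the later indices, prime to `p`. `L` is normal (`L = K (i+1)`, `i + 1 < m`, or `L = K m = ⊤`).
For `C₁ ≥ L₁`: the series `K 0 ⊓ C₁, ..., K i ⊓ C₁ = L₁, C₁` of `C₁` (in `C₁`), with
`F' = {j ∈ F | j < i}`, which has at most `n - 1` elements. -/
theorem SerR_split {G : Type} [Group G] [Finite G] (p : ℕ) (hp : p.Prime) (r n : ℕ)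
    (N : Subgroup G) (hN : Ser p r n N) :
    ¬ p ∣ N.index ∨ ∃ (L₁ L : Subgroup G) (n' : ℕ), n' + 1 ≤ n ∧ L₁.Normal ∧ L.Normal ∧ N ≤ L₁ ∧
      L₁ ≤ L ∧ L₁ ≠ L ∧ (∀ x ∈ L, x ^ p ∈ L₁) ∧ (∀ x ∈ L, ∀ y ∈ L, x * y * x⁻¹ * y⁻¹ ∈ L₁) ∧
      L₁.relIndex L ≤ p ^ r ∧ ¬ p ∣ L.index ∧
      ∀ C₁ : Subgroup G, C₁.Normal → L₁ ≤ C₁ → ¬ p ∣ L₁.relIndex C₁ →
        Ser p r n' (N.subgroupOf C₁) := by
  classical
  obtain ⟨K, m, F, h0, hm, hF, hK⟩ := hN
  have hle : ∀ i < m, K i ≤ K (i + 1) := fun i hi => (hK i hi).2.1
  have htriv : ∀ i < m, K i = K (i + 1) → ¬ p ∣ (K i).relIndex (K (i + 1)) := by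
    intro i _ he
    rw [← he, Subgroup.relIndex_self]
    exact fun h => hp.one_lt.ne' (Nat.dvd_one.1 h)
  let B : Finset ℕ := F.filter (fun i => i < m ∧ K i ≠ K (i + 1))
  rcases B.eq_empty_or_nonempty with hB | hB
  · left
    have h1 := (SerR_chain p hp K m hle 0 m (Nat.zero_le _) le_rfl).2 (by
      intro i _ hi
      by_cases hiF : i ∈ F
      · refine htriv i hi ?_
        by_contra hne
        have : i ∈ B := Finset.mem_filter.2 ⟨hiF, hi, hne⟩
        rw [hB] at this
        exact absurd this (Finset.notMem_empty _)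
      · exact (hK i hi).2.2.1 hiF)
    rwa [h0, hm, Subgroup.relIndex_top_right] at h1
  · right
    let i := B.max' hB
    have hiB : i ∈ B := B.max'_mem hB
    obtain ⟨hiF, him, hine⟩ := Finset.mem_filter.1 hiB
    obtain ⟨g1, g2, -, g4⟩ := hK i him
    obtain ⟨g5, g6, g7⟩ := g4 hiF
    have hcard : (F.filter (fun j => j < i)).card + 1 ≤ n := by
      have h1 : insert i (F.filter (fun j => j < i)) ⊆ F := by
        intro j hj
        rw [Finset.mem_insert] at hj
        rcases hj with rfl | hj
        · exact hiF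
        · exact (Finset.mem_filter.1 hj).1
      have h2 := Finset.card_le_card h1
      rw [Finset.card_insert_of_notMem (by
        rw [Finset.mem_filter]
        exact fun h => lt_irrefl _ h.2)] at h2
      exact h2.trans hF
    have hLn : (K (i + 1)).Normal := by
      rcases Nat.lt_or_ge (i + 1) m with h | h
      · exact (hK (i + 1) h).1
      · have h1 : i + 1 = m := by omega
        rw [h1, hm]
        infer_instance
    refine ⟨K i, K (i + 1), (F.filter (fun j => j < i)).card, hcard, g1, hLn, ?_, g2, hine, g5, g6,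
      g7, ?_, ?_⟩
    · rw [← h0]
      exact (SerR_chain p hp K m hle 0 i (Nat.zero_le _) him.le).1
    · have h1 := (SerR_chain p hp K m hle (i + 1) m (by omega) le_rfl).2 (by
        intro j hij hjm
        by_cases hjF : j ∈ F
        · refine htriv j hjm ?_
          by_contra hne
          have h2 : j ∈ B := Finset.mem_filter.2 ⟨hjF, hjm, hne⟩
          have h3 := B.le_max' j h2
          change j ≤ i at h3
          omega
        · exact (hK j hjm).2.2.1 hjF)
      rwa [hm, Subgroup.relIndex_top_right] at h1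
    · intro C₁ hC₁ hLC hpC
      have hKC : ∀ j ≤ i, K j ≤ C₁ := fun j hj =>
        (SerR_chain p hp K m hle j i hj him.le).1.trans hLC
      refine ⟨fun j => if j ≤ i then (K j).subgroupOf C₁ else ⊤, i + 1,
        F.filter (fun j => j < i), ?_, ?_, le_rfl, ?_⟩
      · beta_reduce
        rw [if_pos (Nat.zero_le _), h0]
      · beta_reduce
        rw [if_neg (by omega)]
      · intro j hj
        have hji : j ≤ i := by omega
        obtain ⟨k1, k2, k3, k4⟩ := hK j (by omega)
        beta_reduce
        rw [if_pos hji]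
        rcases Nat.lt_or_ge j i with hlt | hge
        · rw [if_pos (by omega : j + 1 ≤ i)]
          have e1 : ((K j).subgroupOf C₁).relIndex ((K (j + 1)).subgroupOf C₁) =
              (K j).relIndex (K (j + 1)) := Subgroup.relIndex_subgroupOf (hKC _ (by omega))
          refine ⟨inferInstance, Subgroup.comap_mono k2, ?_, ?_⟩
          · intro hn
            rw [e1]
            refine k3 fun h => hn ?_
            exact Finset.mem_filter.2 ⟨h, hlt⟩
          · intro hjF
            obtain ⟨h5, h6, h7⟩ := k4 (Finset.mem_filter.1 hjF).1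
            refine ⟨fun x hx => h5 x hx, fun x hx y hy => h6 x hx y hy, ?_⟩
            rw [e1]
            exact h7
        · have hji' : j = i := le_antisymm hji hge
          rw [if_neg (by omega : ¬ j + 1 ≤ i)]
          refine ⟨inferInstance, le_top, ?_, ?_⟩
          · intro _
            rw [Subgroup.relIndex_top_right, hji']
            exact hpC
          · intro hjF
            have := (Finset.mem_filter.1 hjF).2
            omega

end Pool.Agent.KBY
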