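import Pool.Agent.KBY.StB
import Pool.Agent.KBY.CovA
import Pool.Agent.KBY.DfC
import Pool.Agent.KBY.DfT
import Pool.Agent.KBY.DfL
import Pool.Agent.KBY.FRe
import Pool.Agent.KBY.Gl
import Pool.Agent.KBY.SerR

/-! The step of the induction. -/

set_option autoImplicit false

namespace Pool.Agent.KBY

open Pool.Agent.KB Pool.Agent.KB.ContrAux Pool.Agent.KBL Pool.Agent.KBZ Pool.Agent.KBU
  Pool.Agent.KBQ

private theorem FinA_cg {A B G : Type} [Group A] [Group B] [Group G] {ι₁ : A →* B} {ι : B →* G}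
    (h₁ : Nrm ι₁) (h' : Nrm (ι.comp ι₁)) (b : B) (x : A) :
    h'.cg (ι b) x = h₁.cg b x := by
  apply h'.inj
  rw [h'.cg_spec, MonoidHom.comp_apply, MonoidHom.comp_apply, h₁.cg_spec, map_mul, map_mul, map_inv]

private theorem FinA_cg2 {A B G : Type} [Group A] [Group B] [Group G] {ι₁ : A →* B} {ι : B →* G}
    (h : Nrm ι) (h' : Nrm (ι.comp ι₁)) (g : G) (x : A) :
    h.cg g (ι₁ x) = ι₁ (h'.cg g x) := by
  apply h.inj
  rw [h.cg_spec]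
  exact (h'.cg_spec g x).symm

private theorem FinA_over {A B G : Type} [Group A] [Fintype A] [Group B] [Group G] {ι₁ : A →* B}
    {ι : B →* G} (h : Nrm ι) (h' : Nrm (ι.comp ι₁)) (g : G) (χ : B → ℂ) (θ : A → ℂ)
    (ho : Over ι₁ χ θ) : Over ι₁ (tw h g χ) (tw h' g θ) := by
  unfold Over at ho ⊢
  convert ho using 1
  refine Fintype.sum_equiv (h'.cg g).toEquiv _ _ fun a => ?_
  rw [tw_apply, tw_apply, FinA_cg2 h h', map_inv]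
  rfl

/-- The step for a stable block. Here `C₁`, `C₂` are normal subgroups of `G`.
PROOF. Let `ι₁ : C₁ →* C₂` be the inclusion (`Subgroup.inclusion hle`), `ι = C₂.subtype`,
`ι.comp ι₁ = C₁.subtype`. `Y = block 𝔪 θ₁` (`θ₁ ∈ Irr C₁`), stable under `G` (`hst`, `tw_same`, `tw_irr`).
`block 𝔪 χ ⊆ Abv C₁.subtype Y`: for `χ' ∈ block 𝔪 χ` take `θ' ∈ Irr C₁` under `χ'` (`ClA_ex`), it is in `Y`
(`CovA_stable`). So `StB_main` gives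
`(block 𝔪 χ).ncard ≤ C * C₁.relIndex C₂ * (block 𝔪 θ₁).ncard` (`ι₁.range.index = C₁.relIndex C₂`, the block
is finite). Defects: let `θ₂ ∈ Irr C₂` be under `χ` and over `θ₁` (`ClA_trans`). `C₁.relIndex C₂ = p ^ k`
(`C₂ / C₁` has exponent `p`: `IsPGroup`, `IsPGroup.iff_card`). `DfC_main`:
`defect θ₁ + k ≤ defect θ₂` (the block of `θ₁` is stable in `C₂`). The block of `θ₂` is stable in `G`:
`tw _ g θ₂` is over `tw _ g θ₁ ∈ block 𝔪 θ₁`, so it is in `block 𝔪 θ₂` by `DfC_uniq`. `DfT_main`: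
`defect θ₂ ≤ defect χ`. -/
theorem FinA_step {G : Type} [Group G] [Fintype G] (p : ℕ) (hp : p.Prime) (𝔪 : Ideal AInt)
    (h𝔪 : 𝔪.IsMaximal) (hp𝔪 : (p : AInt) ∈ 𝔪) (r C : ℕ) (hK : KVB p r C) (C₁ C₂ : Subgroup G)
    [Fintype C₁] [Fintype C₂] (hn₁ : C₁.Normal) (hn₂ : C₂.Normal) (hle : C₁ ≤ C₂)
    (hr : C₁.relIndex C₂ ≤ p ^ r) (hidx : ¬ p ∣ C₂.index) (hpow : ∀ x ∈ C₂, x ^ p ∈ C₁)
    (hcom : ∀ x ∈ C₂, ∀ y ∈ C₂, x * y * x⁻¹ * y⁻¹ ∈ C₁)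
    (hfaith : ∀ g : G, (∀ x ∈ C₂, g * x * g⁻¹ * x⁻¹ ∈ C₁) → g ∈ C₂) (hι : Nrm C₁.subtype)
    (χ : G → ℂ) (hχ : χ ∈ Irr G) (θ₁ : C₁ → ℂ) (hθ₁ : θ₁ ∈ Irr C₁) (hov : Over C₁.subtype χ θ₁)
    (hst : ∀ g : G, SameBlock 𝔪 θ₁ (tw hι g θ₁)) :
    (block 𝔪 χ).ncard ≤ C * C₁.relIndex C₂ * (block 𝔪 θ₁).ncard ∧
      p ^ defect p (block 𝔪 θ₁) * C₁.relIndex C₂ ≤ p ^ defect p (block 𝔪 χ) := by
  obtain ⟨ι₁, hι₁⟩ : ∃ ι₁ : C₁ →* C₂, ι₁ = Subgroup.inclusion hle := ⟨_, rfl⟩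
  have hcomp : C₂.subtype.comp ι₁ = C₁.subtype := by rw [hι₁]; rfl
  have hcoe : ∀ x : C₁, ((ι₁ x : C₂) : G) = x := by intro x; rw [hι₁]; rfl
  have hrange : ι₁.range = C₁.subgroupOf C₂ := by
    rw [hι₁]
    exact Subgroup.inclusion_range hle
  have h₁ : Nrm ι₁ := by
    refine Nrm.of_range ?_ ?_
    · intro a b hab
      apply Subtype.ext
      rw [← hcoe, ← hcoe, hab]
    · rw [hrange]
      exact hn₁.subgroupOf C₂
  have h : Nrm C₂.subtype := Nrm.subtype C₂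
  have hindex : ι₁.range.index = C₁.relIndex C₂ := by rw [hrange]; rfl
  have hcom1 : ∀ x y : C₂, ∃ a, ι₁ a = x * y * x⁻¹ * y⁻¹ := by
    intro x y
    exact ⟨⟨_, hcom x x.2 y y.2⟩, Subtype.ext (by rw [hcoe]; rfl)⟩
  have hpow1 : ∀ x : C₂, ∃ a, ι₁ a = x ^ p := by
    intro x
    exact ⟨⟨_, hpow x x.2⟩, Subtype.ext (by rw [hcoe]; rfl)⟩
  have hidx1 : ¬ p ∣ C₂.subtype.range.index := by rwa [Subgroup.range_subtype]
  have hfaith1 : ∀ g : G, (∀ b : C₂, ∃ a, C₂.subtype (ι₁ a) = g * C₂.subtype b * g⁻¹ *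
      (C₂.subtype b)⁻¹) → ∃ b, C₂.subtype b = g := by
    intro g hg
    refine ⟨⟨g, hfaith g fun x hx => ?_⟩, rfl⟩
    obtain ⟨a, ha⟩ := hg ⟨x, hx⟩
    have h2 : (a : G) = g * x * g⁻¹ * x⁻¹ := (hcoe a).symm.trans ha
    rw [← h2]
    exact a.2
  revert hov
  revert hι
  rw [← hcomp]
  intro h' hst hov
  have hθb : θ₁ ∈ block 𝔪 θ₁ := ⟨hθ₁, same_refl 𝔪 θ₁⟩
  have hY : ∀ g : G, ∀ y ∈ block 𝔪 θ₁, tw h' g y ∈ block 𝔪 θ₁ := by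
    intro g y hy
    exact ⟨tw_irr h' g hy.1, same_trans (hst g) (tw_same h' 𝔪 g hy.2)⟩
  constructor
  · have h2 := StB_main h₁ h h' p hp r C hK hcom1 hpow1 (by rw [hindex]; exact hr) hidx1 hfaith1
      (block 𝔪 θ₁) (fun y hy => hy.1) hY
    rw [hindex] at h2
    refine le_trans (Set.ncard_le_ncard ?_ ?_) h2
    · intro χ' hχ'
      obtain ⟨θ', hθ', ho'⟩ := ClA_ex (C₂.subtype.comp ι₁) h'.inj χ' hχ'.1
      exact ⟨hχ'.1, θ', CovA_stable h' 𝔪 h𝔪 χ χ' hχ hχ' θ₁ θ' hθ₁ hθ' hov ho' hst, ho'⟩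
    · exact (@Set.toFinite _ (Irr G) (Col_finite G)).subset fun x hx => hx.1
  · obtain ⟨θ₂, hθ₂, ho1, ho2⟩ := (ClA_trans ι₁ h₁.inj C₂.subtype h.inj χ hχ θ₁ hθ₁).1 hov
    obtain ⟨k, hk⟩ : ∃ k, ι₁.range.index = p ^ k := by
      haveI := h₁.normal
      haveI : Fact p.Prime := ⟨hp⟩
      have hpg : IsPGroup p (C₂ ⧸ ι₁.range) := by
        intro x
        induction x using QuotientGroup.induction_on with
        | H z =>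
          refine ⟨1, ?_⟩
          rw [pow_one, ← QuotientGroup.mk_pow, QuotientGroup.eq_one_iff]
          obtain ⟨a, ha⟩ := hpow1 z
          exact ⟨a, ha⟩
      obtain ⟨k, hk⟩ := IsPGroup.iff_card.1 hpg
      exact ⟨k, by rw [Subgroup.index_eq_card]; exact hk⟩
    have hst1 : ∀ g : C₂, SameBlock 𝔪 θ₁ (tw h₁ g θ₁) := by
      intro g
      have h3 := hst (C₂.subtype g)
      have h4 : tw h' (C₂.subtype g) θ₁ = tw h₁ g θ₁ := by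
        funext x
        rw [tw_apply, tw_apply, FinA_cg h₁ h']
      rwa [h4] at h3
    have hd1 := DfC_main h₁ p hp 𝔪 h𝔪 hp𝔪 θ₂ hθ₂ θ₁ hθ₁ ho2 hst1 k hk
    have hst2 : ∀ g : G, SameBlock 𝔪 θ₂ (tw h g θ₂) := by
      intro g
      exact (DfC_uniq h₁ p hp 𝔪 h𝔪 hp𝔪 θ₂ (tw h g θ₂) hθ₂ (tw_irr h g hθ₂) θ₁ (tw h' g θ₁) hθ₁
        (hY g θ₁ hθb) ho2 (FinA_over h h' g θ₂ θ₁ ho2) k hk).2
    have hd2 := DfT_main h p hp 𝔪 h𝔪 hp𝔪 χ hχ θ₂ hθ₂ ho1 hst2 hidx1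
    rw [← hindex, hk, ← pow_add]
    exact Nat.pow_le_pow_right hp.pos (hd1.trans hd2)

end Pool.Agent.KBY
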