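import Pool.Agent.KBY.FinA

/-! The induction. -/

set_option autoImplicit false

namespace Pool.Agent.KBY

open Pool.Agent.KB Pool.Agent.KB.ContrAux Pool.Agent.KBL Pool.Agent.KBZ Pool.Agent.KBU
  Pool.Agent.KBQ

/-- The hypothesis of the base, for the group `G`. -/
private def Bas (p : ℕ) (𝔪 : Ideal AInt) (M : ℕ) {N : Type} [Group N] [Fintype N] (θ : N → ℂ)
    {G : Type} [Group G] (ι : N →* G) : Prop :=
  ∀ (K : Type) [Group K] [Fintype K] (j : K →* G) (κ : N →* K), Function.Injective j →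
      (∀ x, j (κ x) = ι x) → ¬ p ∣ κ.range.index → ∀ ψ ∈ Irr K, Over κ ψ θ →
      (block 𝔪 ψ).ncard ≤ M * p ^ defect p (block 𝔪 ψ)

private theorem Bas_sub (p : ℕ) (𝔪 : Ideal AInt) (M : ℕ) {N : Type} [Group N] [Fintype N]
    (θ : N → ℂ) {G : Type} [Group G] (ι : N →* G) (hB : Bas p 𝔪 M θ ι) (T : Subgroup G)
    (κ : N →* T) (hκ : ∀ x, ((κ x : T) : G) = ι x) : Bas p 𝔪 M θ κ := by
  intro K _ _ j κ' hj hjκ hidx ψ hψ hov
  refine hB K (T.subtype.comp j) κ' ?_ ?_ hidx ψ hψ hov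
  · intro a b hab
    exact hj (Subtype.ext hab)
  · intro x
    change ((j (κ' x) : T) : G) = ι x
    rw [hjκ, hκ]

private theorem Nrm_sub {N G : Type} [Group N] [Group G] {ι : N →* G} (h : Nrm ι)
    (T : Subgroup G) (κ : N →* T) (hκ : ∀ x, ((κ x : T) : G) = ι x) : Nrm κ where
  inj := by
    intro a b hab
    apply h.inj
    rw [← hκ, ← hκ, hab]
  nrm k x := by
    obtain ⟨y, hy⟩ := h.nrm (k : G) x
    refine ⟨y, Subtype.ext ?_⟩
    rw [hκ, hy, ← hκ]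
    rfl

private theorem range_sub {N G : Type} [Group N] [Group G] {ι : N →* G}
    (T : Subgroup G) (κ : N →* T) (hκ : ∀ x, ((κ x : T) : G) = ι x) :
    κ.range = ι.range.subgroupOf T := by
  ext t
  rw [Subgroup.mem_subgroupOf]
  constructor
  · rintro ⟨x, rfl⟩
    exact ⟨x, (hκ x).symm⟩
  · rintro ⟨x, hx⟩
    exact ⟨x, Subtype.ext ((hκ x).trans hx)⟩

private theorem FinB_ind (p : ℕ) (hp : p.Prime) (𝔪 : Ideal AInt) (h𝔪 : 𝔪.IsMaximal)
    (hp𝔪 : (p : AInt) ∈ 𝔪) (r C M : ℕ) (hC1 : 1 ≤ C) (hK : KVB p r C) {N : Type} [Group N]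
    [Fintype N] (θ : N → ℂ) (hθ : θ ∈ Irr N) (k : ℕ) : ∀ (n : ℕ) (G : Type) [Group G] [Fintype G]
    (ι : N →* G), Nat.card G ≤ k → Nrm ι → Ser p r n ι.range → Bas p 𝔪 M θ ι → ∀ χ ∈ Irr G,
    Over ι χ θ → (block 𝔪 χ).ncard ≤ M * C ^ n * p ^ defect p (block 𝔪 χ) := by
  induction k with
  | zero =>
    intro n G _ _ ι hc
    exact absurd hc (by have := Nat.card_pos (α := G); omega)
  | succ k ih =>
    intro n G _ _ ι hc h hser hB χ hχ hov
    rcases SerR_split p hp r n ι.range hser with hidx | hsp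
    · have h1 := hB G (MonoidHom.id G) ι Function.injective_id (fun x => rfl) hidx χ hχ hov
      refine h1.trans (Nat.mul_le_mul_right _ ?_)
      exact Nat.le_mul_of_pos_right M (pow_pos hC1 n)
    · obtain ⟨L₁, L, n', hn', hL₁, hL, hNL, hLL, hne, hpow, hcom, hrk, hLi, hC⟩ := hsp
      obtain ⟨C₁, C₂, hn₁, hn₂, hLC, hCC, hLC₂, hrel, hCi, hC₂i, hpw, hcm, hfa⟩ :=
        Gl_main p hp L₁ L hL₁ hL hLL hpow hcom hLi
      have : Fintype C₁ := Fintype.ofFinite _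
      have : Fintype C₂ := Fintype.ofFinite _
      have hι : Nrm C₁.subtype := Nrm.subtype C₁
      have hNC : ∀ x, ι x ∈ C₁ := fun x => hLC (hNL ⟨x, rfl⟩)
      obtain ⟨ι₁, hι₁⟩ : ∃ ι₁ : N →* C₁, ∀ x, ((ι₁ x : C₁) : G) = ι x :=
        ⟨ι.codRestrict C₁ hNC, fun x => rfl⟩
      have hcomp : C₁.subtype.comp ι₁ = ι := by
        ext x
        exact hι₁ x
      have hNi : Nrm ι₁ := Nrm_sub h C₁ ι₁ hι₁
      have hov' : Over (C₁.subtype.comp ι₁) χ θ := by rw [hcomp]; exact hov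
      obtain ⟨θ₁, hθ₁, ho1, ho2⟩ := (ClA_trans ι₁ hNi.inj C₁.subtype hι.inj χ hχ θ hθ).1 hov'
      by_cases hT : StB 𝔪 hι θ₁ = ⊤
      · -- the stable case
        have hst : ∀ g : G, SameBlock 𝔪 θ₁ (tw hι g θ₁) := by
          intro g
          rw [← StB_mem, hT]
          exact Subgroup.mem_top g
        obtain ⟨hs1, hs2⟩ := FinA_step p hp 𝔪 h𝔪 hp𝔪 r C hK C₁ C₂ hn₁ hn₂ hCC
          (by rw [hrel]; exact hrk) hC₂i hpw hcm hfa hι χ hχ θ₁ hθ₁ ho1 hst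
        have hlt : Nat.card C₁ ≤ k := by
          have h1 : C₁ ≠ ⊤ := by
            intro h1
            apply hne
            have h2 : C₁.relIndex C₂ = 1 := by
              rw [h1]
              exact Subgroup.relIndex_top_left C₂
            rw [hrel, Subgroup.relIndex_eq_one] at h2
            exact le_antisymm hLL h2
          by_contra hcc
          exact h1 (Subgroup.eq_top_of_le_card C₁ (by omega))
        have h3 := ih n' C₁ ι₁ hlt hNi (by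
          rw [range_sub C₁ ι₁ hι₁]
          exact hC C₁ hn₁ hLC hCi) (Bas_sub p 𝔪 M θ ι hB C₁ ι₁ hι₁) θ₁ hθ₁ ho2
        calc (block 𝔪 χ).ncard ≤ C * C₁.relIndex C₂ * (block 𝔪 θ₁).ncard := hs1
          _ ≤ C * C₁.relIndex C₂ * (M * C ^ n' * p ^ defect p (block 𝔪 θ₁)) :=
              Nat.mul_le_mul_left _ h3
          _ = M * C ^ (n' + 1) * (p ^ defect p (block 𝔪 θ₁) * C₁.relIndex C₂) := by ring
          _ ≤ M * C ^ (n' + 1) * p ^ defect p (block 𝔪 χ) := Nat.mul_le_mul_left _ hs2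
          _ ≤ M * C ^ n * p ^ defect p (block 𝔪 χ) :=
              Nat.mul_le_mul_right _ (Nat.mul_le_mul_left _ (Nat.pow_le_pow_right hC1 hn'))
      · -- the theorem of Fong and Reynolds
        obtain ⟨κ, ψ, hκ, hκn, hψ, hψo, hk, hd⟩ :=
          FRe_main hι p hp 𝔪 h𝔪 hp𝔪 χ hχ θ₁ hθ₁ ho1
        obtain ⟨T, hTe⟩ : ∃ T, T = StB 𝔪 hι θ₁ := ⟨_, rfl⟩
        rw [← hTe] at hT
        revert κ ψ
        rw [← hTe]
        intro κ ψ hκ hκn hψ hψo hk hd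
        have : Fintype T := Fintype.ofFinite _
        have hκ' : ∀ x, (((κ.comp ι₁) x : T) : G) = ι x := by
          intro x
          rw [MonoidHom.comp_apply, hκ]
          exact hι₁ x
        have hlt : Nat.card T ≤ k := by
          by_contra hcc
          exact hT (Subgroup.eq_top_of_le_card T (by omega))
        have hNT : ι.range ≤ T := by
          rintro _ ⟨x, rfl⟩
          rw [← hκ' x]
          exact ((κ.comp ι₁) x).2
        have hψθ : Over (κ.comp ι₁) ψ θ :=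
          (ClA_trans ι₁ hNi.inj κ hκn.inj ψ hψ θ hθ).2 ⟨θ₁, hθ₁, hψo, ho2⟩
        have h3 := ih n T (κ.comp ι₁) hlt (Nrm_sub h T _ hκ') (by
          rw [range_sub T _ hκ']
          exact SerR_sub p hp r n ι.range T hNT hser) (Bas_sub p 𝔪 M θ ι hB T _ hκ') ψ hψ hψθ
        calc (block 𝔪 χ).ncard ≤ (block 𝔪 ψ).ncard := hk
          _ ≤ M * C ^ n * p ^ defect p (block 𝔪 ψ) := h3
          _ ≤ M * C ^ n * p ^ defect p (block 𝔪 χ) :=
              Nat.mul_le_mul_left _ (Nat.pow_le_pow_right hp.pos hd)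

/-- PROOF. Strong induction on `Nat.card G` (for all `n`, `ι`, `χ`). `SerR_split` for `N := ι.range`. If
`¬ p ∣ ι.range.index`: `hB` with `K := G`, `j = id`, `κ = ι`; `M ≤ M * C ^ n` if `1 ≤ C`; (`hC1`).
Otherwise `L₁`, `L`, `n'`; `Gl_main` gives `C₁`, `C₂`. `N ≤ L₁ ≤ C₁`; `ι₁ : N →* C₁` the corestriction of
`ι`. `ClA_trans`: `θ₁ ∈ Irr C₁` under `χ` and over `θ`. Let `T = StB 𝔪 hι θ₁` (`hι = Nrm.subtype C₁`).
CASE `T ≠ ⊤`. `FRe_main` (for `C₁.subtype`, `θ₁`): `ψ ∈ Irr T` over `θ₁` (via `κ : C₁ →* T`), so over `θ` via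
`κ.comp ι₁ : N →* T` (`ClA_trans`), `k(χ) ≤ k(ψ)`, `defect ψ ≤ defect χ`. `|T| < |G|`, and `Ser p r n` holds
for `(κ.comp ι₁).range = ι.range.subgroupOf T` (`SerR_sub`); `hB` passes to `T` (compose `j` with
`T.subtype`); `Nrm (κ.comp ι₁)`. Induction: `k(ψ) ≤ M C^n p^(defect ψ) ≤ M C^n p^(defect χ)`.
CASE `T = ⊤`: `StB_mem` gives the hypothesis `hst` of `FinA_step` (`L₁.relIndex L ≤ p ^ r`). `C₁ ≠ ⊤` since
`C₁.relIndex C₂ = L₁.relIndex L ≠ 1`. Induction for `C₁` (`Ser p r n'` for `N.subgroupOf C₁`; `hB` passes to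
`C₁`): `k(θ₁) ≤ M C^n' p^(defect θ₁)`. So `k(χ) ≤ C |C₂:C₁| M C^n' p^(defect θ₁) ≤ M C^(n'+1) p^(defect χ)
≤ M C^n p^(defect χ)`. -/
theorem FinB_main (p : ℕ) (hp : p.Prime) (𝔪 : Ideal AInt) (h𝔪 : 𝔪.IsMaximal)
    (hp𝔪 : (p : AInt) ∈ 𝔪) (r C M : ℕ) (hC1 : 1 ≤ C) (hK : KVB p r C) {N : Type} [Group N]
    [Fintype N] (θ : N → ℂ) (hθ : θ ∈ Irr N) (n : ℕ) {G : Type} [Group G] [Fintype G] {ι : N →* G}
    (h : Nrm ι) (hser : Ser p r n ι.range)
    (hB : ∀ (K : Type) [Group K] [Fintype K] (j : K →* G) (κ : N →* K), Function.Injective j →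
      (∀ x, j (κ x) = ι x) → ¬ p ∣ κ.range.index → ∀ ψ ∈ Irr K, Over κ ψ θ →
      (block 𝔪 ψ).ncard ≤ M * p ^ defect p (block 𝔪 ψ))
    (χ : G → ℂ) (hχ : χ ∈ Irr G) (hov : Over ι χ θ) :
    (block 𝔪 χ).ncard ≤ M * C ^ n * p ^ defect p (block 𝔪 χ) := by
  exact FinB_ind p hp 𝔪 h𝔪 hp𝔪 r C M hC1 hK θ hθ (Nat.card G) n G ι le_rfl h hser hB χ hχ hov

/-- The case without a bound for the factors. HINT: `Ser p r 0`: the index of `ι.range` is prime to `p`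
(`SerR_split` with `n = 0`), so `hB` applies directly to `K := G`. -/
theorem FinB_zero (p : ℕ) (hp : p.Prime) (𝔪 : Ideal AInt) (r M : ℕ) {N : Type} [Group N]
    [Fintype N] (θ : N → ℂ) {G : Type} [Group G] [Fintype G] {ι : N →* G}
    (h : Nrm ι) (hser : Ser p r 0 ι.range)
    (hB : ∀ (K : Type) [Group K] [Fintype K] (j : K →* G) (κ : N →* K), Function.Injective j →
      (∀ x, j (κ x) = ι x) → ¬ p ∣ κ.range.index → ∀ ψ ∈ Irr K, Over κ ψ θ →
      (block 𝔪 ψ).ncard ≤ M * p ^ defect p (block 𝔪 ψ))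
    (χ : G → ℂ) (hχ : χ ∈ Irr G) (hov : Over ι χ θ) :
    (block 𝔪 χ).ncard ≤ M * p ^ defect p (block 𝔪 χ) := by
  rcases SerR_split p hp r 0 ι.range hser with hidx | ⟨_, _, n', hn', _⟩
  · exact hB G (MonoidHom.id G) ι Function.injective_id (fun x => rfl) hidx χ hχ hov
  · omega

end Pool.Agent.KBY
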