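import Pool.Agent.KBY.UpA
import Pool.Agent.KBY.ClA

/-! The central characters at the invariant central elements of a normal subgroup. -/

set_option autoImplicit false

namespace Pool.Agent.KBY

open Pool.Agent.KB Pool.Agent.KB.ContrAux Pool.Agent.KBL Pool.Agent.KBZ Pool.Agent.KBU
  Pool.Agent.KBQ

/-- PROOF. For `a : A` let `w = z * of a`. By `Up_mul`, `Up_of`, `Up_ctr` and `Alg_schur`:
`ev χ (up ι w) = omg χ (up ι z) * χ (ι a)`. On the other hand `ev χ (up ι w) = ev (χ ∘ ι) w`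
(`Up_ev`) `= ∑ φ mlt ι χ φ * ev φ (z * of a)` (`ClA_sum`; `ev` is linear in the function, by its
definition) `= ∑ φ mlt ι χ φ * omg φ z * φ a` (`Alg_schur` for `φ ∈ Irr A`, `z` is central by `Up_ctrA`,
`CenA_basic` for `ev φ (of a) = φ a`). And `χ (ι a) = ∑ φ mlt ι χ φ * φ a`. So
`∑ φ mlt ι χ φ * (omg φ z - omg χ (up ι z)) * φ a = 0` for all `a`. Multiply by `θ a⁻¹`, sum over `a`
and use `Col_row`: `|A| * mlt ι χ θ * (omg θ z - omg χ (up ι z)) = 0`; `mlt ι χ θ ≠ 0` by `ClA_over`. -/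
theorem KOne_main {A G : Type} [Group A] [Fintype A] [Group G] [Fintype G] {ι : A →* G}
    (h : Nrm ι) (χ : G → ℂ) (hχ : χ ∈ Irr G) (θ : A → ℂ) (hθ : θ ∈ Irr A) (hov : Over ι χ θ)
    (z : MonoidAlgebra AInt A) (hz : Inv h z) : omg χ (up ι z) = omg θ z := by
  classical
  set c := omg χ (up ι z) with hc
  have h1 : ∀ a, ∑ φ ∈ irrF A, ((mlt ι χ φ : ℂ) * (omg φ z - c)) * φ a = 0 := by
    intro a
    have e1 : ev χ (up ι (z * MonoidAlgebra.of AInt A a)) = c * χ (ι a) := by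
      rw [Up_mul, Up_of, Alg_schur χ hχ _ _ (Up_ctr h z hz), (CenA_basic χ).2.2]
    have e3 : ev (fun a => χ (ι a)) (z * MonoidAlgebra.of AInt A a) =
        ∑ φ ∈ irrF A, (mlt ι χ φ : ℂ) * ev φ (z * MonoidAlgebra.of AInt A a) := by
      have e4 : ev (fun a => χ (ι a)) (z * MonoidAlgebra.of AInt A a) =
          ∑ g : A, (((z * MonoidAlgebra.of AInt A a).coeff g : AInt) : ℂ) *
            ∑ φ ∈ irrF A, (mlt ι χ φ : ℂ) * φ g := by
        unfold ev
        refine Finset.sum_congr rfl fun g _ => ?_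
        rw [← ClA_sum ι h.inj χ hχ]
      rw [e4]
      simp only [Finset.mul_sum]
      rw [Finset.sum_comm]
      refine Finset.sum_congr rfl fun φ _ => ?_
      unfold ev
      rw [Finset.mul_sum]
      refine Finset.sum_congr rfl fun g _ => ?_
      ring
    have e2 : ev χ (up ι (z * MonoidAlgebra.of AInt A a)) =
        ∑ φ ∈ irrF A, (mlt ι χ φ : ℂ) * (omg φ z * φ a) := by
      rw [Up_ev, e3]
      refine Finset.sum_congr rfl fun φ hφ => ?_
      rw [Alg_schur φ (mem_irrF.1 hφ) _ _ (Up_ctrA h z hz), (CenA_basic φ).2.2]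
    have e5 := ClA_sum ι h.inj χ hχ a
    have e6 : ∑ φ ∈ irrF A, ((mlt ι χ φ : ℂ) * (omg φ z - c)) * φ a =
        ∑ φ ∈ irrF A, (mlt ι χ φ : ℂ) * (omg φ z * φ a) -
          c * ∑ φ ∈ irrF A, (mlt ι χ φ : ℂ) * φ a := by
      rw [Finset.mul_sum, ← Finset.sum_sub_distrib]
      refine Finset.sum_congr rfl fun φ _ => ?_
      ring
    rw [e6, ← e2, ← e5, e1, sub_self]
  have h2 : ∑ a : A, (∑ φ ∈ irrF A, ((mlt ι χ φ : ℂ) * (omg φ z - c)) * φ a) * θ a⁻¹ = 0 :=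
    Finset.sum_eq_zero fun a _ => by rw [h1, zero_mul]
  have h3 : ∑ a : A, (∑ φ ∈ irrF A, ((mlt ι χ φ : ℂ) * (omg φ z - c)) * φ a) * θ a⁻¹ =
      ∑ φ ∈ irrF A, ((mlt ι χ φ : ℂ) * (omg φ z - c)) * ∑ a : A, φ a * θ a⁻¹ := by
    simp only [Finset.sum_mul, Finset.mul_sum]
    rw [Finset.sum_comm]
    refine Finset.sum_congr rfl fun φ _ => Finset.sum_congr rfl fun a _ => ?_
    ring
  rw [h3, Finset.sum_eq_single θ] at h2
  · rw [(Col_row θ θ hθ hθ).1 rfl] at h2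
    have hA : (Nat.card A : ℂ) ≠ 0 := by
      have : 0 < Nat.card A := Nat.card_pos
      exact_mod_cast this.ne'
    have hm : (mlt ι χ θ : ℂ) ≠ 0 := by
      exact_mod_cast (ClA_over ι h.inj χ hχ θ hθ).1 hov
    rcases mul_eq_zero.1 h2 with h4 | h4
    · rcases mul_eq_zero.1 h4 with h5 | h5
      · exact absurd h5 hm
      · exact (sub_eq_zero.1 h5).symm
    · exact absurd h4 hA
  · intro φ hφ hne
    rw [(Col_row φ θ (mem_irrF.1 hφ) hθ).2 hne, mul_zero]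
  · intro h4
    exact absurd (mem_irrF.2 hθ) h4

end Pool.Agent.KBY
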