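import Pool.Agent.KBY.ClA
import Pool.Agent.KBZ.Res

/-! Induced class functions: Frobenius reciprocity. -/

set_option autoImplicit false

namespace Pool.Agent.KBY

open Pool.Agent.KB Pool.Agent.KB.ContrAux Pool.Agent.KBL Pool.Agent.KBZ Pool.Agent.KBU
  Pool.Agent.KBQ

/-- HINT: for `g = 1` the condition `x * 1 * x⁻¹ ∈ T` holds and the value is `ψ 1`; the sum is
`|G| ψ 1`, and `|G| = |T| * T.index`. -/
theorem Frb_one {G : Type} [Group G] [Fintype G] (T : Subgroup G) (ψ : T → ℂ) :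
    indc T ψ 1 = (T.index : ℂ) * ψ 1 := by
  classical
  have hT : (Nat.card T : ℂ) ≠ 0 := by
    have : Nat.card T ≠ 0 := Nat.card_pos.ne'
    exact_mod_cast this
  have h1 : ∀ x : G, (if hx : x * 1 * x⁻¹ ∈ T then ψ ⟨x * 1 * x⁻¹, hx⟩ else 0) = ψ 1 := by
    intro x
    have e : x * 1 * x⁻¹ = 1 := by group
    have hm : x * 1 * x⁻¹ ∈ T := by rw [e]; exact T.one_mem
    rw [dif_pos hm]
    congr 1
    exact Subtype.ext e
  have h2 : (Nat.card G : ℂ) = (Nat.card T : ℂ) * (T.index : ℂ) := by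
    exact_mod_cast (Subgroup.card_mul_index T).symm
  unfold indc
  rw [Finset.sum_congr rfl fun x _ => h1 x, Finset.sum_const, Finset.card_univ, nsmul_eq_mul,
    ← Nat.card_eq_fintype_card, h2]
  field_simp

/-- HINT: substitute `x ↦ x * k⁻¹` in the sum (`Fintype.sum_equiv`, `Equiv.mulRight`). -/
theorem Frb_class {G : Type} [Group G] [Fintype G] (T : Subgroup G) (ψ : T → ℂ) (k g : G) :
    indc T ψ (k * g * k⁻¹) = indc T ψ g := by
  classical
  obtain ⟨F, hF⟩ : ∃ F : G → ℂ, F = fun y => if hy : y ∈ T then ψ ⟨y, hy⟩ else 0 := ⟨_, rfl⟩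
  have hind : ∀ g, indc T ψ g = (∑ x : G, F (x * g * x⁻¹)) / (Nat.card T : ℂ) := by
    intro g
    rw [hF]
    rfl
  rw [hind, hind]
  congr 1
  refine Fintype.sum_equiv (Equiv.mulRight k) _ _ fun x => ?_
  have e : x * (k * g * k⁻¹) * x⁻¹ = (x * k) * g * (x * k)⁻¹ := by group
  rw [e]
  rfl

/-- Frobenius reciprocity. PROOF. `|T| ∑ g, indc T ψ g * χ g⁻¹ = ∑ x ∑ g ψ°(x g x⁻¹) χ g⁻¹
= ∑ x ∑ g' ψ°(g') χ g'⁻¹` (`g' = x g x⁻¹`, `χ` a class function) `= |G| ∑ t : T, ψ t χ t⁻¹`, where `ψ°` is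
`ψ` on `T` and `0` outside. And `|G| = |T| * T.index`. -/
theorem Frb_main {G : Type} [Group G] [Fintype G] (T : Subgroup G) [Fintype T] (ψ : T → ℂ)
    (χ : G → ℂ) (hχ : ∀ k g : G, χ (k * g * k⁻¹) = χ g) :
    ∑ g : G, indc T ψ g * χ g⁻¹ = (T.index : ℂ) * ∑ t : T, ψ t * χ ((t : G)⁻¹) := by
  classical
  have hT : (Nat.card T : ℂ) ≠ 0 := by
    have : Nat.card T ≠ 0 := Nat.card_pos.ne'
    exact_mod_cast this
  have h2 : (Nat.card G : ℂ) = (Nat.card T : ℂ) * (T.index : ℂ) := by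
    exact_mod_cast (Subgroup.card_mul_index T).symm
  obtain ⟨F, hF⟩ : ∃ F : G → ℂ, F = fun y => if hy : y ∈ T then ψ ⟨y, hy⟩ else 0 := ⟨_, rfl⟩
  have hind : ∀ g, indc T ψ g = (∑ x : G, F (x * g * x⁻¹)) / (Nat.card T : ℂ) := by
    intro g
    rw [hF]
    rfl
  have h3 : ∀ x : G, ∑ g : G, F (x * g * x⁻¹) * χ g⁻¹ = ∑ g : G, F g * χ g⁻¹ := by
    intro x
    refine Fintype.sum_equiv (MulAut.conj x).toEquiv _ _ fun g => ?_
    have e1 : (MulAut.conj x).toEquiv g = x * g * x⁻¹ := rfl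
    have e2 : (x * g * x⁻¹)⁻¹ = x * g⁻¹ * x⁻¹ := by group
    rw [e1, e2, hχ]
  have h4 : ∑ g : G, F g * χ g⁻¹ = ∑ t : T, ψ t * χ ((t : G)⁻¹) := by
    have h5 : ∑ g : G, F g * χ g⁻¹ = ∑ g ∈ Finset.univ.filter (fun g => g ∈ T), F g * χ g⁻¹ := by
      rw [Finset.sum_filter]
      refine Finset.sum_congr rfl fun g _ => ?_
      by_cases hg : g ∈ T
      · rw [if_pos hg]
      · rw [if_neg hg, hF]
        simp only [dif_neg hg, zero_mul]
    rw [h5]
    symm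
    refine Finset.sum_bij (fun (t : T) _ => (t : G)) ?_ ?_ ?_ ?_
    · intro t _
      rw [Finset.mem_filter]
      exact ⟨Finset.mem_univ _, t.2⟩
    · intro t _ t' _ h
      exact Subtype.ext h
    · intro g hg
      rw [Finset.mem_filter] at hg
      exact ⟨⟨g, hg.2⟩, Finset.mem_univ _, rfl⟩
    · intro t _
      rw [hF]
      simp only [dif_pos t.2]
  have h6 : ∑ g : G, indc T ψ g * χ g⁻¹ =
      (1 / (Nat.card T : ℂ)) * ∑ x : G, ∑ g : G, F (x * g * x⁻¹) * χ g⁻¹ := by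
    rw [Finset.sum_comm, Finset.mul_sum]
    refine Finset.sum_congr rfl fun g _ => ?_
    rw [hind, ← Finset.sum_mul]
    ring
  rw [h6, Finset.sum_congr rfl fun x _ => h3 x, Finset.sum_const, Finset.card_univ, nsmul_eq_mul,
    ← Nat.card_eq_fintype_card, h2, h4]
  field_simp

/-- PROOF. `Col_main G` and `Res_expand` for the class function `indc T ψ` (`Frb_class`):
`|G| indc T ψ y = ∑ i, (∑ z, indc T ψ z * X i z⁻¹) * X i y`; by `Frb_main` the inner sum is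
`T.index * ∑ t ψ t * X i t⁻¹ = T.index * ∑ t, X i t * ψ t⁻¹ = T.index * mlt T.subtype (X i) ψ * |T|`
(`t ↦ t⁻¹`, `ClA_spec` with `T.subtype`). Divide by `|G| = |T| * T.index`; reindex to `irrF G`. -/
theorem Frb_sum {G : Type} [Group G] [Fintype G] (T : Subgroup G) [Fintype T] (ψ : T → ℂ)
    (hψ : ψ ∈ Irr T) (g : G) :
    indc T ψ g = ∑ χ ∈ irrF G, (mlt T.subtype χ ψ : ℂ) * χ g := by
  classical
  have hT : (Nat.card T : ℂ) ≠ 0 := by
    have : Nat.card T ≠ 0 := Nat.card_pos.ne'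
    exact_mod_cast this
  have hG : (Nat.card G : ℂ) ≠ 0 := by
    have : Nat.card G ≠ 0 := Nat.card_pos.ne'
    exact_mod_cast this
  have h2 : (Nat.card G : ℂ) = (Nat.card T : ℂ) * (T.index : ℂ) := by
    exact_mod_cast (Subgroup.card_mul_index T).symm
  obtain ⟨K, X, hX, hr, h3, h4⟩ := Col_main G
  have hXI : ∀ i, X i ∈ Irr G := fun i => hr ▸ Set.mem_range_self i
  have h5 := Res_expand (indc T ψ) (fun y z h => by
    obtain ⟨c, hc⟩ := isConj_iff.1 h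
    rw [← hc, Frb_class]) X h3 h4 g
  have h6 : ∀ i, ∑ z : G, indc T ψ z * X i z⁻¹ =
      (Nat.card G : ℂ) * (mlt T.subtype (X i) ψ : ℂ) := by
    intro i
    rw [Frb_main T ψ (X i) (fun k g => irr_conj (hXI i)
      (isConj_iff.2 ⟨k⁻¹, by group⟩ : IsConj (k * g * k⁻¹) g))]
    have h7 := ClA_spec T.subtype (Subgroup.subtype_injective T) (X i) (hXI i) ψ hψ
    have h8 : ∑ t : T, ψ t * X i ((t : G)⁻¹) = ∑ a : T, X i (T.subtype a) * ψ a⁻¹ := by
      refine Fintype.sum_equiv (Equiv.inv T) _ _ fun t => ?_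
      rw [Equiv.inv_apply, inv_inv, mul_comm]
      rfl
    rw [h8, ← h7, h2]
    ring
  have h9 : ∑ i, (∑ z : G, indc T ψ z * X i z⁻¹) * X i g =
      (Nat.card G : ℂ) * ∑ i, (mlt T.subtype (X i) ψ : ℂ) * X i g := by
    rw [Finset.mul_sum]
    refine Finset.sum_congr rfl fun i _ => ?_
    rw [h6]
    ring
  rw [h9] at h5
  rw [mul_left_cancel₀ hG h5]
  refine Finset.sum_bij (fun i _ => X i) ?_ ?_ ?_ ?_
  · intro i _
    rw [mem_irrF, ← hr]
    exact ⟨i, rfl⟩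
  · intro i _ j _ h
    exact hX h
  · intro θ hθ
    rw [mem_irrF, ← hr] at hθ
    obtain ⟨i, hi⟩ := hθ
    exact ⟨i, Finset.mem_univ _, hi⟩
  · intro i _
    rfl

end Pool.Agent.KBY
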