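import Pool.Agent.KBY.ClC

/-! The orbits of a character under the group and under the stabilizer of a set. -/

set_option autoImplicit false

namespace Pool.Agent.KBY

open Pool.Agent.KB Pool.Agent.KB.ContrAux Pool.Agent.KBL Pool.Agent.KBZ Pool.Agent.KBU
  Pool.Agent.KBQ

/-- HINT: if `tw h g φ = φ` then `g ∈ T` (`c.dis`), and `tw c.nk t φ = tw h t φ` (`Ctx.tw_eq`). -/
theorem IndIA_stab {A G : Type} [Group A] [Group G] {ι : A →* G} {h : Nrm ι} {T : Subgroup G}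
    {κ : A →* T} {Y : Set (A → ℂ)} (c : Ctx h T κ Y) (φ : A → ℂ) (hφ : φ ∈ Y) :
    Nat.card {g : G // tw h g φ = φ} = Nat.card {t : T // tw c.nk t φ = φ} := by
  have hT : ∀ g : G, tw h g φ = φ → g ∈ T := by
    intro g hg
    by_contra hn
    exact c.dis g hn φ hφ (by rw [hg]; exact hφ)
  exact Nat.card_congr
    ⟨fun g => ⟨⟨g.1, hT g.1 g.2⟩, by rw [c.tw_eq]; exact g.2⟩,
      fun t => ⟨(t.1 : G), by rw [← c.tw_eq]; exact t.2⟩, fun g => rfl, fun t => rfl⟩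

/-- HINT: `ClC_card` for `h` and for `c.nk`, `IndIA_stab` and `|G| = |T| * T.index`
(`Subgroup.card_mul_index`); the number of the stabilizer is not zero. -/
theorem IndIA_orb {A G : Type} [Group A] [Group G] [Fintype G] {ι : A →* G} {h : Nrm ι}
    {T : Subgroup G} [Fintype T] {κ : A →* T} {Y : Set (A → ℂ)} (c : Ctx h T κ Y) (φ : A → ℂ)
    (hφ : φ ∈ Y) (O : Finset (A → ℂ)) (hO : ∀ θ', θ' ∈ O ↔ ∃ g, tw h g φ = θ')
    (O' : Finset (A → ℂ)) (hO' : ∀ θ', θ' ∈ O' ↔ ∃ t, tw c.nk t φ = θ') :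
    O.card = T.index * O'.card := by
  have h1 := ClC_card h φ O hO
  have h2 := ClC_card c.nk φ O' hO'
  have h3 := IndIA_stab c φ hφ
  have h4 := Subgroup.card_mul_index T
  have hpos : 0 < Nat.card {t : T // tw c.nk t φ = φ} := by
    haveI : Nonempty {t : T // tw c.nk t φ = φ} := ⟨⟨1, tw_one _ _⟩⟩
    exact Nat.card_pos
  rw [h3] at h1
  have e : O.card * Nat.card {t : T // tw c.nk t φ = φ} =
      (T.index * O'.card) * Nat.card {t : T // tw c.nk t φ = φ} := by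
    rw [h1, ← h4, ← h2]
    ring
  exact Nat.eq_of_mul_eq_mul_right hpos e

/-- A `G`-conjugate of `φ ∈ Y` which is in `Y` is a `T`-conjugate. -/
theorem IndIA_conj {A G : Type} [Group A] [Group G] {ι : A →* G} {h : Nrm ι} {T : Subgroup G}
    {κ : A →* T} {Y : Set (A → ℂ)} (c : Ctx h T κ Y) (φ φ' : A → ℂ) (hφ : φ ∈ Y) (hφ' : φ' ∈ Y)
    (g : G) (hg : tw h g φ = φ') : ∃ t : T, tw c.nk t φ = φ' := by
  have hT : g ∈ T := by
    by_contra hn
    exact c.dis g hn φ hφ (by rw [hg]; exact hφ')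
  exact ⟨⟨g, hT⟩, by rw [c.tw_eq]; exact hg⟩

/-- The standard example: `T` is the stabilizer of the block of `θ`, `Y` is the block. HINT: `κ a =
⟨ι a, StB_in 𝔪 h hθ a⟩`; `g ∈ StB 𝔪 h θ` iff `SameBlock 𝔪 θ (tw h g θ)`; `tw_same`, `same_trans`,
`same_symm`; if `φ` and `tw h g φ` are in the block of `θ` then `tw h g θ` is in the block of `tw h g φ`,
so `g` is in the stabilizer. -/
theorem IndIA_block {A G : Type} [Group A] [Group G] {ι : A →* G} (h : Nrm ι) (𝔪 : Ideal AInt)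
    (θ : A → ℂ) (hθ : θ ∈ Irr A) :
    ∃ κ : A →* StB 𝔪 h θ, Ctx h (StB 𝔪 h θ) κ (block 𝔪 θ) := by
  let κ : A →* StB 𝔪 h θ := ι.codRestrict (StB 𝔪 h θ) (fun a => StB_in 𝔪 h hθ a)
  have hκ : ∀ a, (κ a : G) = ι a := fun a => rfl
  refine ⟨κ, ?_, hκ, fun φ hφ => hφ.1, ?_, ?_⟩
  · constructor
    · intro a b hab
      apply h.inj
      rw [← hκ, ← hκ, hab]
    · intro g x
      obtain ⟨y, hy⟩ := h.nrm (g : G) x
      refine ⟨y, Subtype.ext ?_⟩
      rw [hκ, hy]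
      rfl
  · intro t φ hφ
    refine ⟨tw_irr h _ hφ.1, same_trans ((StB_mem 𝔪 h θ t).1 t.2) (tw_same h 𝔪 t hφ.2)⟩
  · intro g hg φ hφ hφ'
    apply hg
    rw [StB_mem]
    exact same_trans hφ'.2 (same_symm (tw_same h 𝔪 g hφ.2))

end Pool.Agent.KBY
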