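import Pool.Agent.KBY.IndIA
import Pool.Agent.KBY.Frb

/-! The Clifford correspondence for the stabilizer of a set of characters. -/

set_option autoImplicit false

namespace Pool.Agent.KBY

open Pool.Agent.KB Pool.Agent.KB.ContrAux Pool.Agent.KBL Pool.Agent.KBZ Pool.Agent.KBU
  Pool.Agent.KBQ

/-- PROOF. Write `m = mlt T.subtype χ ψ`, `e = mlt ι χ φ`, `f = mlt κ ψ φ`; `m, f > 0` (`ClA_over`).
`ι = T.subtype.comp κ` (`c.kap`), so `e = ∑ ψ' ∈ irrF T, mlt T.subtype χ ψ' * mlt κ ψ' φ ≥ m * f`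
(`ClA_comp`); in particular `e > 0`, so `χ` is over `φ`. `ClC_main` for `h` and for `c.nk`:
`χ 1 = e * |O| * φ 1`, `ψ 1 = f * |O'| * φ 1`, `|O| = T.index * |O'|` (`IndIA_orb`). By `Frb_sum`, `Frb_one`
(with degrees as natural numbers, `irr_deg`): `T.index * ψ 1 = ∑ χ' mlt T.subtype χ' ψ * χ' 1 ≥ m * χ 1
= m * e * T.index * |O'| * φ 1 ≥ m * m * f * T.index * |O'| * φ 1 = m * m * T.index * ψ 1`.
So `m = 1`, `e = f`, and `mlt T.subtype χ' ψ = 0` for `χ' ≠ χ`; by `Frb_sum` `indc T ψ = χ`. -/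
theorem IndIB_main {A G : Type} [Group A] [Fintype A] [Group G] [Fintype G] {ι : A →* G}
    {h : Nrm ι} {T : Subgroup G} [Fintype T] {κ : A →* T} {Y : Set (A → ℂ)} (c : Ctx h T κ Y)
    (χ : G → ℂ) (hχ : χ ∈ Irr G) (ψ : T → ℂ) (hψ : ψ ∈ Irr T) (φ : A → ℂ) (hφ : φ ∈ Y)
    (h1 : Over T.subtype χ ψ) (h2 : Over κ ψ φ) :
    mlt T.subtype χ ψ = 1 ∧ mlt ι χ φ = mlt κ ψ φ ∧ indc T ψ = χ := by
  have hcomp : ι = T.subtype.comp κ := MonoidHom.ext fun a => (c.kap a).symm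
  have hφI := c.irr φ hφ
  have hsi := Subgroup.subtype_injective T
  have hm : mlt T.subtype χ ψ ≠ 0 := (ClA_over T.subtype hsi χ hχ ψ hψ).1 h1
  have hf : mlt κ ψ φ ≠ 0 := (ClA_over κ c.nk.inj ψ hψ φ hφI).1 h2
  have he : mlt T.subtype χ ψ * mlt κ ψ φ ≤ mlt ι χ φ := by
    rw [hcomp, ClA_comp κ c.nk.inj T.subtype hsi χ hχ φ hφI]
    exact Finset.single_le_sum (f := fun ψ' => mlt T.subtype χ ψ' * mlt κ ψ' φ)
      (fun _ _ => Nat.zero_le _) (mem_irrF.2 hψ)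
  have he0 : mlt ι χ φ ≠ 0 := by
    have := Nat.mul_pos (Nat.pos_of_ne_zero hm) (Nat.pos_of_ne_zero hf)
    omega
  have hov : Over ι χ φ := (ClA_over ι h.inj χ hχ φ hφI).2 he0
  obtain ⟨O, hO, -, hO3⟩ := ClC_main h χ hχ φ hφI hov
  obtain ⟨O', hO', -, hO'3⟩ := ClC_main c.nk ψ hψ φ hφI h2
  have horb := IndIA_orb c φ hφ O hO O' hO'
  obtain ⟨dχ, hdχ, hdχ'⟩ := irr_deg hχ
  obtain ⟨dψ, hdψ, hdψ'⟩ := irr_deg hψ
  obtain ⟨dφ, hdφ, hdφ'⟩ := irr_deg hφI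
  have hdeg : ∀ χ' ∈ irrF G, ∃ n : ℕ, 0 < n ∧ χ' 1 = n := fun χ' h' => irr_deg (mem_irrF.1 h')
  obtain ⟨D, hD⟩ : ∃ D : (G → ℂ) → ℕ, ∀ χ' ∈ irrF G, 0 < D χ' ∧ χ' 1 = D χ' := by
    classical
    refine ⟨fun χ' => if h' : χ' ∈ irrF G then (hdeg χ' h').choose else 0, fun χ' h' => ?_⟩
    simp only [dif_pos h']
    exact (hdeg χ' h').choose_spec
  -- the degree of the induced class function
  have hsum : T.index * dψ = ∑ χ' ∈ irrF G, mlt T.subtype χ' ψ * D χ' := by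
    have h3 := Frb_sum T ψ hψ 1
    rw [Frb_one, hdψ'] at h3
    have h4 : ∑ χ' ∈ irrF G, (mlt T.subtype χ' ψ : ℂ) * χ' 1 =
        ((∑ χ' ∈ irrF G, mlt T.subtype χ' ψ * D χ' : ℕ) : ℂ) := by
      rw [Nat.cast_sum]
      refine Finset.sum_congr rfl fun χ' h' => ?_
      rw [(hD χ' h').2, Nat.cast_mul]
    rw [h4] at h3
    exact_mod_cast h3
  have e1 : dχ = mlt ι χ φ * O.card * dφ := by
    rw [hdχ', hdφ'] at hO3
    exact_mod_cast hO3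
  have e2 : dψ = mlt κ ψ φ * O'.card * dφ := by
    rw [hdψ', hdφ'] at hO'3
    exact_mod_cast hO'3
  have hDχ : D χ = dχ := by
    have h3 := (hD χ (mem_irrF.2 hχ)).2
    rw [hdχ'] at h3
    exact_mod_cast h3.symm
  have hle : mlt T.subtype χ ψ * dχ ≤ T.index * dψ := by
    rw [hsum, ← hDχ]
    exact Finset.single_le_sum (f := fun χ' => mlt T.subtype χ' ψ * D χ')
      (fun _ _ => Nat.zero_le _) (mem_irrF.2 hχ)
  have hI : 0 < T.index := Nat.pos_of_ne_zero Subgroup.index_ne_zero_of_finite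
  have hO'pos : 0 < O'.card := by
    rcases Nat.eq_zero_or_pos O'.card with h0 | h0
    · rw [h0] at e2
      simp at e2
      omega
    · exact h0
  have hP : 0 < T.index * O'.card * dφ := Nat.mul_pos (Nat.mul_pos hI hO'pos) hdφ
  have hle2 : mlt T.subtype χ ψ * mlt ι χ φ ≤ mlt κ ψ φ := by
    rw [e1, e2, horb] at hle
    refine Nat.le_of_mul_le_mul_right (c := T.index * O'.card * dφ) ?_ hP
    calc mlt T.subtype χ ψ * mlt ι χ φ * (T.index * O'.card * dφ) =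
        mlt T.subtype χ ψ * (mlt ι χ φ * (T.index * O'.card) * dφ) := by ring
      _ ≤ T.index * (mlt κ ψ φ * O'.card * dφ) := hle
      _ = mlt κ ψ φ * (T.index * O'.card * dφ) := by ring
  have hm1 : mlt T.subtype χ ψ = 1 := by
    by_contra hne
    have hm2 : 2 ≤ mlt T.subtype χ ψ := by omega
    have h3 : 2 * mlt ι χ φ ≤ mlt κ ψ φ := (Nat.mul_le_mul_right _ hm2).trans hle2
    have h4 : 2 * mlt κ ψ φ ≤ mlt ι χ φ := (Nat.mul_le_mul_right _ hm2).trans he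
    omega
  have hef : mlt ι χ φ = mlt κ ψ φ := by
    rw [hm1, one_mul] at hle2 he
    exact le_antisymm hle2 he
  refine ⟨hm1, hef, ?_⟩
  have heq : mlt T.subtype χ ψ * D χ = ∑ χ' ∈ irrF G, mlt T.subtype χ' ψ * D χ' := by
    rw [← hsum, hm1, one_mul, hDχ, e1, e2, horb, hef]
    ring
  classical
  have hzero : ∀ χ' ∈ irrF G, χ' ≠ χ → mlt T.subtype χ' ψ = 0 := by
    rw [← Finset.add_sum_erase (irrF G) (fun χ' => mlt T.subtype χ' ψ * D χ') (mem_irrF.2 hχ)] at heq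
    have h3 : ∑ χ' ∈ (irrF G).erase χ, mlt T.subtype χ' ψ * D χ' = 0 := by omega
    rw [Finset.sum_eq_zero_iff] at h3
    intro χ' hχ' hne
    have h4 := h3 χ' (Finset.mem_erase.2 ⟨hne, hχ'⟩)
    rcases Nat.mul_eq_zero.1 h4 with h5 | h5
    · exact h5
    · exact absurd h5 (hD χ' hχ').1.ne'
  funext g
  rw [Frb_sum T ψ hψ g, Finset.sum_eq_single χ]
  · rw [hm1, Nat.cast_one, one_mul]
  · intro χ' hχ' hne
    rw [hzero χ' hχ' hne]
    simp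
  · intro hn
    exact absurd (mem_irrF.2 hχ) hn

/-- Uniqueness. PROOF. Suppose `ψ' ≠ ψ`. `χ` is over `φ` and `φ'` (`ClA_trans`), so `φ' = tw h g φ`
(`ClB_conj`), and `φ' = tw c.nk t φ` with `t : T` (`IndIA_conj`); so `ψ'` is over `φ` (`ClB_tw` for
`c.nk`). By `ClA_comp` `mlt ι χ φ ≥ mlt T.subtype χ ψ * mlt κ ψ φ + mlt T.subtype χ ψ' * mlt κ ψ' φ
> mlt κ ψ φ`, contradiction to `IndIB_main`. -/
theorem IndIB_uniq {A G : Type} [Group A] [Fintype A] [Group G] [Fintype G] {ι : A →* G}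
    {h : Nrm ι} {T : Subgroup G} [Fintype T] {κ : A →* T} {Y : Set (A → ℂ)} (c : Ctx h T κ Y)
    (χ : G → ℂ) (hχ : χ ∈ Irr G) (ψ ψ' : T → ℂ) (hψ : ψ ∈ Irr T) (hψ' : ψ' ∈ Irr T)
    (φ φ' : A → ℂ) (hφ : φ ∈ Y) (hφ' : φ' ∈ Y) (h1 : Over T.subtype χ ψ)
    (h1' : Over T.subtype χ ψ') (h2 : Over κ ψ φ) (h2' : Over κ ψ' φ') : ψ' = ψ := by
  classical
  have hcomp : ι = T.subtype.comp κ := MonoidHom.ext fun a => (c.kap a).symm
  have hφI := c.irr φ hφ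
  have hφI' := c.irr φ' hφ'
  have hsi := Subgroup.subtype_injective T
  have hov : Over ι χ φ := by
    rw [hcomp]
    exact (ClA_trans κ c.nk.inj T.subtype hsi χ hχ φ hφI).2 ⟨ψ, hψ, h1, h2⟩
  have hov' : Over ι χ φ' := by
    rw [hcomp]
    exact (ClA_trans κ c.nk.inj T.subtype hsi χ hχ φ' hφI').2 ⟨ψ', hψ', h1', h2'⟩
  obtain ⟨g, hg⟩ := ClB_conj h χ hχ φ φ' hφI hφI' hov hov'
  obtain ⟨t, ht⟩ := IndIA_conj c φ φ' hφ hφ' g hg
  have h3 : Over κ ψ' φ := by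
    rw [← ht] at h2'
    exact (ClB_tw c.nk ψ' hψ' φ hφI t).1 h2'
  obtain ⟨hm, he, -⟩ := IndIB_main c χ hχ ψ hψ φ hφ h1 h2
  by_contra hne
  have h4 : mlt T.subtype χ ψ' ≠ 0 := (ClA_over T.subtype hsi χ hχ ψ' hψ').1 h1'
  have h5 : mlt κ ψ' φ ≠ 0 := (ClA_over κ c.nk.inj ψ' hψ' φ hφI).1 h3
  have h6 : mlt ι χ φ = ∑ θ ∈ irrF T, mlt T.subtype χ θ * mlt κ θ φ := by
    conv_lhs => rw [hcomp]
    exact ClA_comp κ c.nk.inj T.subtype hsi χ hχ φ hφI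
  have h7 : ∑ θ ∈ ({ψ, ψ'} : Finset (T → ℂ)), mlt T.subtype χ θ * mlt κ θ φ ≤
      ∑ θ ∈ irrF T, mlt T.subtype χ θ * mlt κ θ φ := by
    refine Finset.sum_le_sum_of_subset ?_
    intro θ hθ
    rcases Finset.mem_insert.1 hθ with h8 | h8
    · rw [h8]
      exact mem_irrF.2 hψ
    · rw [Finset.mem_singleton.1 h8]
      exact mem_irrF.2 hψ'
  rw [Finset.sum_pair (fun h8 => hne h8.symm), ← h6, he, hm, one_mul] at h7
  have h8 := Nat.mul_pos (Nat.pos_of_ne_zero h4) (Nat.pos_of_ne_zero h5)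
  omega

/-- PROOF. By `Frb_sum` and `Frb_one` (`indc T ψ 1 ≠ 0`) there is `χ ∈ Irr G` with
`mlt T.subtype χ ψ ≠ 0`; apply `IndIB_main`. -/
theorem IndIB_irr {A G : Type} [Group A] [Fintype A] [Group G] [Fintype G] {ι : A →* G}
    {h : Nrm ι} {T : Subgroup G} [Fintype T] {κ : A →* T} {Y : Set (A → ℂ)} (c : Ctx h T κ Y)
    (ψ : T → ℂ) (hψ : ψ ∈ Irr T) (φ : A → ℂ) (hφ : φ ∈ Y) (h2 : Over κ ψ φ) :
    indc T ψ ∈ Irr G ∧ Over T.subtype (indc T ψ) ψ := by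
  have hsi := Subgroup.subtype_injective T
  have hex : ∃ χ ∈ Irr G, Over T.subtype χ ψ := by
    by_contra hc
    push Not at hc
    have h1 := Frb_sum T ψ hψ 1
    rw [Frb_one] at h1
    have h3 : ∑ χ ∈ irrF G, (mlt T.subtype χ ψ : ℂ) * χ 1 = 0 := by
      refine Finset.sum_eq_zero fun χ hχ => ?_
      have h4 := hc χ (mem_irrF.1 hχ)
      rw [ClA_over T.subtype hsi χ (mem_irrF.1 hχ) ψ hψ, not_not] at h4
      rw [h4]
      simp
    rw [h3] at h1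
    rcases mul_eq_zero.1 h1 with h4 | h4
    · have h5 : T.index = 0 := by exact_mod_cast h4
      exact Subgroup.index_ne_zero_of_finite h5
    · exact Alg_ne hψ h4
  obtain ⟨χ, hχ, hov⟩ := hex
  obtain ⟨-, -, h3⟩ := IndIB_main c χ hχ ψ hψ φ hφ hov h2
  rw [h3]
  exact ⟨hχ, hov⟩

/-- HINT: `ClA_trans` with `ι = T.subtype.comp κ`. -/
theorem IndIB_ex {A G : Type} [Group A] [Fintype A] [Group G] [Fintype G] {ι : A →* G}
    {h : Nrm ι} {T : Subgroup G} [Fintype T] {κ : A →* T} {Y : Set (A → ℂ)} (c : Ctx h T κ Y)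
    (χ : G → ℂ) (hχ : χ ∈ Irr G) (φ : A → ℂ) (hφ : φ ∈ Y) (hov : Over ι χ φ) :
    ∃ ψ ∈ Irr T, Over κ ψ φ ∧ Over T.subtype χ ψ ∧ indc T ψ = χ := by
  have hcomp : ι = T.subtype.comp κ := MonoidHom.ext fun a => (c.kap a).symm
  have hsi := Subgroup.subtype_injective T
  rw [hcomp] at hov
  obtain ⟨ψ, hψ, h1, h2⟩ := (ClA_trans κ c.nk.inj T.subtype hsi χ hχ φ (c.irr φ hφ)).1 hov
  exact ⟨ψ, hψ, h2, h1, (IndIB_main c χ hχ ψ hψ φ hφ h1 h2).2.2⟩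

end Pool.Agent.KBY
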