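import Pool.Agent.KBY.Defs

/-! The inertial group, in a group with a normal subgroup, of a block of the centralizer of a
subgroup of the normal subgroup. -/

set_option autoImplicit false

namespace Pool.Agent.KBY

open Pool.Agent.KB Pool.Agent.KB.ContrAux Pool.Agent.KBL Pool.Agent.KBZ Pool.Agent.KBU
  Pool.Agent.KBQ

/-- `N` is a normal subgroup of `G` (with the injective homomorphism `ι : N → G`), `D` is a subgroup
of `N` and `ζ ∈ Irr (C_N(D))`. The set of the `g ∈ G` which normalize `D` and fix the block of `ζ`, i.e.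
`omega ζ y` and `omega ζ (g y g⁻¹)` are congruent modulo `𝔪` for all `y ∈ C_N(D)`. -/
def inertiaIn {N G : Type} [Group N] [Group G] (𝔪 : Ideal AInt) (ι : N →* G) (D : Subgroup N)
    (ζ : Subgroup.centralizer (D : Set N) → ℂ) : Set G :=
  {g | (∀ x : N, x ∈ D ↔ ∃ z ∈ D, ι z = g * ι x * g⁻¹) ∧
    ∀ y z : Subgroup.centralizer (D : Set N), g * ι y * g⁻¹ = ι z →
      ∃ c ∈ 𝔪, (c : ℂ) = omega ζ y - omega ζ z}

theorem Iner_eq {N G : Type} [Group N] [Group G] (𝔪 : Ideal AInt) {ι : N →* G} (h : Nrm ι)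
    (D : Subgroup N) (ζ : Subgroup.centralizer (D : Set N) → ℂ) (g : G) :
    g ∈ inertiaIn 𝔪 ι D ζ ↔ g ∈ ExS 𝔪 ι D (Subgroup.centralizer (D : Set N)).subtype ζ := by
  constructor
  · rintro ⟨h1, h2⟩
    refine ⟨fun x => ⟨?_, ?_⟩, fun y z hyz => h2 y z hyz⟩
    · rintro ⟨y, hy, rfl⟩
      obtain ⟨z, hz, hz'⟩ := (h1 y).1 hy
      exact ⟨z, hz, hz'⟩
    · rintro ⟨z, hz, hz'⟩
      obtain ⟨x', hx'⟩ := h.nrm g⁻¹ z
      have h3 : ι x' = x := by
        rw [hx', hz']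
        group
      refine ⟨x', ?_, h3⟩
      exact (h1 x').2 ⟨z, hz, by rw [hz', h3]⟩
  · rintro ⟨h1, h2⟩
    refine ⟨fun x => ⟨fun hx => ?_, ?_⟩, fun y z hyz => h2 y z hyz⟩
    · obtain ⟨z, hz, hz'⟩ := (h1 (ι x)).1 ⟨x, hx, rfl⟩
      exact ⟨z, hz, hz'⟩
    · rintro ⟨z, hz, hz'⟩
      obtain ⟨y, hy, hy'⟩ := (h1 (ι x)).2 ⟨z, hz, hz'⟩
      rwa [← h.inj hy']

end Pool.Agent.KBY
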