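import Pool.Agent.KBY.DefsG

/-! Pure group theory: commuting pairs in a semidirect product. -/

set_option autoImplicit false

namespace Pool.Agent.KBY

private theorem KeA_avg (p : ℕ) (hp : p.Prime) (H W : Type) [Group H] [Finite H] [CommGroup W]
    [MulDistribMulAction H W] (hH : ¬ p ∣ Nat.card H) (hW : ∀ w : W, w ^ p = 1) (U : Subgroup W)
    (w : W) (hw : ∀ h : H, (h • w) * w⁻¹ ∈ U) :
    ∃ c : W, (∀ h : H, h • c = c) ∧ w⁻¹ * c ∈ U := by
  classical
  have hFin : Fintype H := Fintype.ofFinite H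
  have hcop : Nat.Coprime (Nat.card H) p := ((Nat.Prime.coprime_iff_not_dvd hp).2 hH).symm
  obtain ⟨n, -, hn⟩ := Nat.exists_mul_mod_eq_one_of_coprime hcop hp.one_lt
  have hu : ∀ h : H, h • (∏ g : H, (g • w)) = ∏ g : H, (g • w) := by
    intro h
    rw [Finset.smul_prod']
    exact Fintype.prod_equiv (Equiv.mulLeft h) _ _ (fun g => by
      rw [smul_smul]
      rfl)
  have h1 : ∏ g : H, (g • w) = w ^ Nat.card H * ∏ g : H, ((g • w) * w⁻¹) := by
    rw [Nat.card_eq_fintype_card, ← Finset.card_univ, ← Finset.prod_const,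
      ← Finset.prod_mul_distrib]
    refine Finset.prod_congr rfl fun g _ => ?_
    rw [mul_comm (g • w) w⁻¹, mul_inv_cancel_left]
  have hU : ∏ g : H, ((g • w) * w⁻¹) ∈ U := Subgroup.prod_mem _ fun h _ => hw h
  refine ⟨(∏ g : H, (g • w)) ^ n, fun h => by rw [smul_pow', hu], ?_⟩
  have h2 : w ^ (Nat.card H * n) = w := by
    have h3 := Nat.div_add_mod (Nat.card H * n) p
    rw [hn] at h3
    rw [← h3, pow_succ, pow_mul, hW, one_pow, one_mul]
  rw [h1, mul_pow, ← pow_mul, h2, inv_mul_cancel_left]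
  exact U.pow_mem hU n

/-- PROOF. For commuting `s`, `t : S` the map `f : V × V → V`, `f (v, w) = v * (s • w) * (w * (t • v))⁻¹` is a
homomorphism; its image is `[V, s][V, t] = {products of (s • w) * w⁻¹ and v * (t • v)⁻¹}`, a subgroup `U`
which is invariant under `H = ⟨s, t⟩`, `H` acts trivially on `V / U`, and `V / U` has the same order as the
group `V^H` of fixed points: `V^H → V / U` is injective (for `v ∈ V^H ∩ U`: the product over `h ∈ H` of
`h • v` is `v ^ |H|`, and it is `1` since the product over `H` of `h • ((s • w) * w⁻¹)` is `1`; so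
`v ^ |H| = 1 = v ^ p`, `v = 1`) and surjective (averaging, as in `CpA_avg`). So the kernel of `f` has
`|V|² / |U| = |V| |V^H|` elements. -/
theorem KeA_pair (p : ℕ) (hp : p.Prime) (V S : Type) [CommGroup V] [Finite V] [Group S]
    [Finite S] [MulDistribMulAction S V] (hV : ∀ v : V, v ^ p = 1) (hS : ¬ p ∣ Nat.card S)
    (s t : S) (hst : s * t = t * s) :
    Nat.card {x : V × V // x.1 * (s • x.2) = x.2 * (t • x.1)} =
      Nat.card V * Nat.card {v : V // s • v = v ∧ t • v = v} := by
  classical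
  let f : V × V →* V :=
    { toFun := fun x => (x.1 * (s • x.2)) * (x.2 * (t • x.1))⁻¹
      map_one' := by simp
      map_mul' := by
        intro x y
        simp only [Prod.fst_mul, Prod.snd_mul, smul_mul', mul_inv]
        ac_rfl }
  have hf : ∀ x : V × V, f x = (x.1 * (s • x.2)) * (x.2 * (t • x.1))⁻¹ := fun _ => rfl
  let U : Subgroup V := f.range
  let H : Subgroup S := Subgroup.closure {s, t}
  have hsH : s ∈ H := Subgroup.subset_closure (Or.inl rfl)
  have htH : t ∈ H := Subgroup.subset_closure (Or.inr rfl)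
  have hFin : Fintype H := Fintype.ofFinite H
  have hcard : ¬ p ∣ Nat.card H := fun h => hS (h.trans (Subgroup.card_subgroup_dvd_card H))
  have hcop : Nat.Coprime (Nat.card H) p := ((Nat.Prime.coprime_iff_not_dvd hp).2 hcard).symm
  have hsU : ∀ v : V, (s • v) * v⁻¹ ∈ U := by
    intro v
    refine ⟨(1, v), ?_⟩
    rw [hf]
    simp
  have htU : ∀ v : V, (t • v) * v⁻¹ ∈ U := by
    intro v
    have h1 : v * (t • v)⁻¹ ∈ U := by
      refine ⟨(v, 1), ?_⟩
      rw [hf]
      simp
    have h2 := U.inv_mem h1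
    rwa [mul_inv_rev, inv_inv] at h2
  let T : Subgroup S :=
    { carrier := {h | ∀ v : V, (h • v) * v⁻¹ ∈ U}
      mul_mem' := by
        intro a b ha hb v
        have h1 : (a * b) • v * v⁻¹ = ((a • (b • v)) * (b • v)⁻¹) * ((b • v) * v⁻¹) := by
          rw [mul_smul, mul_assoc, inv_mul_cancel_left]
        rw [h1]
        exact U.mul_mem (ha _) (hb _)
      one_mem' := by
        intro v
        rw [one_smul, mul_inv_cancel]
        exact U.one_mem
      inv_mem' := by
        intro a ha v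
        have h1 := U.inv_mem (ha (a⁻¹ • v))
        rwa [smul_inv_smul, mul_inv_rev, inv_inv] at h1 }
  have hHT : H ≤ T := by
    rw [Subgroup.closure_le]
    rintro g (rfl | hg)
    · exact hsU
    · rw [Set.mem_singleton_iff] at hg
      rw [hg]
      exact htU
  have hfix : ∀ v : V, s • v = v → t • v = v → ∀ h ∈ H, h • v = v := by
    intro y h2 h3 h hh
    have h4 : H ≤ MulAction.stabilizer S y := by
      rw [Subgroup.closure_le]
      rintro g (rfl | hg)
      · exact h2
      · rw [Set.mem_singleton_iff] at hg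
        rw [hg]
        exact h3
    exact h4 hh
  -- the product over `H` of the conjugates of a commutator is trivial
  have hprod : ∀ g ∈ H, ∀ v : V, ∏ h : H, (h : S) • ((g • v) * v⁻¹) = 1 := by
    intro g hg v
    have h1 : ∏ h : H, (h : S) • ((g • v) * v⁻¹) =
        (∏ h : H, (h : S) • (g • v)) * (∏ h : H, (h : S) • v)⁻¹ := by
      rw [← Finset.prod_inv_distrib, ← Finset.prod_mul_distrib]
      refine Finset.prod_congr rfl fun h _ => ?_
      rw [smul_mul', smul_inv']
    have h2 : ∏ h : H, (h : S) • (g • v) = ∏ h : H, (h : S) • v := by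
      refine Fintype.prod_equiv (Equiv.mulRight (⟨g, hg⟩ : H)) _ _ fun h => ?_
      rw [smul_smul]
      rfl
    rw [h1, h2, mul_inv_cancel]
  have hpow1 : ∀ v : V, v ^ Nat.card H = 1 → v = 1 := by
    intro v hv
    have h1 := Nat.gcd_eq_gcd_ab (Nat.card H) p
    rw [hcop] at h1
    have h2 : v = (v ^ Nat.card H) ^ (Nat.gcdA (Nat.card H) p) *
        (v ^ p) ^ (Nat.gcdB (Nat.card H) p) := by
      rw [← zpow_natCast, ← zpow_natCast, ← zpow_mul, ← zpow_mul, ← zpow_add, ← h1]
      simp
    rw [h2, hv, hV, one_zpow, one_zpow, mul_one]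
  have hUfix : ∀ v ∈ U, s • v = v → t • v = v → v = 1 := by
    rintro v ⟨x, hx⟩ h1 h2
    apply hpow1
    have h3 : ∏ h : H, (h : S) • v = v ^ Nat.card H := by
      rw [Nat.card_eq_fintype_card, ← Finset.card_univ, ← Finset.prod_const]
      exact Finset.prod_congr rfl fun h _ => hfix v h1 h2 h.1 h.2
    rw [← h3]
    have h4 : v = ((s • x.2) * x.2⁻¹) * ((t • x.1) * x.1⁻¹)⁻¹ := by
      rw [← hx, hf]
      simp only [mul_inv_rev, inv_inv, mul_comm, mul_left_comm, mul_assoc]
    have h5 : ∏ h : H, (h : S) • v = (∏ h : H, (h : S) • ((s • x.2) * x.2⁻¹)) *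
        (∏ h : H, (h : S) • ((t • x.1) * x.1⁻¹))⁻¹ := by
      rw [← Finset.prod_inv_distrib, ← Finset.prod_mul_distrib]
      refine Finset.prod_congr rfl fun h _ => ?_
      conv_lhs => rw [h4]
      rw [smul_mul', smul_inv']
    rw [h5, hprod s hsH, hprod t htH, inv_one, mul_one]
  -- the fixed points and the quotient
  have hbij : Nat.card {v : V // s • v = v ∧ t • v = v} = U.index := by
    refine Nat.card_eq_of_bijective
      (fun v : {v : V // s • v = v ∧ t • v = v} => (QuotientGroup.mk v.1 : V ⧸ U)) ⟨?_, ?_⟩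
    · intro a b hab
      have h1 : a.1⁻¹ * b.1 ∈ U := QuotientGroup.eq.1 hab
      have h2 := hUfix _ h1 (by rw [smul_mul', smul_inv', a.2.1, b.2.1])
        (by rw [smul_mul', smul_inv', a.2.2, b.2.2])
      exact Subtype.ext (inv_mul_eq_one.1 h2)
    · intro y
      obtain ⟨v, rfl⟩ := QuotientGroup.mk_surjective y
      obtain ⟨c, hc1, hc2⟩ := KeA_avg p hp H V hcard hV U v (fun h => hHT h.2 v)
      exact ⟨⟨c, hc1 ⟨s, hsH⟩, hc1 ⟨t, htH⟩⟩, (QuotientGroup.eq.2 hc2).symm⟩
  have hker : Nat.card {x : V × V // x.1 * (s • x.2) = x.2 * (t • x.1)} = Nat.card f.ker := by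
    refine Nat.card_congr (Equiv.subtypeEquivRight fun x => ?_)
    rw [MonoidHom.mem_ker, hf, mul_inv_eq_one]
  have e1 : Nat.card f.ker * Nat.card U = Nat.card V * Nat.card V := by
    have h1 := Subgroup.card_mul_index f.ker
    rw [Subgroup.index_ker, Nat.card_prod] at h1
    exact h1
  have e2 : Nat.card U * U.index = Nat.card V := Subgroup.card_mul_index U
  rw [hker, hbij]
  have hU0 : 0 < Nat.card U := Nat.card_pos
  refine Nat.eq_of_mul_eq_mul_right hU0 ?_
  rw [e1, mul_assoc, mul_comm U.index, e2]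

/-- PROOF. Elements of the semidirect product are pairs `(v, s)` with
`(v, s) (w, t) = (v * (s • w), s * t)`; two elements `(v, s)`, `(w, t)` commute iff `s t = t s` and
`v * (s • w) = w * (t • v)`. Sum `KeA_pair` over the commuting pairs `(s, t)`. -/
theorem KeA_main (p : ℕ) (hp : p.Prime) (V S : Type) [CommGroup V] [Finite V] [Group S]
    [Finite S] [MulDistribMulAction S V] (hV : ∀ v : V, v ^ p = 1) (hS : ¬ p ∣ Nat.card S) :
    Nat.card {x : (V ⋊[MulDistribMulAction.toMulAut S V] S) ×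
      (V ⋊[MulDistribMulAction.toMulAut S V] S) // x.1 * x.2 = x.2 * x.1} =
      Nat.card V * Nat.card (Trp S V) := by
  classical
  have : Fintype {y : S × S // y.1 * y.2 = y.2 * y.1} := Fintype.ofFinite _
  let e1 : Trp S V ≃ Σ st : {y : S × S // y.1 * y.2 = y.2 * y.1},
      {x : V // st.1.1 • x = x ∧ st.1.2 • x = x} :=
    { toFun := fun y => ⟨⟨(y.1.1, y.1.2.1), y.2.1⟩, ⟨y.1.2.2, y.2.2⟩⟩
      invFun := fun z => ⟨(z.1.1.1, z.1.1.2, z.2.1), z.1.2, z.2.2⟩
      left_inv := fun _ => rfl
      right_inv := fun _ => rfl }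
  have key : ∀ x y : V ⋊[MulDistribMulAction.toMulAut S V] S, x * y = y * x ↔
      x.right * y.right = y.right * x.right ∧
        x.left * (x.right • y.left) = y.left * (y.right • x.left) := by
    intro x y
    constructor
    · intro h
      exact ⟨congrArg SemidirectProduct.right h, congrArg SemidirectProduct.left h⟩
    · rintro ⟨h1, h2⟩
      exact SemidirectProduct.ext h2 h1
  let e2 : {x : (V ⋊[MulDistribMulAction.toMulAut S V] S) ×
      (V ⋊[MulDistribMulAction.toMulAut S V] S) // x.1 * x.2 = x.2 * x.1} ≃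
      Σ st : {y : S × S // y.1 * y.2 = y.2 * y.1},
      {x : V × V // x.1 * (st.1.1 • x.2) = x.2 * (st.1.2 • x.1)} :=
    { toFun := fun z => ⟨⟨(z.1.1.right, z.1.2.right), ((key _ _).1 z.2).1⟩,
        ⟨(z.1.1.left, z.1.2.left), ((key _ _).1 z.2).2⟩⟩
      invFun := fun z => ⟨(⟨z.2.1.1, z.1.1.1⟩, ⟨z.2.1.2, z.1.1.2⟩), (key _ _).2 ⟨z.1.2, z.2.2⟩⟩
      left_inv := fun _ => rfl
      right_inv := fun _ => rfl }
  rw [Nat.card_congr e1, Nat.card_congr e2, Nat.card_sigma, Nat.card_sigma, Finset.mul_sum]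
  exact Finset.sum_congr rfl fun st _ => KeA_pair p hp V S hV hS st.1.1 st.1.2 st.2

/-- HINT: `(∑ over g, |C(g)|)` counts the commuting pairs and `|C(g)| * |class of g| = |G|`;
Mathlib: `card_comm_eq_card_conjClasses_mul_card`. -/
theorem KeA_cls (G : Type) [Group G] [Finite G] :
    Nat.card {x : G × G // x.1 * x.2 = x.2 * x.1} = Nat.card (ConjClasses G) * Nat.card G :=
  card_comm_eq_card_conjClasses_mul_card G

end Pool.Agent.KBY
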