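import Pool.Agent.KBY.Defs

/-! The group of the linear characters of `B` which are trivial on `A`. -/

set_option autoImplicit false

namespace Pool.Agent.KBY

open Pool.Agent.KB Pool.Agent.KB.ContrAux Pool.Agent.KBL Pool.Agent.KBZ Pool.Agent.KBU
  Pool.Agent.KBQ

private theorem LinA_norm {A B : Type} [Group A] [Group B] {ι : A →* B} (h : Nrm ι) :
    ι.range.Normal := by
  refine ⟨fun x hx g => ?_⟩
  obtain ⟨a, rfl⟩ := hx
  obtain ⟨y, hy⟩ := h.nrm g a
  exact ⟨y, hy⟩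

/-- The quotient as a commutative group. -/
private noncomputable abbrev LinA_V {A B : Type} [Group A] [Group B] (ι : A →* B)
    (hn : ι.range.Normal) (hcom : ∀ x y : B, ∃ a, ι a = x * y * x⁻¹ * y⁻¹) :
    CommGroup (B ⧸ ι.range) :=
  { (QuotientGroup.Quotient.group ι.range : Group (B ⧸ ι.range)) with
    mul_comm := by
      intro a b
      obtain ⟨x, rfl⟩ := QuotientGroup.mk_surjective a
      obtain ⟨y, rfl⟩ := QuotientGroup.mk_surjective b
      change ((x * y : B) : B ⧸ ι.range) = ((y * x : B) : B ⧸ ι.range)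
      rw [QuotientGroup.eq]
      obtain ⟨c, hc⟩ := hcom y⁻¹ x⁻¹
      refine ⟨c, ?_⟩
      rw [hc]
      group }

/-- HINT: `f (x ^ p) = f x ^ p` and `x ^ p` is in the range of `ι`. -/
theorem LinA_pow {A B : Type} [Group A] [Group B] (ι : A →* B) (p : ℕ)
    (hpow : ∀ x : B, ∃ a, ι a = x ^ p) (w : Wgp ι) : w ^ p = 1 := by
  apply Subtype.ext
  apply MonoidHom.ext
  intro x
  obtain ⟨a, ha⟩ := hpow x
  have h1 : ((w ^ p : Wgp ι) : B →* ℂˣ) x = ((w : B →* ℂˣ) x) ^ p := rfl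
  rw [h1, ← map_pow, ← ha]
  exact w.2 a

/-- PROOF. `V = B ⧸ ι.range` is a finite commutative group (`hcom`), and `Wgp ι` is in bijection with
`V →* ℂˣ` (`QuotientGroup.lift`, `QuotientGroup.mk'`); the dual of a finite commutative group is
isomorphic to the group (`CommGroup.monoidHom_mulEquiv_of_hasEnoughRootsOfUnity`, `ℂ` has enough roots
of unity), `Nat.card V = ι.range.index`. -/
theorem LinA_card {A B : Type} [Group A] [Group B] [Finite B] {ι : A →* B} (h : Nrm ι)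
    (hcom : ∀ x y : B, ∃ a, ι a = x * y * x⁻¹ * y⁻¹) :
    Finite (Wgp ι) ∧ Nat.card (Wgp ι) = ι.range.index := by
  classical
  have hn := LinA_norm h
  letI := LinA_V ι hn hcom
  have hne : NeZero (Monoid.exponent (B ⧸ ι.range)) := ⟨Monoid.exponent_ne_zero_of_finite⟩
  let e : Wgp ι ≃ ((B ⧸ ι.range) →* ℂˣ) :=
    { toFun := fun w => QuotientGroup.lift ι.range (w : B →* ℂˣ) (by
        rintro _ ⟨a, rfl⟩
        exact w.2 a)
      invFun := fun f => ⟨f.comp (QuotientGroup.mk' ι.range), fun a => by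
        rw [MonoidHom.comp_apply]
        have h1 : QuotientGroup.mk' ι.range (ι a) = 1 := (QuotientGroup.eq_one_iff _).2 ⟨a, rfl⟩
        rw [h1, map_one]⟩
      left_inv := fun w => by
        apply Subtype.ext
        apply MonoidHom.ext
        intro x
        rfl
      right_inv := fun f => by
        apply MonoidHom.ext
        intro x
        obtain ⟨y, rfl⟩ := QuotientGroup.mk_surjective x
        rfl }
  have hfin : Finite ((B ⧸ ι.range) →* ℂˣ) := by
    obtain ⟨f⟩ := CommGroup.monoidHom_mulEquiv_of_hasEnoughRootsOfUnity (B ⧸ ι.range) ℂ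
    exact Finite.of_equiv _ f.symm.toEquiv
  refine ⟨Finite.of_equiv _ e.symm, ?_⟩
  rw [Nat.card_congr e, CommGroup.card_monoidHom_of_hasEnoughRootsOfUnity]
  rfl

/-- The characters separate. HINT: the image of `x` in `V = B ⧸ ι.range` is not `1`;
`CommGroup.exists_apply_ne_one_of_hasEnoughRootsOfUnity`. -/
theorem LinA_sep {A B : Type} [Group A] [Group B] [Finite B] {ι : A →* B} (h : Nrm ι)
    (hcom : ∀ x y : B, ∃ a, ι a = x * y * x⁻¹ * y⁻¹) (x : B) (hx : ∀ a, ι a ≠ x) :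
    ∃ w ∈ Wgp ι, w x ≠ 1 := by
  classical
  have hn := LinA_norm h
  letI := LinA_V ι hn hcom
  have hne : NeZero (Monoid.exponent (B ⧸ ι.range)) := ⟨Monoid.exponent_ne_zero_of_finite⟩
  have h1 : (x : B ⧸ ι.range) ≠ 1 := by
    intro h2
    obtain ⟨a, ha⟩ := (QuotientGroup.eq_one_iff x).1 h2
    exact hx a ha
  obtain ⟨f, hf⟩ := CommGroup.exists_apply_ne_one_of_hasEnoughRootsOfUnity (B ⧸ ι.range) ℂ h1
  refine ⟨f.comp (QuotientGroup.mk' ι.range), fun a => ?_, hf⟩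
  rw [MonoidHom.comp_apply]
  have h2 : QuotientGroup.mk' ι.range (ι a) = 1 := (QuotientGroup.eq_one_iff _).2 ⟨a, rfl⟩
  rw [h2, map_one]

/-- The column relation. PROOF. If `x = ι a` all terms are `1` and the sum is the number of elements.
Otherwise take `w₀` with `w₀ x ≠ 1` (`LinA_sep`); `w ↦ w₀ * w` is a permutation, so
`w₀ x * ∑ = ∑` and the sum is `0`. -/
theorem LinA_sum {A B : Type} [Group A] [Group B] [Finite B] {ι : A →* B} (h : Nrm ι)
    (hcom : ∀ x y : B, ∃ a, ι a = x * y * x⁻¹ * y⁻¹) [Fintype (Wgp ι)] (x : B) :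
    ((∃ a, ι a = x) → ∑ w : Wgp ι, (((w : B →* ℂˣ) x : ℂˣ) : ℂ) = (ι.range.index : ℂ)) ∧
    ((∀ a, ι a ≠ x) → ∑ w : Wgp ι, (((w : B →* ℂˣ) x : ℂˣ) : ℂ) = 0) := by
  classical
  refine ⟨?_, fun hx => ?_⟩
  · rintro ⟨a, rfl⟩
    have h1 : ∀ w : Wgp ι, (((w : B →* ℂˣ) (ι a) : ℂˣ) : ℂ) = 1 := fun w => by
      rw [w.2 a, Units.val_one]
    rw [Finset.sum_congr rfl fun w _ => h1 w, Finset.sum_const, Finset.card_univ, nsmul_eq_mul,
      mul_one, ← Nat.card_eq_fintype_card, (LinA_card h hcom).2]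
  · obtain ⟨w₀, hw₀, h1⟩ := LinA_sep h hcom x hx
    have h2 : ((w₀ x : ℂˣ) : ℂ) * ∑ w : Wgp ι, (((w : B →* ℂˣ) x : ℂˣ) : ℂ) =
        ∑ w : Wgp ι, (((w : B →* ℂˣ) x : ℂˣ) : ℂ) := by
      rw [Finset.mul_sum, ← Equiv.sum_comp (Equiv.mulLeft (⟨w₀, hw₀⟩ : Wgp ι))
        (fun w : Wgp ι => (((w : B →* ℂˣ) x : ℂˣ) : ℂ))]
      refine Finset.sum_congr rfl fun w _ => ?_
      rfl
    have h3 : (((w₀ x : ℂˣ) : ℂ) - 1) * ∑ w : Wgp ι, (((w : B →* ℂˣ) x : ℂˣ) : ℂ) = 0 := by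
      rw [sub_mul, h2, one_mul, sub_self]
    rcases mul_eq_zero.1 h3 with h4 | h4
    · exfalso
      apply h1
      apply Units.ext
      rw [Units.val_one]
      exact sub_eq_zero.1 h4
    · exact h4

end Pool.Agent.KBY
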