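import Pool.Agent.KBY.LinA
import Pool.Agent.KBY.ClA

/-! Products of irreducible characters with linear characters. -/

set_option autoImplicit false

namespace Pool.Agent.KBY

open Pool.Agent.KB Pool.Agent.KB.ContrAux Pool.Agent.KBL Pool.Agent.KBZ Pool.Agent.KBU
  Pool.Agent.KBQ

/-- PROOF. Let `ρ` be an irreducible representation on `Fin n → ℂ` with character `x`. Define
`ρ' b = (w b : ℂ) • ρ b`, a representation with character `b ↦ w b * x b`; the invariant subspaces of `ρ'`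
and of `ρ` are the same (`w b ≠ 0`), so `ρ'` is irreducible (compare `Inf_iso`, `Inf_irr` in
`Pool.Agent.KBU.Inf`). -/
theorem LinB_irr {B : Type} [Group B] (w : B →* ℂˣ) (x : B → ℂ) (hx : x ∈ Irr B) :
    (fun b => ((w b : ℂˣ) : ℂ) * x b) ∈ Irr B := by
  obtain ⟨n, ρ, hρ, rfl⟩ := hx
  let ρ' : Representation ℂ B (Fin n → ℂ) :=
    { toFun := fun b => ((w b : ℂˣ) : ℂ) • ρ b
      map_one' := by rw [map_one, map_one, Units.val_one, one_smul]
      map_mul' := fun a b => by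
        rw [map_mul, map_mul, Units.val_mul, smul_mul_smul_comm] }
  have hρ' : ∀ b, ρ' b = ((w b : ℂˣ) : ℂ) • ρ b := fun _ => rfl
  let e : Subrepresentation ρ' ≃o Subrepresentation ρ :=
    { toFun := fun S => ⟨S.toSubmodule, fun b v hv => by
        have h1 := S.apply_mem_toSubmodule b hv
        rw [hρ', LinearMap.smul_apply] at h1
        exact (S.toSubmodule.smul_mem_iff (Units.ne_zero (w b))).1 h1⟩
      invFun := fun S => ⟨S.toSubmodule, fun b v hv => by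
        rw [hρ', LinearMap.smul_apply]
        exact S.toSubmodule.smul_mem _ (S.apply_mem_toSubmodule b hv)⟩
      left_inv := fun _ => rfl
      right_inv := fun _ => rfl
      map_rel_iff' := Iff.rfl }
  refine ⟨n, ρ', (OrderIso.isSimpleOrder_iff e).2 hρ, ?_⟩
  funext b
  change LinearMap.trace ℂ _ (ρ' b) = ((w b : ℂˣ) : ℂ) * LinearMap.trace ℂ _ (ρ b)
  rw [hρ', map_smul, smul_eq_mul]

/-- HINT: on the range of `ι` the two characters agree. -/
theorem LinB_over {A B : Type} [Group A] [Fintype A] [Group B] (ι : A →* B) (w : B →* ℂˣ)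
    (hw : w ∈ Wgp ι) (x : B → ℂ) (y : A → ℂ) :
    Over ι (fun b => ((w b : ℂˣ) : ℂ) * x b) y ↔ Over ι x y := by
  unfold Over
  have h1 : ∀ a : A, ((w (ι a) : ℂˣ) : ℂ) * x (ι a) * y a⁻¹ = x (ι a) * y a⁻¹ := by
    intro a
    rw [hw a, Units.val_one, one_mul]
  rw [Finset.sum_congr rfl fun a _ => h1 a]

/-- PROOF. `∑ w : Wgp ι, ∑ b, w b * x b * x' b⁻¹ = |W| ∑ a, x (ι a) * x' (ι a)⁻¹` (`LinA_sum`: exchange the
sums; the elements of the range of `ι` are the `ι a`, `ι` is injective), and by `ClA_sum`, `Col_row` the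
right side is `|W| |A| ∑ y' ∈ irrF A, mlt ι x y' * mlt ι x' y'`, a natural number `≠ 0` as the term for `y`
is not zero. (For `x' (ι a)⁻¹ = x' (ι a⁻¹) = ∑ mlt ι x' y' * y' a⁻¹`.) So for some `w` the inner sum is not
zero, and `Col_row` for the irreducible characters `w x` (`LinB_irr`) and `x'` gives `w x = x'`. -/
theorem LinB_trans {A B : Type} [Group A] [Fintype A] [Group B] [Fintype B] {ι : A →* B}
    (h : Nrm ι) (hcom : ∀ x y : B, ∃ a, ι a = x * y * x⁻¹ * y⁻¹) (x x' : B → ℂ) (hx : x ∈ Irr B)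
    (hx' : x' ∈ Irr B) (y : A → ℂ) (hy : y ∈ Irr A) (h1 : Over ι x y) (h2 : Over ι x' y) :
    ∃ w ∈ Wgp ι, x' = fun b => ((w b : ℂˣ) : ℂ) * x b := by
  classical
  obtain ⟨hfin, -⟩ := LinA_card h hcom
  have : Fintype (Wgp ι) := Fintype.ofFinite _
  have hidx : (ι.range.index : ℂ) ≠ 0 := by
    have : 0 < ι.range.index := Nat.pos_of_ne_zero Subgroup.index_ne_zero_of_finite
    exact_mod_cast this.ne'
  -- the sum over the group A
  have e1 : ∑ a : A, x (ι a) * x' (ι a)⁻¹ =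
      ((Nat.card A * ∑ y' ∈ irrF A, mlt ι x' y' * mlt ι x y' : ℕ) : ℂ) := by
    have h3 : ∀ a : A, x (ι a) * x' (ι a)⁻¹ =
        ∑ y' ∈ irrF A, (mlt ι x' y' : ℂ) * (x (ι a) * y' a⁻¹) := by
      intro a
      rw [← map_inv, ClA_sum ι h.inj x' hx' a⁻¹, Finset.mul_sum]
      refine Finset.sum_congr rfl fun y' _ => ?_
      ring
    rw [Finset.sum_congr rfl fun a _ => h3 a, Finset.sum_comm]
    have h4 : ∀ y' ∈ irrF A, ∑ a : A, (mlt ι x' y' : ℂ) * (x (ι a) * y' a⁻¹) =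
        (mlt ι x' y' : ℂ) * ((mlt ι x y' : ℂ) * (Nat.card A : ℂ)) := by
      intro y' hy'
      rw [← Finset.mul_sum, ClA_spec ι h.inj x hx y' (mem_irrF.1 hy')]
    rw [Finset.sum_congr rfl h4]
    push_cast
    rw [Finset.mul_sum]
    refine Finset.sum_congr rfl fun y' _ => ?_
    ring
  have e2 : ∑ a : A, x (ι a) * x' (ι a)⁻¹ ≠ 0 := by
    rw [e1, Nat.cast_ne_zero]
    have h5 : 0 < mlt ι x' y * mlt ι x y :=
      Nat.mul_pos (Nat.pos_of_ne_zero ((ClA_over ι h.inj x' hx' y hy).1 h2))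
        (Nat.pos_of_ne_zero ((ClA_over ι h.inj x hx y hy).1 h1))
    have h6 : mlt ι x' y * mlt ι x y ≤ ∑ y' ∈ irrF A, mlt ι x' y' * mlt ι x y' :=
      Finset.single_le_sum (f := fun y' => mlt ι x' y' * mlt ι x y') (fun _ _ => Nat.zero_le _)
        (mem_irrF.2 hy)
    have h7 : 0 < Nat.card A := Nat.card_pos
    exact (Nat.mul_pos h7 (h5.trans_le h6)).ne'
  -- the sum over the linear characters
  have e3 : ∑ w : Wgp ι, ∑ b : B, (((w : B →* ℂˣ) b : ℂˣ) : ℂ) * x b * x' b⁻¹ =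
      (ι.range.index : ℂ) * ∑ a : A, x (ι a) * x' (ι a)⁻¹ := by
    rw [Finset.sum_comm]
    have h3 : ∀ b : B, ∑ w : Wgp ι, (((w : B →* ℂˣ) b : ℂˣ) : ℂ) * x b * x' b⁻¹ =
        if b ∈ Finset.univ.image ι then (ι.range.index : ℂ) * (x b * x' b⁻¹) else 0 := by
      intro b
      have h4 : ∑ w : Wgp ι, (((w : B →* ℂˣ) b : ℂˣ) : ℂ) * x b * x' b⁻¹ =
          (∑ w : Wgp ι, (((w : B →* ℂˣ) b : ℂˣ) : ℂ)) * (x b * x' b⁻¹) := by
        rw [Finset.sum_mul]
        refine Finset.sum_congr rfl fun w _ => ?_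
        ring
      rw [h4]
      split_ifs with hb
      · obtain ⟨a, -, ha⟩ := Finset.mem_image.1 hb
        rw [(LinA_sum h hcom b).1 ⟨a, ha⟩]
      · rw [(LinA_sum h hcom b).2 fun a ha => hb (Finset.mem_image.2 ⟨a, Finset.mem_univ _, ha⟩),
          zero_mul]
    rw [Finset.sum_congr rfl fun b _ => h3 b, ← Finset.sum_filter, Finset.filter_mem_eq_inter,
      Finset.univ_inter, Finset.sum_image fun a _ a' _ haa' => h.inj haa', Finset.mul_sum]
  have e4 : ∃ w ∈ (Finset.univ : Finset (Wgp ι)),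
      ∑ b : B, (((w : B →* ℂˣ) b : ℂˣ) : ℂ) * x b * x' b⁻¹ ≠ 0 :=
    Finset.exists_ne_zero_of_sum_ne_zero (by
      rw [e3]
      exact mul_ne_zero hidx e2)
  obtain ⟨w, -, hw⟩ := e4
  refine ⟨w, w.2, ?_⟩
  by_contra hne
  exact hw ((Col_row _ x' (LinB_irr (w : B →* ℂˣ) x hx) hx').2 fun h3 => hne h3.symm)

end Pool.Agent.KBY
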