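import Pool.Agent.KBY.StA
import Pool.Agent.KBY.CpA
import Pool.Agent.KBY.CntF

/-! The number of the characters over a stable set: the step. -/

set_option autoImplicit false

namespace Pool.Agent.KBY

open Pool.Agent.KB Pool.Agent.KB.ContrAux Pool.Agent.KBL Pool.Agent.KBZ Pool.Agent.KBU
  Pool.Agent.KBQ

/-- PROOF. Let `S = G ⧸ ι.range` (normal, `h.normal`), `π` the quotient map, `X = Abv ι₁ Y`: a set of
irreducible characters of `B`, stable under `G`: if `x` is over `y` then `tw h g x` is over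
`tw h' g y ∈ Y` (substitute in the sum; `h.cg g (ι₁ a) = ι₁ (h'.cg g a)`). Actions: `StA_X`, `StA_W`, `StA_WX`.
Compatibility: `π g • (w • x) = (π g • w) • (π g • x)`, by evaluation at `b`. By `CntF_main`:
`|Abv ι X| * |S| ≤ |Trp S X|`. By `CpA_main` and `StA_orb`: `|Trp S X| ≤ |Y| * |Trp S W|`, `W = Wgp ι₁`
(`LinA_pow`, `LinA_card`; `X` is finite by `Col_finite B`). `KVB p r C` for `W` and `S`: the action is
faithful: if `π g` acts trivially on `W` then for all `b`, `w`: `w (h.cg g⁻¹ b * b⁻¹) = 1`, so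
`h.cg g⁻¹ b * b⁻¹` is in the range of `ι₁` (`LinA_sep`), so `g` is in the range of `ι` by `hfaith` (for `g⁻¹`)
(`FaithfulSMul`: if `s`, `s'` act in the same way then `s⁻¹ s'` acts trivially). So
`|Trp S W| ≤ C |S| |W|`. Cancel `|S|`. Finally `Abv (ι.comp ι₁) Y ⊆ Abv ι X` by `ClA_trans`. -/
theorem StB_main {A B G : Type} [Group A] [Fintype A] [Group B] [Fintype B] [Group G]
    [Fintype G] {ι₁ : A →* B} {ι : B →* G} (h₁ : Nrm ι₁) (h : Nrm ι) (h' : Nrm (ι.comp ι₁)) (p : ℕ)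
    (hp : p.Prime) (r C : ℕ) (hK : KVB p r C) (hcom : ∀ x y : B, ∃ a, ι₁ a = x * y * x⁻¹ * y⁻¹)
    (hpow : ∀ x : B, ∃ a, ι₁ a = x ^ p) (hr : ι₁.range.index ≤ p ^ r) (hidx : ¬ p ∣ ι.range.index)
    (hfaith : ∀ g : G, (∀ b : B, ∃ a, ι (ι₁ a) = g * ι b * g⁻¹ * (ι b)⁻¹) → ∃ b, ι b = g)
    (Y : Set (A → ℂ)) (hY : ∀ y ∈ Y, y ∈ Irr A) (hst : ∀ g : G, ∀ y ∈ Y, tw h' g y ∈ Y) :
    (Abv (ι.comp ι₁) Y).ncard ≤ C * ι₁.range.index * Y.ncard := by
  classical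
  have hnorm := h.normal
  obtain ⟨π, hπdef⟩ : ∃ π : G →* G ⧸ ι.range, π = QuotientGroup.mk' ι.range := ⟨_, rfl⟩
  have hπ : Function.Surjective π := by
    rw [hπdef]
    exact QuotientGroup.mk'_surjective _
  have hker : ∀ g, π g = 1 ↔ ∃ b, ι b = g := by
    intro g
    rw [hπdef]
    exact QuotientGroup.eq_one_iff g
  have hX : ∀ x ∈ Abv ι₁ Y, x ∈ Irr B := fun x hx => hx.1
  have hcg : ∀ (g : G) (a : A), h.cg g (ι₁ a) = ι₁ (h'.cg g a) := by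
    intro g a
    apply h.inj
    rw [h.cg_spec]
    exact (h'.cg_spec g a).symm
  have hXst : ∀ g : G, ∀ x ∈ Abv ι₁ Y, tw h g x ∈ Abv ι₁ Y := by
    rintro g x ⟨hx, y, hy, hov⟩
    refine ⟨tw_irr h g hx, tw h' g y, hst g y hy, ?_⟩
    intro h0
    apply hov
    rw [← h0]
    symm
    refine Fintype.sum_equiv (h'.cg g).toEquiv _ _ fun a => ?_
    rw [tw_apply, tw_apply, hcg, map_inv]
    rfl
  obtain ⟨actX, hactX⟩ := StA_X h (Abv ι₁ Y) hX hXst π hπ hker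
  obtain ⟨actW, hactW⟩ := StA_W h h' π hπ hker
  obtain ⟨actWX, hactWX⟩ := StA_WX ι₁ Y
  obtain ⟨hWfin, hWcard⟩ := LinA_card h₁ hcom
  have hXfin : Finite (Abv ι₁ Y) :=
    (Set.Finite.subset (@Set.toFinite _ (Irr B) (Col_finite B)) fun x hx => hx.1).to_subtype
  have hSp : ¬ p ∣ Nat.card (G ⧸ ι.range) := hidx
  have hWp : ∀ w : Wgp ι₁, w ^ p = 1 := fun w => LinA_pow ι₁ p hpow w
  have hcomp : ∀ (s : G ⧸ ι.range) (w : Wgp ι₁) (x : Abv ι₁ Y),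
      s • (w • x) = (s • w) • (s • x) := by
    intro s w x
    obtain ⟨g, rfl⟩ := hπ s
    apply Subtype.ext
    funext b
    rw [hactX, hactWX, hactX, hactW, tw_apply, tw_apply, hactWX]
  have h1 := CntF_main h (Abv ι₁ Y) hX hXst (G ⧸ ι.range) π hπ hker hactX
  have h2 := CpA_main p hp (G ⧸ ι.range) (Wgp ι₁) (Abv ι₁ Y) hcomp hSp hWp
  have h3 := StA_orb h₁ hcom Y hY hactWX
  have hff : FaithfulSMul (G ⧸ ι.range) (Wgp ι₁) := by
    constructor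
    intro s₁ s₂ hs
    obtain ⟨g₁, rfl⟩ := hπ s₁
    obtain ⟨g₂, rfl⟩ := hπ s₂
    have h4 : ∀ (w : Wgp ι₁) (b : B), (w : B →* ℂˣ) (h.cg (g₂⁻¹ * g₁) b) = (w : B →* ℂˣ) b := by
      intro w b
      have h5 := congrArg (fun v : Wgp ι₁ => (v : B →* ℂˣ) (h.cg g₁ b)) (hs w)
      simp only [hactW] at h5
      rw [h.cg_inv] at h5
      rw [h.cg_mul]
      exact h5.symm
    have h5 : ∃ b, ι b = g₂⁻¹ * g₁ := by
      apply hfaith
      intro b
      by_contra hcon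
      push Not at hcon
      obtain ⟨w, hw, hw1⟩ := LinA_sep h₁ hcom (h.cg (g₂⁻¹ * g₁) b * b⁻¹) (by
        intro a ha
        apply hcon a
        rw [ha, map_mul, map_inv, h.cg_spec])
      apply hw1
      rw [map_mul, map_inv, h4 ⟨w, hw⟩ b, mul_inv_cancel]
    have h6 := (hker _).2 h5
    rw [map_mul, map_inv] at h6
    exact (inv_mul_eq_one.1 h6).symm
  have h4 := hK (Wgp ι₁) (G ⧸ ι.range) hWp (by rw [hWcard]; exact hr) hSp
  have hSpos : 0 < Nat.card (G ⧸ ι.range) := Nat.card_pos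
  have h5 : (Abv ι (Abv ι₁ Y)).ncard * Nat.card (G ⧸ ι.range) ≤
      (C * ι₁.range.index * Y.ncard) * Nat.card (G ⧸ ι.range) := by
    calc (Abv ι (Abv ι₁ Y)).ncard * Nat.card (G ⧸ ι.range)
        ≤ Nat.card (Trp (G ⧸ ι.range) (Abv ι₁ Y)) := h1
      _ ≤ _ := h2
      _ ≤ Y.ncard * (C * Nat.card (G ⧸ ι.range) * Nat.card (Wgp ι₁)) := Nat.mul_le_mul h3 h4
      _ = (C * ι₁.range.index * Y.ncard) * Nat.card (G ⧸ ι.range) := by
          rw [hWcard]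
          ring
  refine le_trans ?_ (Nat.le_of_mul_le_mul_right h5 hSpos)
  refine Set.ncard_le_ncard ?_
    (Set.Finite.subset (@Set.toFinite _ (Irr G) (Col_finite G)) fun x hx => hx.1)
  rintro χ ⟨hχ, y, hy, hov⟩
  obtain ⟨θ, hθ, hov1, hov2⟩ := (ClA_trans ι₁ h₁.inj ι h.inj χ hχ y (hY y hy)).1 hov
  exact ⟨hχ, θ, ⟨hθ, y, hy, hov2⟩, hov1⟩

end Pool.Agent.KBY
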