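import Pool.Agent.KBY.DefsB
import Pool.Agent.KBQ.Sub
import Pool.Agent.KBZ.UOne

/-! The centralizer of the defect group as a subgroup. -/

set_option autoImplicit false

namespace Pool.Agent.KBY

open Pool.Agent.KB Pool.Agent.KB.ContrAux Pool.Agent.KBL Pool.Agent.KBZ Pool.Agent.KBU
  Pool.Agent.KBQ

/-- From an injective homomorphism onto the centralizer to the centralizer as a subgroup. -/
theorem Tra_sub {G H : Type} [Group G] [Fintype G] [Group H] [Fintype H] (p : ℕ) (𝔪 : Ideal AInt)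
    (χ : G → ℂ) (hχ : χ ∈ Irr G) (D : Subgroup G) (ι : H →* G) (ζ : H → ℂ)
    (hA : AbD p 𝔪 χ D ι ζ) :
    ∃ ζ' : Subgroup.centralizer (D : Set G) → ℂ, ζ' ∈ Irr (Subgroup.centralizer (D : Set G)) ∧
      Induces 𝔪 (Subgroup.centralizer (D : Set G)) ζ' χ := by
  classical
  have hran : ∀ x : G, (∃ y, ι y = x) ↔ x ∈ Subgroup.centralizer (D : Set G) := by
    intro x
    rw [hA.cen.ran, Subgroup.mem_centralizer_iff]
    rfl
  have hrange : ι.range = Subgroup.centralizer (D : Set G) := by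
    ext x
    exact hran x
  let e : Subgroup.centralizer (D : Set G) ≃* H :=
    (MulEquiv.subgroupCongr hrange.symm).trans (MonoidHom.ofInjective hA.cen.inj).symm
  have he : ∀ x, ι (e x) = x := by
    intro x
    have h1 : ((MonoidHom.ofInjective hA.cen.inj) (e x) : G) = ι (e x) := rfl
    rw [← h1]
    change (((MonoidHom.ofInjective hA.cen.inj) ((MonoidHom.ofInjective hA.cen.inj).symm
      (MulEquiv.subgroupCongr hrange.symm x)) : ι.range) : G) = x
    rw [MulEquiv.apply_symm_apply]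
    rfl
  haveI : Fintype (Subgroup.centralizer (D : Set G)) := Fintype.ofFinite _
  have hζ' : (fun x => ζ (e x)) ∈ Irr (Subgroup.centralizer (D : Set G)) := UOne_irr e hA.irr
  refine ⟨fun x => ζ (e x), hζ', ?_⟩
  rw [IndA_sub 𝔪 _ _ hζ' χ hχ]
  refine IndA_cj 𝔪 1 ι (Subgroup.centralizer (D : Set G)).subtype hA.cen.inj
    (Subgroup.subtype_injective _) ?_ ?_ ζ _ hA.irr hζ' ?_ χ hA.ind
  · intro x₁
    exact ⟨⟨ι x₁, (hran _).1 ⟨x₁, rfl⟩⟩, by simp⟩
  · intro x₂
    exact ⟨e x₂, by simp [he]⟩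
  · intro x₁ x₂ h
    have h1 : e x₂ = x₁ := by
      apply hA.cen.inj
      rw [he]
      simpa using h.symm
    rw [UOne_omega, h1, sub_self]
    exact InM_zero 𝔪

/-- The property `ADB` from the same statement for the centralizer as a subgroup. -/
theorem Tra_adb (p : ℕ) (𝔪 : Ideal AInt) (r C : ℕ)
    (hC : ∀ (G : Type) [Group G] [Finite G] (χ : G → ℂ) (D : Subgroup G)
      (ζ : Subgroup.centralizer (D : Set G) → ℂ), χ ∈ Irr G → (∀ a ∈ D, ∀ b ∈ D, a * b = b * a) →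
      Nat.card D = p ^ defect p (block 𝔪 χ) → ζ ∈ Irr (Subgroup.centralizer (D : Set G)) →
      Induces 𝔪 (Subgroup.centralizer (D : Set G)) ζ χ → Nat.card {x : D // x ^ p = 1} ≤ p ^ r →
      (block 𝔪 χ).ncard ≤ C * Nat.card D) : ADB p 𝔪 r C := by
  intro G H _ _ _ _ χ D ι ζ hχ hA hr
  obtain ⟨ζ', hζ', hi⟩ := Tra_sub p 𝔪 χ hχ D ι ζ hA
  exact hC G χ D ζ' hχ hA.com hA.card hζ' hi hr

end Pool.Agent.KBY
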