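import Pool.Agent.KBY.DefsB
import Pool.Agent.KBY.CovA
import Pool.Agent.KBY.ClA
import Pool.Agent.KBQ.Pcj
import Pool.Agent.KBQ.IndA

/-! The characters of the centralizer of a defect group in a normal subgroup. -/

set_option autoImplicit false

namespace Pool.Agent.KBY

open Pool.Agent.KB Pool.Agent.KB.ContrAux Pool.Agent.KBL Pool.Agent.KBZ Pool.Agent.KBU
  Pool.Agent.KBQ

/-- `C_N(D)` is normal in `C_K(D)`. HINT: an element of `K` which commutes with `D.map κ` and is in the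
range of `κ` is `κ y` with `y` in the centralizer of `D`. -/
theorem UCov_nrm {N K H H' : Type} [Group N] [Group K] [Group H] [Group H'] {κ : N →* K}
    (h : Nrm κ) (D : Subgroup N) (ι₀ : H →* N) (h₀ : CenOf ι₀ D) (ι' : H' →* K)
    (h' : CenOf ι' (D.map κ)) : ∃ l : H →* H', (∀ x, ι' (l x) = κ (ι₀ x)) ∧ Nrm l := by
  have hcom : ∀ x : H, ∃ y : H', ι' y = κ (ι₀ x) := by
    intro x
    refine (h'.ran _).2 ?_
    rintro _ ⟨d, hd, rfl⟩
    rw [← map_mul, ← map_mul, h₀.com x hd]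
  choose f hf using hcom
  let l : H →* H' :=
    { toFun := f
      map_one' := h'.inj (by rw [hf, map_one, map_one, map_one])
      map_mul' := fun x y => h'.inj (by rw [hf, map_mul, map_mul, map_mul, hf, hf]) }
  have hl : ∀ x, ι' (l x) = κ (ι₀ x) := hf
  refine ⟨l, hl, ?_, ?_⟩
  · intro x y hxy
    have h1 := congrArg ι' hxy
    rw [hl, hl] at h1
    exact h₀.inj (h.inj h1)
  · intro g x
    obtain ⟨z, hz⟩ := h.nrm (ι' g) (ι₀ x)
    have hzD : ∀ d ∈ D, d * z = z * d := by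
      intro d hd
      apply h.inj
      have h1 : κ d * ι' g = ι' g * κ d := h'.com g (Subgroup.mem_map_of_mem κ hd)
      have h2 : κ d * κ (ι₀ x) = κ (ι₀ x) * κ d := by
        rw [← map_mul, ← map_mul, h₀.com x hd]
      have h3 : κ d * (ι' g)⁻¹ = (ι' g)⁻¹ * κ d := by
        rw [eq_inv_mul_iff_mul_eq, ← mul_assoc, ← h1, mul_assoc, mul_inv_cancel, mul_one]
      rw [map_mul, map_mul, hz]
      calc κ d * (ι' g * κ (ι₀ x) * (ι' g)⁻¹) = (κ d * ι' g) * κ (ι₀ x) * (ι' g)⁻¹ := by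
            simp only [mul_assoc]
        _ = ι' g * (κ d * κ (ι₀ x)) * (ι' g)⁻¹ := by rw [h1]; simp only [mul_assoc]
        _ = ι' g * κ (ι₀ x) * (κ d * (ι' g)⁻¹) := by rw [h2]; simp only [mul_assoc]
        _ = ι' g * κ (ι₀ x) * (ι' g)⁻¹ * κ d := by rw [h3]; simp only [mul_assoc]
    obtain ⟨y, hy⟩ := (h₀.ran z).2 hzD
    refine ⟨y, h'.inj ?_⟩
    rw [hl, hy, hz, map_mul, map_mul, map_inv, hl]

/-- PROOF. `MajA_lift` (with `C := N`, `D`, `ι₀`) gives `θ₂ ∈ Irr N` with `Ind 𝔪 ι₀ ζ₁ θ₂`. Claim: the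
hypothesis of `CovA_inv h` holds for `θ`, `θ₂`. Let `z` be invariant. `α = up κ z` is central
(`Up_ctr`), `omg χ α = omg θ z` (`KOne_main`). `hB.ind`: `omg χ α ≡ omg η (trc ι' α)`. Now
`trc ι' (up κ z) = up l (trc ι₀ z)`: the coefficient at `w : H'` of the left side is the coefficient of
`up κ z` at `ι' w`; if `ι' w = κ y` then `y` centralizes `D`, `y = ι₀ x`, `w = l x` and both sides are
`z.coeff (ι₀ x)`; otherwise both are `0` (`Up_coeff`, `Up_off`, `Br_coeff`). `trc ι₀ z` is invariant under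
`H'` (for `l`): conjugation by `w : H'` on `H` is conjugation by `ι' w` on `N`. So `KOne_main hl`:
`omg η (up l (trc ι₀ z)) = omg ζ₁ (trc ι₀ z) ≡ omg θ₂ z` (`Ind`; `Up_ctrA`). So `omg θ z ≡ omg θ₂ z`.
`CovA_inv` gives `g` with `tw h g θ₂ ∈ block 𝔪 θ`, and the block of `θ` is stable, so
`θ₂ ∈ block 𝔪 θ` (as in `CovA_stable`). `IndA_block` gives `Ind 𝔪 ι₀ ζ₁ θ`. -/
theorem UCov_main {N K H H' : Type} [Group N] [Fintype N] [Group K] [Fintype K] [Group H]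
    [Fintype H] [Group H'] [Fintype H'] {κ : N →* K} (h : Nrm κ) (p : ℕ) (hp : p.Prime)
    (𝔪 : Ideal AInt) (h𝔪 : 𝔪.IsMaximal) (hp𝔪 : (p : AInt) ∈ 𝔪) (χ : K → ℂ) (hχ : χ ∈ Irr K)
    (θ : N → ℂ) (hθ : θ ∈ Irr N) (hov : Over κ χ θ) (hst : ∀ g : K, SameBlock 𝔪 θ (tw h g θ))
    (D : Subgroup N) (hD : IsPGroup p D) (ι₀ : H →* N) (h₀ : CenOf ι₀ D) (ι' : H' →* K)
    (η : H' → ℂ) (hB : AbD p 𝔪 χ (D.map κ) ι' η) (l : H →* H')
    (hl : Nrm l) (hll : ∀ x, ι' (l x) = κ (ι₀ x)) (ζ₁ : H → ℂ) (hζ₁ : ζ₁ ∈ Irr H)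
    (hov1 : Over l η ζ₁) : Ind 𝔪 ι₀ ζ₁ θ := by
  obtain ⟨θ₂, hθ₂, hI⟩ := MajA_lift p hp 𝔪 h𝔪 hp𝔪 D hD ι₀ h₀.inj h₀.ran ζ₁ hζ₁
  have h' := hB.cen
  have hclaim : ∀ z, Inv h z → InM 𝔪 (omg θ z - omg θ₂ z) := by
    intro z hz
    have e1 := KOne_main h χ hχ θ hθ hov z hz
    have e2 := hB.ind (up κ z) (Up_ctr h z hz)
    have e3 : trc ι' (up κ z) = up l (trc ι₀ z) := by
      refine MonoidAlgebra.ext ?_
      ext w
      rw [Br_coeff]
      by_cases hw : ∃ y, κ y = ι' w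
      · obtain ⟨y, hy⟩ := hw
        have hyD : ∀ d ∈ D, d * y = y * d := by
          intro d hd
          apply h.inj
          rw [map_mul, map_mul, hy]
          exact h'.com w (Subgroup.mem_map_of_mem κ hd)
        obtain ⟨x, rfl⟩ := (h₀.ran y).2 hyD
        have hwx : w = l x := h'.inj (by rw [hll, hy])
        rw [← hy, Up_coeff κ h.inj, hwx, Up_coeff l hl.inj, Br_coeff]
      · rw [Up_off κ z (ι' w) fun a ha => hw ⟨a, ha⟩, Up_off l (trc ι₀ z) w]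
        intro x hx
        exact hw ⟨ι₀ x, by rw [← hll, hx]⟩
    have hinv : Inv hl (trc ι₀ z) := by
      intro g a
      rw [Br_coeff, Br_coeff]
      have h1 : ι₀ (hl.cg g a) = h.cg (ι' g) (ι₀ a) := by
        apply h.inj
        rw [h.cg_spec, ← hll, ← hll, hl.cg_spec, map_mul, map_mul, map_inv]
      rw [h1]
      exact hz _ _
    have e4 := KOne_main hl η hB.irr ζ₁ hζ₁ hov1 (trc ι₀ z) hinv
    have e5 := hI z (Up_ctrA h z hz)
    rw [e1, e3, e4] at e2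
    have e6 := InM_sub e2 e5
    rwa [sub_sub_sub_cancel_right] at e6
  obtain ⟨g, hg⟩ := CovA_inv h 𝔪 h𝔪 θ θ₂ hθ hθ₂ hclaim
  have hs : SameBlock 𝔪 θ θ₂ := by
    have h1 := tw_same h 𝔪 g⁻¹ hg.2
    rw [tw_inv] at h1
    exact same_trans (hst g⁻¹) h1
  exact IndA_block 𝔪 ι₀ ζ₁ ζ₁ θ₂ θ hζ₁ hθ₂ ⟨hζ₁, same_refl 𝔪 ζ₁⟩ ⟨hθ, same_symm hs⟩ hI

end Pool.Agent.KBY
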