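import Pool.Agent.KBY.UCov

/-! The stabilizer of a block of the centralizer: a Frattini argument. -/

set_option autoImplicit false

namespace Pool.Agent.KBY

open Pool.Agent.KB Pool.Agent.KB.ContrAux Pool.Agent.KBL Pool.Agent.KBZ Pool.Agent.KBU
  Pool.Agent.KBQ

/-- PROOF. `k` normalizes `D.map κ` and fixes the block of `η`. Conjugation by `k` gives an automorphism
`e'` of `H'` with `ι' (e' w) = k * ι' w * k⁻¹` (`IndA_iso` or `CenOf.nrm`) and an automorphism `e` of `H` with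
`κ (ι₀ (e x)) = k * κ (ι₀ x) * k⁻¹` (the element `k * κ (ι₀ x) * k⁻¹` is in the range of `κ` and commutes with
`D.map κ`), and `l (e x) = e' (l x)`. Let `η' = η ∘ e'⁻¹`, `ζ' = ζ₁ ∘ e⁻¹`: irreducible (`UOne_irr`), `η'` is over
`ζ'` (substitute in the sum), and `η' ∈ block 𝔪 η`: `Cj 𝔪 k ι' η ι' η` says `omega η w₁ ≡ omega η (e' w₁)`, and
`omega (η ∘ e'⁻¹) (e' w₁) = omega η w₁` (`UOne_omega`). By `CovA_main hl` (`χ := η`, `χ' := η'`, `θ := ζ₁`,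
`θ' := ζ'`) there is `c : H'` with `tw hl c ζ' ∈ block 𝔪 ζ₁`. Then the element `(ι' c)⁻¹ * k` works: it
normalizes `D.map κ` (`ι' c` commutes with `D.map κ`), and if `((ι' c)⁻¹ k) κ(ι₀ x₁) ((ι' c)⁻¹ k)⁻¹ =
κ(ι₀ x₂)` then `e x₁ = hl.cg c x₂`, so `omega ζ₁ x₁ = omega ζ' (e x₁) = omega (tw hl c ζ') x₂ ≡
omega ζ₁ x₂`. -/
theorem UFra_main {N K H H' : Type} [Group N] [Fintype N] [Group K] [Fintype K] [Group H]
    [Fintype H] [Group H'] [Fintype H'] {κ : N →* K} (h : Nrm κ) (𝔪 : Ideal AInt)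
    (h𝔪 : 𝔪.IsMaximal) (D : Subgroup N) (ι₀ : H →* N) (h₀ : CenOf ι₀ D) (ι' : H' →* K)
    (h' : CenOf ι' (D.map κ)) (η : H' → ℂ) (hη : η ∈ Irr H') (l : H →* H')
    (hl : Nrm l) (hll : ∀ x, ι' (l x) = κ (ι₀ x)) (ζ₁ : H → ℂ) (hζ₁ : ζ₁ ∈ Irr H)
    (hov1 : Over l η ζ₁) (k : K) (hk : k ∈ Stb 𝔪 h' η) :
    ∃ c : H', ι' c * k ∈ ExS 𝔪 κ D ι₀ ζ₁ := by
  classical
  have hinvk : k⁻¹ ∈ Stb 𝔪 h' η := (Stb 𝔪 h' η).inv_mem hk
  -- the conjugation on `H'`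
  obtain ⟨e', he'⟩ := IndA_iso k ι' ι' h'.inj h'.inj (fun x => h'.nrm hk.1 x) (fun x => by
    obtain ⟨y, hy⟩ := h'.nrm hinvk.1 x
    refine ⟨y, ?_⟩
    rw [hy]
    group)
  -- the conjugation on `H`
  have hsub : ∀ k' : K, (∀ x, x ∈ D.map κ ↔ k' * x * k'⁻¹ ∈ D.map κ) → ∀ x : H, ∃ x' : H,
      κ (ι₀ x') = k' * κ (ι₀ x) * k'⁻¹ := by
    intro k' hk' x
    obtain ⟨y, hy⟩ := h.nrm k' (ι₀ x)
    obtain ⟨w, hw⟩ := h'.nrm hk' (l x)
    rw [hll, ← hy] at hw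
    obtain ⟨x', hx'⟩ := (h₀.ran y).2 (fun g hg => by
      apply h.inj
      rw [map_mul, map_mul, ← hw]
      exact h'.com w (Subgroup.mem_map_of_mem κ hg))
    exact ⟨x', by rw [hx', hy]⟩
  have hinj0 : Function.Injective (κ.comp ι₀) := h.inj.comp h₀.inj
  obtain ⟨e, he⟩ := IndA_iso k (κ.comp ι₀) (κ.comp ι₀) hinj0 hinj0 (fun x => hsub k hk.1 x)
    (fun x => by
      obtain ⟨y, hy⟩ := hsub k⁻¹ hinvk.1 x
      refine ⟨y, ?_⟩
      change κ (ι₀ x) = k * κ (ι₀ y) * k⁻¹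
      rw [hy]
      group)
  have he0 : ∀ x, κ (ι₀ (e x)) = k * κ (ι₀ x) * k⁻¹ := he
  have hle : ∀ x, l (e x) = e' (l x) := by
    intro x
    apply h'.inj
    rw [hll, he0, he', hll]
  -- the transported characters
  have hη' : (fun w => η (e'.symm w)) ∈ Irr H' := UOne_irr e'.symm hη
  have hζ' : (fun x => ζ₁ (e.symm x)) ∈ Irr H := UOne_irr e.symm hζ₁
  have hov' : Over l (fun w => η (e'.symm w)) (fun x => ζ₁ (e.symm x)) := by
    unfold Over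
    have h1 : ∑ a : H, η (e'.symm (l a)) * ζ₁ (e.symm a⁻¹) = ∑ a : H, η (l a) * ζ₁ a⁻¹ := by
      rw [← Equiv.sum_comp e.toEquiv (fun a : H => η (e'.symm (l a)) * ζ₁ (e.symm a⁻¹))]
      refine Finset.sum_congr rfl fun a _ => ?_
      change η (e'.symm (l (e a))) * ζ₁ (e.symm (e a)⁻¹) = _
      rw [hle, MulEquiv.symm_apply_apply, ← map_inv, MulEquiv.symm_apply_apply]
    rw [h1]
    exact hov1
  have hblk : (fun w => η (e'.symm w)) ∈ block 𝔪 η := by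
    refine ⟨hη', fun w => ?_⟩
    have h1 := hk.2 (e'.symm w) w (by rw [← he', MulEquiv.apply_symm_apply])
    have h2 := InM_sub (InM_zero 𝔪) h1
    have h3 : (0 : ℂ) - (omega η (e'.symm w) - omega η w) =
        omega η w - omega (fun w => η (e'.symm w)) w := by
      rw [UOne_omega e'.symm η w]
      ring
    rw [h3] at h2
    exact h2
  obtain ⟨c, hc, -⟩ := CovA_main hl 𝔪 h𝔪 η _ hη hblk ζ₁ _ hζ₁ hζ' hov1 hov'
  refine ⟨c⁻¹, fun x => ?_, fun x₁ x₂ hx => ?_⟩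
  · rw [hk.1 x]
    have h1 : ι' c⁻¹ * k * x * (ι' c⁻¹ * k)⁻¹ = ι' c⁻¹ * (k * x * k⁻¹) * (ι' c⁻¹)⁻¹ := by group
    rw [h1]
    constructor
    · intro h2
      rw [← h'.com c⁻¹ h2, mul_inv_cancel_right]
      exact h2
    · intro h2
      have h3 := h'.com c⁻¹ h2
      have h4 : k * x * k⁻¹ = (ι' c⁻¹)⁻¹ * ((ι' c⁻¹ * (k * x * k⁻¹) * (ι' c⁻¹)⁻¹) * ι' c⁻¹) := by
        group
      rw [h3] at h4
      rw [inv_mul_cancel_left] at h4
      rw [h4]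
      exact h2
  · have h1 : ι' (l (e x₁)) = ι' (c * l x₂ * c⁻¹) := by
      rw [hll, he0, map_mul, map_mul, hll, map_inv]
      have h2 : ι' c⁻¹ * k * κ (ι₀ x₁) * (ι' c⁻¹ * k)⁻¹ = κ (ι₀ x₂) := hx
      rw [← h2, map_inv]
      group
    have h3 : e x₁ = hl.cg c x₂ := by
      apply hl.inj
      rw [h'.inj h1, hl.cg_spec]
    have h4 : omega ζ₁ x₁ = omega (tw hl c (fun x => ζ₁ (e.symm x))) x₂ := by
      rw [tw_omega, ← h3, UOne_omega e.symm ζ₁ (e x₁), MulEquiv.symm_apply_apply]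
    have h5 := InM_sub (InM_zero 𝔪) (hc.2 x₂)
    have h6 : (0 : ℂ) - (omega ζ₁ x₂ - omega (tw hl c (fun x => ζ₁ (e.symm x))) x₂) =
        omega ζ₁ x₁ - omega ζ₁ x₂ := by
      rw [h4]
      ring
    rw [h6] at h5
    exact h5

end Pool.Agent.KBY
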